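import Mathlib

namespace Pool.Agent.P.MP_2f562c_al

open Module

variable {F V : Type*} [Field F] [AddCommGroup V] [Module F V]

/-- Irreducible tridiagonal matrix: zero off the three central diagonals, nonzero on the
sub- and superdiagonal. -/
def IrredTridiag {d : ℕ} (M : Matrix (Fin (d + 1)) (Fin (d + 1)) F) : Prop :=
  ∀ i j : Fin (d + 1),
    ((i : ℕ) + 1 < j ∨ (j : ℕ) + 1 < i → M i j = 0) ∧
    ((i : ℕ) + 1 = j ∨ (j : ℕ) + 1 = i → M i j ≠ 0)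

/-- In the basis `b` the matrix of `A` is diagonal and that of `B` is irreducible tridiagonal. -/
def DiagTri {d : ℕ} (b : Basis (Fin (d + 1)) F V) (A B : V →ₗ[F] V) : Prop :=
  (LinearMap.toMatrix b b A).IsDiag ∧ IrredTridiag (LinearMap.toMatrix b b B)

/-- `A, B` is a Leonard pair on the space `V` of dimension `d + 1`. -/
def LeonardPair (d : ℕ) (A B : V →ₗ[F] V) : Prop :=
  (∃ b : Basis (Fin (d + 1)) F V, DiagTri b A B) ∧ (∃ b : Basis (Fin (d + 1)) F V, DiagTri b B A)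

/-- The tridiagonal matrix whose column `j` has `lo j` in row `j + 1`, `di j` in row `j` and
`up j` in row `j - 1`. -/
def tri (d : ℕ) (lo di up : ℕ → F) : Matrix (Fin (d + 1)) (Fin (d + 1)) F :=
  fun i j => if (i : ℕ) = j + 1 then lo j else if (i : ℕ) = j then di j
    else if (i : ℕ) + 1 = j then up j else 0

/-- Diagonal entry `a_i` of `A` in the normal form. -/
def diagA (d : ℕ) (σ a₀ a₁ p : F) (i : ℕ) : F :=
  a₀ + a₁ * σ⁻¹ ^ i + (1 + σ) * σ ^ d * p * σ⁻¹ ^ (2 * i)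

/-- Superdiagonal entry `c_i` of `A` in the normal form. -/
def supA (d : ℕ) (σ a₁ p e : F) (i : ℕ) : F :=
  (1 - σ⁻¹ ^ i) * (1 - σ ^ (d + 1) * σ⁻¹ ^ i) *
    (e + σ * p * (a₁ + (σ ^ (d + 1) + 1) * p) * σ⁻¹ ^ i + σ ^ (d + 2) * p ^ 2 * σ⁻¹ ^ (2 * i))

/-- The four families of admissible parameters. -/
def Family (d : ℕ) (σ ρ r r' a₁ p e x₁ x₂ : F) : Prop :=
  (ρ = σ ∧ p = 0 ∧ x₂ = 0) ∨
  (ρ = -σ ∧ r' = r ∧ a₁ = 0 ∧ p = 0 ∧ x₁ = 0 ∧ x₂ = 0) ∨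
  (ρ = σ ^ 2 ∧ r' = r ∧ ∃ u, a₁ = (σ ^ (d + 1) + 1) * (u - p) ∧ e = σ * u ^ 2 ∧
    σ * x₁ = -r * a₁ ∧ σ * x₂ = (1 + σ) * r * u) ∨
  (ρ = σ ^ 2 ∧ r' ≠ r ∧ a₁ = 0 ∧ x₁ = 0 ∧ e = σ * p ^ 2 ∧
    ∃ ν, ν ^ 2 = r * r' ∧ σ * x₂ = (1 + σ) * ν * p)

end Pool.Agent.P.MP_2f562c_al
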