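import Mathlib
import Pool.Agent.P.MP_2f562c_al.Defs

namespace Pool.Agent.P.MP_2f562c_al

open Module

variable {F V : Type*} [Field F] [AddCommGroup V] [Module F V] {d : ℕ}

noncomputable def ee (b : Basis (Fin (d + 1)) F V) (i : ℤ) : V :=
  if h : 0 ≤ i ∧ i ≤ d then b ⟨i.toNat, by omega⟩ else 0

noncomputable def ph (b : Basis (Fin (d + 1)) F V) (i : ℤ) : V →ₗ[F] F :=
  if h : 0 ≤ i ∧ i ≤ d then b.coord ⟨i.toNat, by omega⟩ else 0

variable (b : Basis (Fin (d + 1)) F V)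

lemma ee_out {i : ℤ} (h : i < 0 ∨ d < i) : ee b i = 0 := by
  unfold ee; rw [dif_neg (by omega)]

lemma ph_out {i : ℤ} (h : i < 0 ∨ d < i) : ph b i = 0 := by
  unfold ph; rw [dif_neg (by omega)]

lemma ee_fin (i : Fin (d + 1)) : ee b (i : ℕ) = b i := by
  have := i.2
  unfold ee; rw [dif_pos (by omega)]; rfl

lemma ph_fin (i : Fin (d + 1)) : ph b (i : ℕ) = b.coord i := by
  have := i.2
  unfold ph; rw [dif_pos (by omega)]; rfl

lemma exists_fin {i : ℤ} (h0 : 0 ≤ i) (h1 : i ≤ d) : ∃ j : Fin (d + 1), i = (j : ℕ) :=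
  ⟨⟨i.toNat, by omega⟩, by simp; omega⟩

lemma ph_ee_ne {u v : ℤ} (h : u ≠ v) : ph b u (ee b v) = 0 := by
  by_cases hu : 0 ≤ u ∧ u ≤ d
  · by_cases hv : 0 ≤ v ∧ v ≤ d
    · obtain ⟨i, rfl⟩ := exists_fin hu.1 hu.2
      obtain ⟨j, rfl⟩ := exists_fin hv.1 hv.2
      rw [ee_fin, ph_fin]
      have : j ≠ i := by rintro rfl; exact h rfl
      simp [this]
    · rw [ee_out b (by omega)]; simp
  · rw [ph_out b (by omega)]; simp

lemma ph_ee_self {u : ℤ} (h0 : 0 ≤ u) (h1 : u ≤ d) : ph b u (ee b u) = 1 := by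
  obtain ⟨i, rfl⟩ := exists_fin h0 h1
  rw [ee_fin, ph_fin]; simp

lemma ph_ee_eq {u v : ℤ} (h : u = v) (h0 : 0 ≤ u) (h1 : u ≤ d) : ph b u (ee b v) = 1 := by
  subst h; exact ph_ee_self b h0 h1

lemma ent_fin (T : V →ₗ[F] V) (i j : Fin (d + 1)) :
    ph b (i : ℕ) (T (ee b (j : ℕ))) = LinearMap.toMatrix b b T i j := by
  rw [ee_fin, ph_fin, LinearMap.toMatrix_apply]; rfl

lemma vec_ext {x y : V} (h : ∀ u : ℤ, 0 ≤ u → u ≤ d → ph b u x = ph b u y) : x = y := by
  apply b.ext_elem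
  intro i
  have := h (i : ℕ) (by omega) (by have := i.2; omega)
  rwa [ph_fin] at this

lemma op_ext {W : Type*} [AddCommGroup W] [Module F W] {S T : V →ₗ[F] W}
    (h : ∀ v : ℤ, 0 ≤ v → v ≤ d → S (ee b v) = T (ee b v)) : S = T := by
  apply b.ext
  intro i
  have := h (i : ℕ) (by omega) (by have := i.2; omega)
  rwa [ee_fin] at this

lemma ent_ext {S T : V →ₗ[F] V}
    (h : ∀ u v : ℤ, 0 ≤ u → u ≤ d → 0 ≤ v → v ≤ d → ph b u (S (ee b v)) = ph b u (T (ee b v))) :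
    S = T :=
  op_ext b fun v h0 h1 => vec_ext b fun u h2 h3 => h u v h2 h3 h0 h1

structure Tri (A : V →ₗ[F] V) (lo di up : ℤ → F) : Prop where
  eq : ∀ v, A (ee b v) = lo v • ee b (v + 1) + di v • ee b v + up v • ee b (v - 1)
  lo0 : ∀ v, v < 0 ∨ (d : ℤ) ≤ v → lo v = 0
  up0 : ∀ v, v ≤ 0 ∨ (d : ℤ) < v → up v = 0

def Dg (T : V →ₗ[F] V) (t : ℤ → F) : Prop := ∀ v, T (ee b v) = t v • ee b v

/-- nonvanishing of the off-diagonal entries -/
def NZ (d : ℕ) (lo up : ℤ → F) : Prop :=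
  (∀ v : ℤ, 0 ≤ v → v < d → lo v ≠ 0) ∧ (∀ v : ℤ, 0 < v → v ≤ d → up v ≠ 0)

variable {b}

lemma Dg.dual {T : V →ₗ[F] V} {t : ℤ → F} (h : Dg b T t) (u : ℤ) (x : V) :
    ph b u (T x) = t u * ph b u x := by
  have : (ph b u) ∘ₗ T = t u • ph b u := by
    apply op_ext b
    intro v h0 h1
    simp only [LinearMap.comp_apply, h v, map_smul, LinearMap.smul_apply, smul_eq_mul]
    by_cases huv : u = v
    · rw [huv]
    · rw [ph_ee_ne b huv]; simp
  exact LinearMap.congr_fun this x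

lemma Tri.lo_ent {A : V →ₗ[F] V} {lo di up : ℤ → F} (h : Tri b A lo di up) {u v : ℤ}
    (huv : u = v + 1) : ph b u (A (ee b v)) = lo v := by
  subst huv
  rw [h.eq]
  simp only [map_add, map_smul, smul_eq_mul]
  rw [ph_ee_ne b (by omega : v + 1 ≠ v), ph_ee_ne b (by omega : v + 1 ≠ v - 1)]
  by_cases hv : 0 ≤ v ∧ v < d
  · rw [ph_ee_self b (by omega) (by omega)]; ring
  · rw [h.lo0 v (by omega)]; ring

lemma Tri.up_ent {A : V →ₗ[F] V} {lo di up : ℤ → F} (h : Tri b A lo di up) {u v : ℤ}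
    (huv : u = v - 1) : ph b u (A (ee b v)) = up v := by
  subst huv
  rw [h.eq]
  simp only [map_add, map_smul, smul_eq_mul]
  rw [ph_ee_ne b (by omega : v - 1 ≠ v), ph_ee_ne b (by omega : v - 1 ≠ v + 1)]
  by_cases hv : 0 < v ∧ v ≤ d
  · rw [ph_ee_self b (by omega) (by omega)]; ring
  · rw [h.up0 v (by omega)]; ring

lemma Tri.di_ent {A : V →ₗ[F] V} {lo di up : ℤ → F} (h : Tri b A lo di up) {u v : ℤ}
    (huv : u = v) (h0 : 0 ≤ v) (h1 : v ≤ d) : ph b u (A (ee b v)) = di v := by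
  subst huv
  rw [h.eq]
  simp only [map_add, map_smul, smul_eq_mul]
  rw [ph_ee_ne b (by omega : u ≠ u + 1), ph_ee_ne b (by omega : u ≠ u - 1),
    ph_ee_self b h0 h1]; ring

lemma Tri.far_ent {A : V →ₗ[F] V} {lo di up : ℤ → F} (h : Tri b A lo di up) {u v : ℤ}
    (huv : v + 1 < u ∨ u + 1 < v) : ph b u (A (ee b v)) = 0 := by
  rw [h.eq]
  simp only [map_add, map_smul, smul_eq_mul]
  rw [ph_ee_ne b (by omega : u ≠ v + 1), ph_ee_ne b (by omega : u ≠ v - 1),
    ph_ee_ne b (by omega : u ≠ v)]; ring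

lemma Tri.dual {A : V →ₗ[F] V} {lo di up : ℤ → F} (h : Tri b A lo di up) (u : ℤ) (x : V) :
    ph b u (A x) = lo (u - 1) * ph b (u - 1) x + di u * ph b u x + up (u + 1) * ph b (u + 1) x := by
  have : (ph b u) ∘ₗ A = lo (u - 1) • ph b (u - 1) + di u • ph b u + up (u + 1) • ph b (u + 1) := by
    apply op_ext b
    intro v h0 h1
    simp only [LinearMap.comp_apply, LinearMap.add_apply, LinearMap.smul_apply, smul_eq_mul]
    by_cases h1 : u = v + 1
    · rw [h.lo_ent h1, ph_ee_eq b (by omega : u - 1 = v) (by omega) (by omega),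
        ph_ee_ne b (by omega : u ≠ v), ph_ee_ne b (by omega : u + 1 ≠ v),
        show u - 1 = v by omega]; ring
    by_cases h2 : u = v
    · rw [h.di_ent h2 h0 (by omega), ph_ee_eq b h2 (by omega) (by omega),
        ph_ee_ne b (by omega : u - 1 ≠ v), ph_ee_ne b (by omega : u + 1 ≠ v), h2]; ring
    by_cases h3 : u = v - 1
    · rw [h.up_ent h3, ph_ee_eq b (by omega : u + 1 = v) (by omega) (by omega),
        ph_ee_ne b (by omega : u ≠ v), ph_ee_ne b (by omega : u - 1 ≠ v),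
        show u + 1 = v by omega]; ring
    · rw [h.far_ent (by omega), ph_ee_ne b (by omega : u + 1 ≠ v),
        ph_ee_ne b (by omega : u ≠ v), ph_ee_ne b (by omega : u - 1 ≠ v)]; ring
  exact LinearMap.congr_fun this x

/-- build `Tri` from entries -/
lemma tri_of_ent {A : V →ₗ[F] V}
    (h : ∀ u v : ℤ, 0 ≤ u → u ≤ d → 0 ≤ v → v ≤ d → v + 1 < u ∨ u + 1 < v →
      ph b u (A (ee b v)) = 0) :
    Tri b A (fun v => ph b (v + 1) (A (ee b v))) (fun v => ph b v (A (ee b v)))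
      (fun v => ph b (v - 1) (A (ee b v))) := by
  refine ⟨fun v => ?_, fun v hv => ?_, fun v hv => ?_⟩
  · by_cases hv : 0 ≤ v ∧ v ≤ d
    · apply vec_ext b
      intro u h0 h1
      simp only [map_add, map_smul, smul_eq_mul]
      by_cases h1 : u = v + 1
      · rw [ph_ee_eq b h1 (by omega) (by omega), ph_ee_ne b (by omega : u ≠ v),
          ph_ee_ne b (by omega : u ≠ v - 1), h1]; ring
      by_cases h2 : u = v
      · rw [ph_ee_eq b h2 (by omega) (by omega), ph_ee_ne b (by omega : u ≠ v + 1),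
          ph_ee_ne b (by omega : u ≠ v - 1), h2]; ring
      by_cases h3 : u = v - 1
      · rw [ph_ee_eq b h3 (by omega) (by omega), ph_ee_ne b (by omega : u ≠ v + 1),
          ph_ee_ne b (by omega : u ≠ v), h3]; ring
      · rw [h u v h0 (by omega) hv.1 hv.2 (by omega), ph_ee_ne b h1, ph_ee_ne b h2,
          ph_ee_ne b h3]; ring
    · rw [ee_out b (i := v) (by omega)]; simp
  · rcases hv with hv | hv
    · rw [ee_out b (i := v) (by omega)]; simp
    · rw [ph_out b (i := v + 1) (by omega)]; simp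
  · rcases hv with hv | hv
    · rw [ph_out b (i := v - 1) (by omega)]; simp
    · rw [ee_out b (i := v) (by omega)]; simp

lemma dg_of_ent {T : V →ₗ[F] V}
    (h : ∀ u v : ℤ, 0 ≤ u → u ≤ d → 0 ≤ v → v ≤ d → u ≠ v → ph b u (T (ee b v)) = 0) :
    Dg b T (fun v => ph b v (T (ee b v))) := by
  intro v
  by_cases hv : 0 ≤ v ∧ v ≤ d
  · apply vec_ext b
    intro u h0 h1
    simp only [map_smul, smul_eq_mul]
    by_cases h2 : u = v
    · rw [ph_ee_eq b h2 (by omega) (by omega), h2]; ring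
    · rw [h u v h0 h1 hv.1 hv.2 h2, ph_ee_ne b h2]; ring
  · rw [ee_out b (i := v) (by omega)]; simp

lemma DiagTri.unpack {A B : V →ₗ[F] V} (h : DiagTri b A B) :
    ∃ t lo di up : ℤ → F, Dg b A t ∧ Tri b B lo di up ∧ NZ d lo up ∧
      ∀ i : Fin (d + 1), t (i : ℕ) = LinearMap.toMatrix b b A i i := by
  refine ⟨_, _, _, _, dg_of_ent ?_, tri_of_ent ?_, ⟨?_, ?_⟩, fun i => ent_fin b A i i⟩
  · intro u v h0 h1 h2 h3 h4
    obtain ⟨i, rfl⟩ := exists_fin h0 h1
    obtain ⟨j, rfl⟩ := exists_fin h2 h3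
    rw [ent_fin]
    exact h.1 (by rintro rfl; exact h4 rfl)
  · intro u v h0 h1 h2 h3 h4
    obtain ⟨i, rfl⟩ := exists_fin h0 h1
    obtain ⟨j, rfl⟩ := exists_fin h2 h3
    rw [ent_fin]
    exact (h.2 i j).1 (by omega)
  · intro v h0 h1
    obtain ⟨j, rfl⟩ := exists_fin h0 h1.le
    obtain ⟨i, hi⟩ := exists_fin (d := d) (i := (j : ℕ) + 1) (by omega) (by omega)
    simp only []
    rw [hi, ent_fin]
    exact (h.2 i j).2 (by omega)
  · intro v h0 h1
    obtain ⟨j, rfl⟩ := exists_fin h0.le h1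
    obtain ⟨i, hi⟩ := exists_fin (d := d) (i := (j : ℕ) - 1) (by omega) (by omega)
    simp only []
    rw [hi, ent_fin]
    exact (h.2 i j).2 (by omega)

lemma diagTri_of {A B : V →ₗ[F] V} {t lo di up : ℤ → F} (h1 : Dg b A t)
    (h2 : Tri b B lo di up) (h3 : NZ d lo up) : DiagTri b A B := by
  refine ⟨fun i j hij => ?_, fun i j => ⟨fun hij => ?_, fun hij => ?_⟩⟩
  · show LinearMap.toMatrix b b A i j = 0
    rw [← ent_fin, h1, map_smul, ph_ee_ne b (by simpa [Fin.val_inj] using hij)]; simp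
  · rw [← ent_fin]; exact h2.far_ent (by omega)
  · have := i.2
    have := j.2
    rw [← ent_fin]
    rcases hij with hij | hij
    · rw [h2.up_ent (by omega)]; exact h3.2 _ (by omega) (by omega)
    · rw [h2.lo_ent (by omega)]; exact h3.1 _ (by omega) (by omega)

end Pool.Agent.P.MP_2f562c_al
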