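import Mathlib
import Pool.Agent.P.MP_2f562c_al.Frame

namespace Pool.Agent.P.MP_2f562c_al

open Module Polynomial

variable {F V : Type*} [Field F] [AddCommGroup V] [Module F V] {d : ℕ}
  {b b' : Basis (Fin (d + 1)) F V} {A B : V →ₗ[F] V} {t s lo di up : ℤ → F}

lemma Tri.pow_band (h : Tri b A lo di up) (k : ℕ) (u : ℤ) (hu : (k : ℤ) < u) :
    ph b u ((A ^ k) (ee b 0)) = 0 := by
  induction k generalizing u with
  | zero => simpa using ph_ee_ne b (by omega : u ≠ 0)
  | succ k ih =>
    rw [pow_succ', Module.End.mul_apply, h.dual, ih _ (by omega), ih _ (by omega), ih _ (by omega)]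
    ring

lemma Tri.pow_top (h : Tri b A lo di up) (k : ℕ) :
    ph b k ((A ^ k) (ee b 0)) = ∏ i ∈ Finset.range k, lo i := by
  induction k with
  | zero => simpa using ph_ee_self b (le_refl 0) (by omega)
  | succ k ih =>
    rw [pow_succ', Module.End.mul_apply, h.dual, h.pow_band k (u := ((k + 1 : ℕ) : ℤ)) (by omega),
      h.pow_band k (u := ((k + 1 : ℕ) : ℤ) + 1) (by omega),
      show ((k + 1 : ℕ) : ℤ) - 1 = k by omega, ih, Finset.prod_range_succ]
    ring

lemma Tri.aeval_top (h : Tri b A lo di up) (p : F[X]) (k : ℕ) (hp : p.natDegree ≤ k) :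
    ph b k (aeval A p (ee b 0)) = p.coeff k * ∏ i ∈ Finset.range k, lo i := by
  rw [aeval_eq_sum_range' (n := k + 1) (by omega), LinearMap.sum_apply, map_sum,
    Finset.sum_range_succ, Finset.sum_eq_zero]
  · simp [h.pow_top]
  · intro i hi
    have := Finset.mem_range.1 hi
    simp [h.pow_band i k (by omega)]

lemma NZ.prod_ne (hz : NZ d lo up) (k : ℕ) (hk : k ≤ d) : ∏ i ∈ Finset.range k, lo i ≠ 0 := by
  apply Finset.prod_ne_zero_iff.2
  intro i hi
  have := Finset.mem_range.1 hi
  exact hz.1 _ (by omega) (by omega)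

lemma Dg.aeval (h : Dg b A t) (p : F[X]) : Dg b (aeval A p) (fun v => p.eval (t v)) :=
  fun v => Module.End.aeval_apply_of_mem_apply_eq_smul (h v)

def Inj (d : ℕ) (t : ℤ → F) : Prop :=
  ∀ i j : ℤ, 0 ≤ i → i ≤ d → 0 ≤ j → j ≤ d → t i = t j → i = j

omit [Field F] in
lemma Inj.injOn (h : Inj d t) : Set.InjOn t (Finset.Icc (0 : ℤ) d) := by
  intro i hi j hj hij
  simp only [Finset.coe_Icc, Set.mem_Icc] at hi hj
  exact h i j hi.1 hi.2 hj.1 hj.2 hij

omit [Field F] in
lemma Inj.ne (h : Inj d t) {i j : ℤ} (h0 : 0 ≤ i) (h1 : i ≤ d) (h2 : 0 ≤ j) (h3 : j ≤ d)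
    (hij : i ≠ j) : t i ≠ t j := fun e => hij (h i j h0 h1 h2 h3 e)

lemma inj_of (hd : Dg b A t) (h : Tri b' A lo di up) (hz : NZ d lo up) : Inj d t := by
  intro i j h0 h1 h2 h3 hij
  by_contra hne
  classical
  set p : F[X] := ∏ k ∈ (Finset.Icc (0 : ℤ) d).erase j, (X - C (t k)) with hp
  have hm : p.Monic := monic_prod_of_monic _ _ fun k _ => monic_X_sub_C _
  have hdeg : p.natDegree = d := by
    rw [hp, natDegree_finsetProd_X_sub_C_eq_card, Finset.card_erase_of_mem (by simp; omega)]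
    simp
  have h0' : aeval A p = 0 := by
    apply op_ext b
    intro v hv0 hv1
    rw [hd.aeval p v]
    have : p.eval (t v) = 0 := by
      rw [hp, eval_prod]
      by_cases hv : v = j
      · exact Finset.prod_eq_zero (i := i) (by simp; omega) (by simp [hv, hij])
      · exact Finset.prod_eq_zero (i := v) (by simp; omega) (by simp)
    simp [this]
  have := h.aeval_top p d hdeg.le
  have hc : p.coeff d = 1 := by have := hm.coeff_natDegree; rwa [hdeg] at this
  rw [h0', hc] at this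
  exact hz.prod_ne d le_rfl (by simpa using this.symm)

lemma exists_interp (hi : Inj d t) (r : ℤ → F) :
    ∃ p : F[X], p.natDegree ≤ d ∧ ∀ v : ℤ, 0 ≤ v → v ≤ d → p.eval (t v) = r v := by
  classical
  refine ⟨Lagrange.interpolate (Finset.Icc (0 : ℤ) d) t r, ?_, fun v h0 h1 => ?_⟩
  · have := Lagrange.degree_interpolate_le (s := Finset.Icc (0 : ℤ) d) (v := t) r hi.injOn
    apply natDegree_le_of_degree_le
    simpa using this
  · exact Lagrange.eval_interpolate_at_node _ hi.injOn (by simp; omega)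

def AW (A B : V →ₗ[F] V) (β γ ϱ g0 g1 g2 : F) : Prop :=
  ∀ x, A (A (B x)) - β • A (B (A x)) + B (A (A x)) - γ • (A (B x) + B (A x)) - ϱ • B x =
    g2 • A (A x) + g1 • A x + g0 • x

def PP (β γ ϱ x y : F) : F := x ^ 2 - β * x * y + y ^ 2 - γ * (x + y) - ϱ

lemma AW.diag {β γ ϱ g0 g1 g2 : F} (h : AW A B β γ ϱ g0 g1 g2) (hd : Dg b A t) (u v : ℤ) :
    PP β γ ϱ (t u) (t v) * ph b u (B (ee b v)) =
      (g2 * t v ^ 2 + g1 * t v + g0) * ph b u (ee b v) := by
  have := congrArg (ph b u) (h (ee b v))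
  simp only [map_add, map_sub, map_smul, hd.dual, hd v, smul_eq_mul] at this
  unfold PP
  linear_combination this

lemma AW.offdiag {β γ ϱ g0 g1 g2 : F} (h : AW A B β γ ϱ g0 g1 g2) (hd : Dg b A t) {u v : ℤ}
    (huv : u ≠ v) (hne : ph b u (B (ee b v)) ≠ 0) : PP β γ ϱ (t u) (t v) = 0 := by
  have := h.diag hd u v
  rw [ph_ee_ne b huv, mul_zero] at this
  exact (mul_eq_zero.1 this).resolve_right hne

lemma natDeg_le_of (h : Tri b A lo di up) (hz : NZ d lo up) (p : F[X]) (hp : p.natDegree ≤ d)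
    (n : ℕ) (c : ℤ → F) (hc : ∀ k : ℤ, n < k → k ≤ d → c k ≠ 0)
    (hb : ∀ k : ℤ, n < k → c k * ph b k (aeval A p (ee b 0)) = 0) : p.natDegree ≤ n := by
  by_contra hn
  have h1 := hb p.natDegree (by omega)
  rw [h.aeval_top p _ le_rfl] at h1
  have h2 : p.coeff p.natDegree ≠ 0 := by
    apply leadingCoeff_ne_zero.2
    rintro rfl
    simp at hn
  exact mul_ne_zero (hc _ (by omega) (by omega)) (mul_ne_zero h2 (hz.prod_ne _ hp)) h1

theorem halfAW {lo' di' up' : ℤ → F} (hd3 : 3 ≤ d) (hA : Dg b A t) (hB : Tri b B lo di up)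
    (hz : NZ d lo up) (hB' : Dg b' B s) (hA' : Tri b' A lo' di' up') (hz' : NZ d lo' up') :
    ∃ β γ ϱ g0 g1 g2 : F, AW A B β γ ϱ g0 g1 g2 := by
  have ht : Inj d t := inj_of hA hA' hz'
  have hs : Inj d s := inj_of hB' hB hz
  obtain ⟨f, hfd, hf⟩ := exists_interp ht
    (fun v => ∑ j ∈ Finset.range v.toNat, t j * t (j + 1) * (t (j + 1) - t j))
  have hstep : ∀ v : ℤ, 0 ≤ v → v < d →
      f.eval (t (v + 1)) - f.eval (t v) = t v * t (v + 1) * (t (v + 1) - t v) := by
    intro v h0 h1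
    rw [hf _ (by omega) (by omega), hf _ h0 h1.le,
      show (v + 1).toNat = v.toNat + 1 by omega, Finset.sum_range_succ,
      show ((v.toNat : ℕ) : ℤ) = v by omega]
    ring
  have hop : (aeval A f) ∘ₗ B - B ∘ₗ (aeval A f) = A ∘ₗ A ∘ₗ B ∘ₗ A - A ∘ₗ B ∘ₗ A ∘ₗ A := by
    apply ent_ext b
    intro u v h0 h1 h2 h3
    simp only [LinearMap.sub_apply, LinearMap.comp_apply, map_sub, (hA.aeval f).dual,
      hA.aeval f v, hA.dual, hA v, map_smul, smul_eq_mul]
    by_cases e1 : u = v + 1
    · subst e1; linear_combination (ph b (v + 1) (B (ee b v))) * hstep v h2 (by omega)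
    by_cases e2 : u = v
    · subst e2; ring
    by_cases e3 : v = u + 1
    · subst e3; linear_combination (-ph b u (B (ee b (u + 1)))) * hstep u h0 (by omega)
    · rw [hB.far_ent (by omega)]; ring
  have hent : ∀ k : ℤ, 3 ≤ k → (s 0 - s k) * ph b' k (aeval A f (ee b' 0)) =
      lo' (k - 1) * lo' (k - 2) * lo' 0 * (s 1 - s 2) * ph b' k (ee b' 3) := by
    intro k hk
    have := congrArg (ph b' k) (LinearMap.congr_fun hop (ee b' 0))
    simp only [LinearMap.sub_apply, LinearMap.comp_apply, map_sub, hB'.dual, hB' 0, map_smul,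
      smul_eq_mul, hA'.dual] at this
    by_cases e : k = 3
    · subst e
      have e0 := ph_ee_self b' (le_refl 0) (by omega)
      have e3 := ph_ee_self b' (u := 3) (by omega) (by omega)
      norm_num at this ⊢
      simp (disch := omega) only [ph_ee_ne, e0] at this
      rw [e3]
      linear_combination this
    · simp (disch := omega) only [ph_ee_ne] at this ⊢
      linear_combination this
  have hf3 : f.natDegree ≤ 3 := by
    apply natDeg_le_of hA' hz' f hfd 3 (fun k => s 0 - s k)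
    · intro k h0 h1
      exact sub_ne_zero.2 (hs.ne le_rfl (by omega) (by omega) h1 (by omega))
    · intro k hk
      rw [hent k (by omega), ph_ee_ne b' (by omega)]; ring
  have hc3 : f.coeff 3 ≠ 0 := by
    intro h0
    have := hent 3 le_rfl
    have h3 := hA'.aeval_top f 3 hf3
    rw [h0] at h3
    rw [ph_ee_self b' (by omega) (by omega), show (3 : ℤ) = ((3 : ℕ) : ℤ) by rfl, h3] at this
    have a1 := hz'.1 0 (by omega) (by omega)
    have a2 := hz'.1 2 (by omega) (by omega)
    have a3 := hz'.1 1 (by omega) (by omega)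
    have a4 := sub_ne_zero.2 (hs.ne (i := 1) (j := 2) (by omega) (by omega) (by omega) (by omega)
      (by omega))
    simp [a1, a2, a3, a4] at this
  have hev : ∀ x, f.eval x =
      f.coeff 0 + f.coeff 1 * x + f.coeff 2 * x ^ 2 + f.coeff 3 * x ^ 3 := by
    intro x
    rw [eval_eq_sum_range' (n := 4) (by omega)]
    simp [Finset.sum_range_succ]
  set β := 1 / f.coeff 3 - 1 with hβ
  set γ := - f.coeff 2 / f.coeff 3 with hγ
  set ϱ := - f.coeff 1 / f.coeff 3 with hϱ
  have hP : ∀ v : ℤ, 0 ≤ v → v < d → PP β γ ϱ (t v) (t (v + 1)) = 0 := by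
    intro v h0 h1
    have h2 := hstep v h0 h1
    rw [hev, hev] at h2
    have h3 := sub_ne_zero.2 (ht.ne (i := v + 1) (j := v) (by omega) (by omega) (by omega)
      (by omega) (by omega))
    have e1 : f.coeff 3 * β = 1 - f.coeff 3 := by rw [hβ]; field_simp
    have e2 : f.coeff 3 * γ = - f.coeff 2 := by rw [hγ]; field_simp
    have e3 : f.coeff 3 * ϱ = - f.coeff 1 := by rw [hϱ]; field_simp
    apply mul_left_cancel₀ (mul_ne_zero h3 hc3)
    unfold PP
    linear_combination h2 - (t (v + 1) - t v) * (t v * t (v + 1) * e1 + (t v + t (v + 1)) * e2 + e3)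
  set W : V →ₗ[F] V := A ∘ₗ A ∘ₗ B - β • A ∘ₗ B ∘ₗ A + B ∘ₗ A ∘ₗ A - γ • (A ∘ₗ B + B ∘ₗ A) - ϱ • B
    with hW
  have hWe : ∀ u v, ph b u (W (ee b v)) = PP β γ ϱ (t u) (t v) * ph b u (B (ee b v)) := by
    intro u v
    simp only [hW, LinearMap.sub_apply, LinearMap.add_apply, LinearMap.smul_apply,
      LinearMap.comp_apply, map_sub, map_add, hA.dual, hA v, map_smul, smul_eq_mul, PP]
    ring
  obtain ⟨g, hgd, hg⟩ := exists_interp ht (fun v => ph b v (W (ee b v)))
  have hWg : W = aeval A g := by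
    apply ent_ext b
    intro u v h0 h1 h2 h3
    rw [hA.aeval g v, map_smul]
    simp only []
    rw [hg v h2 h3]
    by_cases e2 : u = v
    · subst e2; rw [ph_ee_self b h0 h1]; simp
    rw [ph_ee_ne b e2, hWe]
    by_cases e1 : u = v + 1
    · subst e1
      have := hP v h2 (by omega)
      unfold PP at this ⊢
      linear_combination (ph b (v + 1) (B (ee b v))) * this
    by_cases e3 : v = u + 1
    · subst e3; rw [hP u h0 (by omega)]; simp
    · rw [hB.far_ent (by omega)]; simp
  have hg2 : g.natDegree ≤ 2 := by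
    apply natDeg_le_of hA' hz' g hgd 2 (fun _ => 1) (fun _ _ _ => one_ne_zero)
    intro k hk
    rw [← hWg]
    simp only [hW, LinearMap.sub_apply, LinearMap.add_apply, LinearMap.smul_apply,
      LinearMap.comp_apply, map_sub, map_add, hA'.dual, hB'.dual, map_smul, smul_eq_mul]
    simp (disch := omega) only [ph_ee_ne]
    ring
  refine ⟨β, γ, ϱ, g.coeff 0, g.coeff 1, g.coeff 2, fun x => ?_⟩
  have := LinearMap.congr_fun hWg x
  rw [aeval_eq_sum_range' (n := 3) (by omega)] at this
  simp only [hW, LinearMap.sub_apply, LinearMap.add_apply, LinearMap.smul_apply,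
      LinearMap.comp_apply, Finset.sum_range_succ, Finset.range_zero, Finset.sum_empty,
      pow_succ, pow_zero, Module.End.mul_apply, Module.End.one_apply, zero_add] at this
  rw [this]
  abel

end Pool.Agent.P.MP_2f562c_al
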