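import Mathlib

namespace Pool.Agent.P.MP_2f562c_al

open Polynomial

variable {F : Type*} [Field F]

def UU (β : F) : ℕ → F
  | 0 => 0
  | 1 => 1
  | k + 2 => β * UU β (k + 1) - UU β k

def NR (β : F) : Prop := β ≠ 2 ∧ β ≠ -2 ∧ ∀ k, 0 < k → UU β k ≠ 0

lemma UU_closed {L : Type*} [Field L] (φ : F →+* L) {β : F} {q : L} (hq : q ≠ 0)
    (h : q + q⁻¹ = φ β) (k : ℕ) : (q - q⁻¹) * φ (UU β k) = q ^ k - q⁻¹ ^ k := by
  have hqq : q * q⁻¹ = 1 := mul_inv_cancel₀ hq
  induction k using Nat.twoStepInduction with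
  | zero => simp [UU]
  | one => simp [UU]
  | more k h0 h1 =>
    simp only [UU, map_sub, map_mul, ← h]
    linear_combination (q + q⁻¹) * h1 - h0 + (q ^ k - q⁻¹ ^ k) * hqq

lemma NR.of_q {L : Type*} [Field L] (φ : F →+* L) {β : F} {q : L} (hq : q ≠ 0)
    (h : q + q⁻¹ = φ β) (hn : ∀ n : ℕ, 0 < n → q ^ n ≠ 1) : NR β := by
  have hqq : q * q⁻¹ = 1 := mul_inv_cancel₀ hq
  refine ⟨?_, ?_, fun k hk h0 => ?_⟩
  · rintro rfl
    rw [map_ofNat] at h
    apply hn 1 one_pos
    have : (q - 1) ^ 2 = 0 := by linear_combination q * h - hqq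
    rw [pow_one]; exact sub_eq_zero.1 (pow_eq_zero_iff (two_ne_zero) |>.1 this)
  · rintro rfl
    rw [map_neg, map_ofNat] at h
    apply hn 2 two_pos
    have : (q + 1) ^ 2 = 0 := by linear_combination q * h - hqq
    have h2 : q + 1 = 0 := pow_eq_zero_iff (two_ne_zero) |>.1 this
    linear_combination (q - 1) * h2
  · have := UU_closed φ hq h k
    rw [h0, map_zero, mul_zero] at this
    apply hn (k + k) (by omega)
    have h2 : q ^ k * q⁻¹ ^ k = 1 := by rw [← mul_pow, hqq, one_pow]
    rw [pow_add]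
    linear_combination h2 - q ^ k * this

lemma NR.pow_ne {β ρ : F} (h : NR β) (hρ : ρ ≠ 0) (hb : ρ + ρ⁻¹ = β) (k : ℕ) (hk : 0 < k) :
    ρ ^ k ≠ 1 := by
  intro h1
  have hqq : ρ * ρ⁻¹ = 1 := mul_inv_cancel₀ hρ
  have := UU_closed (RingHom.id F) hρ hb k
  rw [inv_pow, h1, inv_one, sub_self] at this
  rcases mul_eq_zero.1 this with h2 | h2
  · have h3 : (ρ - 1) * (ρ + 1) = 0 := by linear_combination ρ * h2 + hqq
    rcases mul_eq_zero.1 h3 with h4 | h4
    · apply h.1
      have : ρ = 1 := by linear_combination h4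
      rw [← hb, this]; norm_num
    · apply h.2.1
      have : ρ = -1 := by linear_combination h4
      rw [← hb, this]; norm_num
  · exact h.2.2 k hk h2

lemma NR.ne_zero {β : F} (h : NR β) : β ≠ 0 := by
  have := h.2.2 2 two_pos
  simpa [UU] using this

lemma one_zero {β : F} (hβ : NR β) (w : ℤ → F) (L : ℤ)
    (hr : ∀ i, 0 ≤ i → i + 2 ≤ L → w i - β * w (i + 1) + w (i + 2) = 0)
    (k : ℤ) (hk0 : 0 ≤ k) (hk1 : k ≤ L) (hk : w k ≠ 0) :
    ∃ r0 : ℤ, ∀ r, 0 ≤ r → r ≤ L → r ≠ r0 → w r ≠ 0 := by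
  have two : ∀ i j, 0 ≤ i → i < j → j ≤ L → w i = 0 → w j = 0 → False := by
    intro i j h0 hij h1 hi hj
    have hU : ∀ n : ℕ, i + n ≤ L → w (i + n) = UU β n * w (i + 1) := by
      intro n
      induction n using Nat.twoStepInduction with
      | zero => intro _; simp [UU, hi]
      | one => intro _; simp [UU]
      | more n e0 e1 =>
        intro hn
        have a0 := e0 (by omega)
        have a1 := e1 (by omega)
        have a2 := hr (i + n) (by omega) (by omega)
        simp only [UU]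
        push_cast at a1 ⊢
        rw [← add_assoc] at a1 ⊢
        linear_combination a2 - a0 + β * a1
    have h2 := hU (j - i).toNat (by omega)
    rw [show i + ((j - i).toNat : ℕ) = j by omega, hj] at h2
    have h3 : w (i + 1) = 0 :=
      (mul_eq_zero.1 h2.symm).resolve_left (hβ.2.2 _ (by omega))
    have hD : ∀ n : ℕ, 0 ≤ i + 1 - n → w (i + 1 - n) = 0 := by
      intro n
      induction n using Nat.twoStepInduction with
      | zero => intro _; simpa using h3
      | one => intro _; simpa using hi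
      | more n e0 e1 =>
        intro hn
        have a0 := e0 (by omega)
        have a1 := e1 (by omega)
        have a2 := hr (i + 1 - (n + 2 : ℕ)) (by omega) (by omega)
        rw [show i + 1 - (n + 2 : ℕ) + 1 = i + 1 - (n + 1 : ℕ) by push_cast; ring,
          show i + 1 - (n + 2 : ℕ) + 2 = i + 1 - n by push_cast; ring, a0, a1] at a2
        linear_combination a2
    rcases le_total k i with hki | hki
    · have := hD (i + 1 - k).toNat (by omega)
      rw [show i + 1 - ((i + 1 - k).toNat : ℕ) = k by omega] at this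
      exact hk this
    · have := hU (k - i).toNat (by omega)
      rw [show i + ((k - i).toNat : ℕ) = k by omega, h3, mul_zero] at this
      exact hk this
  by_cases hz : ∃ i, 0 ≤ i ∧ i ≤ L ∧ w i = 0
  · obtain ⟨i, h0, h1, hi⟩ := hz
    refine ⟨i, fun r r0 r1 hr hw => ?_⟩
    rcases lt_or_gt_of_ne hr with h | h
    · exact two r i r0 h h1 hw hi
    · exact two i r h0 h r1 hi hw
  · exact ⟨0, fun r r0 r1 _ hw => hz ⟨r, r0, r1, hw⟩⟩

lemma pzn (n : ℕ) (S : Finset ℤ) (hS : n ≤ S.card) (t : ℤ → F) (ht : Set.InjOn t S)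
    (f : ℕ → F) (h : ∀ i ∈ S, ∑ k ∈ Finset.range n, f k * t i ^ k = 0) (k : ℕ) (hk : k < n) :
    f k = 0 := by
  classical
  set p : F[X] := ∑ k ∈ Finset.range n, monomial k (f k) with hp
  have hc : p.coeff k = f k := by
    rw [hp, finsetSum_coeff, Finset.sum_eq_single k]
    · simp
    · intro j _ hj; simp [coeff_monomial, hj]
    · intro hj; exact absurd (Finset.mem_range.2 hk) hj
  have hd : p.natDegree < n := by
    have : p.natDegree ≤ n - 1 := by
      apply natDegree_sum_le_of_forall_le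
      intro j hj
      have := Finset.mem_range.1 hj
      exact (natDegree_monomial_le _).trans (by omega)
    omega
  have : p = 0 := by
    apply eq_zero_of_natDegree_lt_card_of_eval_eq_zero' p (S.image t)
    · intro x hx
      obtain ⟨i, hi, rfl⟩ := Finset.mem_image.1 hx
      rw [hp, eval_finsetSum]
      simpa [eval_monomial] using h i hi
    · rw [Finset.card_image_of_injOn ht]; omega
  rw [← hc, this, coeff_zero]

lemma pz9 (S : Finset ℤ) (hS : 9 ≤ S.card) (t : ℤ → F) (ht : Set.InjOn t S)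
    (f0 f1 f2 f3 f4 f5 f6 f7 f8 : F)
    (h : ∀ i ∈ S, f0 + f1 * t i + f2 * t i ^ 2 + f3 * t i ^ 3 + f4 * t i ^ 4 + f5 * t i ^ 5
      + f6 * t i ^ 6 + f7 * t i ^ 7 + f8 * t i ^ 8 = 0) :
    f0 = 0 ∧ f1 = 0 ∧ f2 = 0 ∧ f3 = 0 ∧ f4 = 0 ∧ f5 = 0 ∧ f6 = 0 ∧ f7 = 0 ∧ f8 = 0 := by
  have := pzn 9 S hS t ht (fun k => [f0, f1, f2, f3, f4, f5, f6, f7, f8].getD k 0) (by
    intro i hi
    simp only [Finset.sum_range_succ, Finset.range_zero, Finset.sum_empty]
    simp only [List.getD_cons_zero, List.getD_cons_succ]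
    linear_combination h i hi)
  exact ⟨this 0 (by omega), this 1 (by omega), this 2 (by omega), this 3 (by omega),
    this 4 (by omega), this 5 (by omega), this 6 (by omega), this 7 (by omega), this 8 (by omega)⟩

lemma pz5 (S : Finset ℤ) (hS : 5 ≤ S.card) (t : ℤ → F) (ht : Set.InjOn t S)
    (f0 f1 f2 f3 f4 : F)
    (h : ∀ i ∈ S, f0 + f1 * t i + f2 * t i ^ 2 + f3 * t i ^ 3 + f4 * t i ^ 4 = 0) :
    f0 = 0 ∧ f1 = 0 ∧ f2 = 0 ∧ f3 = 0 ∧ f4 = 0 := by
  have := pzn 5 S hS t ht (fun k => [f0, f1, f2, f3, f4].getD k 0) (by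
    intro i hi
    simp only [Finset.sum_range_succ, Finset.range_zero, Finset.sum_empty]
    simp only [List.getD_cons_zero, List.getD_cons_succ]
    linear_combination h i hi)
  exact ⟨this 0 (by omega), this 1 (by omega), this 2 (by omega), this 3 (by omega),
    this 4 (by omega)⟩

/-- isolated exponential term -/
lemma iso {ι : Type*} [DecidableEq ι] (s : Finset ι) (lam : ι → F) (l0 : F) (h0 : l0 ≠ 0)
    (hne : ∀ k ∈ s, lam k ≠ l0) (a : ι → F) (a0 : F) (i0 : ℕ)
    (h : ∀ i : ℕ, i0 ≤ i → i ≤ i0 + s.card → a0 * l0 ^ i + ∑ k ∈ s, a k * lam k ^ i = 0) :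
    a0 = 0 := by
  induction s using Finset.induction_on generalizing a a0 with
  | empty =>
    have := h i0 le_rfl (by simp)
    simpa [h0] using this
  | insert j s hj ih =>
    have := ih (fun k hk => hne k (Finset.mem_insert_of_mem hk))
      (fun k => a k * (lam k - lam j)) (a0 * (l0 - lam j)) (by
        intro i hi0 hi1
        rw [Finset.card_insert_of_notMem hj] at h
        have e0 := h i hi0 (by omega)
        have e1 := h (i + 1) (by omega) (by omega)
        rw [Finset.sum_insert hj] at e0 e1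
        have : ∑ k ∈ s, a k * (lam k - lam j) * lam k ^ i =
            ∑ k ∈ s, a k * lam k ^ (i + 1) - lam j * ∑ k ∈ s, a k * lam k ^ i := by
          rw [Finset.mul_sum, ← Finset.sum_sub_distrib]
          exact Finset.sum_congr rfl fun k _ => by ring
        rw [this]
        linear_combination e1 - lam j * e0)
    exact (mul_eq_zero.1 this).resolve_right
      (sub_ne_zero.2 (hne j (Finset.mem_insert_self _ _)).symm)

end Pool.Agent.P.MP_2f562c_al
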