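import Mathlib
import Pool.Agent.P.MP_2f562c_al.AW

namespace Pool.Agent.P.MP_2f562c_al

open Module Polynomial

variable {F V : Type*} [Field F] [AddCommGroup V] [Module F V] {d : ℕ}
  {b b' : Basis (Fin (d + 1)) F V} {A B : V →ₗ[F] V} {t s lo di up : ℤ → F}

def St (lo di up : ℤ → F) (β γ ϱ : F) (Y : ℤ → ℤ → F) (u v : ℤ) : F :=
  lo (u - 1) * lo (u - 2) * Y (u - 2) v + lo (u - 1) * (di (u - 1) + di u) * Y (u - 1) v
    + (lo (u - 1) * up u + di u ^ 2 + up (u + 1) * lo u) * Y u v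
    + up (u + 1) * (di u + di (u + 1)) * Y (u + 1) v + up (u + 1) * up (u + 2) * Y (u + 2) v
  - β * (lo (u - 1) * (lo v * Y (u - 1) (v + 1) + di v * Y (u - 1) v + up v * Y (u - 1) (v - 1))
    + di u * (lo v * Y u (v + 1) + di v * Y u v + up v * Y u (v - 1))
    + up (u + 1) * (lo v * Y (u + 1) (v + 1) + di v * Y (u + 1) v + up v * Y (u + 1) (v - 1)))
  + (lo v * lo (v + 1) * Y u (v + 2) + lo v * (di v + di (v + 1)) * Y u (v + 1)
    + (lo v * up (v + 1) + di v ^ 2 + up v * lo (v - 1)) * Y u v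
    + up v * (di v + di (v - 1)) * Y u (v - 1) + up v * up (v - 1) * Y u (v - 2))
  - γ * (lo (u - 1) * Y (u - 1) v + di u * Y u v + up (u + 1) * Y (u + 1) v
    + lo v * Y u (v + 1) + di v * Y u v + up v * Y u (v - 1))
  - ϱ * Y u v

def Rh (lo di up : ℤ → F) (g0 g1 g2 : F) (Y : ℤ → ℤ → F) (u v : ℤ) : F :=
  g2 * (lo v * lo (v + 1) * Y u (v + 2) + lo v * (di v + di (v + 1)) * Y u (v + 1)
    + (lo v * up (v + 1) + di v ^ 2 + up v * lo (v - 1)) * Y u v
    + up v * (di v + di (v - 1)) * Y u (v - 1) + up v * up (v - 1) * Y u (v - 2))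
  + g1 * (lo v * Y u (v + 1) + di v * Y u v + up v * Y u (v - 1)) + g0 * Y u v

lemma i11 (z : ℤ) : z + 1 + 1 = z + 2 := by ring
lemma i12 (z : ℤ) : z - 1 - 1 = z - 2 := by ring

lemma St_eq (hA : Tri b A lo di up) (β γ ϱ : F) (u v : ℤ) :
    ph b u (A (A (B (ee b v))) - β • A (B (A (ee b v))) + B (A (A (ee b v)))
      - γ • (A (B (ee b v)) + B (A (ee b v))) - ϱ • B (ee b v)) =
    St lo di up β γ ϱ (fun u v => ph b u (B (ee b v))) u v := by
  simp only [hA.eq, map_add, map_sub, map_smul, smul_eq_mul, hA.dual, St, i11, i12,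
    add_sub_cancel_right, sub_add_cancel]
  ring

lemma Rh_eq (hA : Tri b A lo di up) (g0 g1 g2 : F) (u v : ℤ) :
    ph b u (g2 • A (A (ee b v)) + g1 • A (ee b v) + g0 • ee b v) =
    Rh lo di up g0 g1 g2 (fun u v => ph b u (ee b v)) u v := by
  simp only [hA.eq, map_add, map_smul, smul_eq_mul, Rh, i11, i12,
    add_sub_cancel_right, sub_add_cancel]
  ring

variable {β γ ϱ g0 g1 g2 : F}

lemma AW.stencil (h : AW A B β γ ϱ g0 g1 g2) (hA : Tri b A lo di up) (u v : ℤ) :
    St lo di up β γ ϱ (fun u v => ph b u (B (ee b v))) u v =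
    Rh lo di up g0 g1 g2 (fun u v => ph b u (ee b v)) u v := by
  rw [← St_eq hA, ← Rh_eq hA, h]

lemma AW.of_ent (hA : Tri b A lo di up) (h : ∀ u v : ℤ, 0 ≤ u → u ≤ d → 0 ≤ v → v ≤ d →
    St lo di up β γ ϱ (fun u v => ph b u (B (ee b v))) u v =
    Rh lo di up g0 g1 g2 (fun u v => ph b u (ee b v)) u v) : AW A B β γ ϱ g0 g1 g2 := by
  have : A ∘ₗ A ∘ₗ B - β • A ∘ₗ B ∘ₗ A + B ∘ₗ A ∘ₗ A - γ • (A ∘ₗ B + B ∘ₗ A) - ϱ • B =
      g2 • A ∘ₗ A + g1 • A + g0 • LinearMap.id := by
    apply ent_ext b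
    intro u v h0 h1 h2 h3
    have := h u v h0 h1 h2 h3
    rw [← St_eq hA, ← Rh_eq hA] at this
    simpa using this
  intro x
  simpa using LinearMap.congr_fun this x

lemma AW.far (h : AW A B β γ ϱ g0 g1 g2) (hA : Tri b A lo di up) {u v : ℤ}
    (huv : v + 2 < u ∨ u + 2 < v) :
    St lo di up β γ ϱ (fun u v => ph b u (B (ee b v))) u v = 0 := by
  rw [h.stencil hA, Rh]
  simp (disch := omega) only [ph_ee_ne]
  ring

lemma Dg.ent_ne (h : Dg b B s) {u v : ℤ} (huv : u ≠ v) : ph b u (B (ee b v)) = 0 := by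
  rw [h.dual, ph_ee_ne b huv, mul_zero]

lemma Dg.ent_eq (h : Dg b B s) {u v : ℤ} (huv : u = v) (h0 : 0 ≤ u) (h1 : u ≤ d) :
    ph b u (B (ee b v)) = s v := by
  rw [h.dual, ph_ee_eq b huv h0 h1, mul_one, huv]

lemma AW.deg2 (h : AW A B β γ ϱ g0 g1 g2) (hA : Tri b A lo di up) (hz : NZ d lo up)
    (hB : Dg b B s) (v : ℤ) (h0 : 0 ≤ v) (h1 : v + 2 ≤ d) :
    s v - β * s (v + 1) + s (v + 2) = g2 := by
  have := h.stencil hA (v + 2) v
  simp only [St, Rh] at this
  simp (disch := omega) only [ph_ee_ne, ph_ee_eq, hB.ent_ne, hB.ent_eq] at this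
  rw [show v + 2 - 1 = v + 1 by ring, show v + 2 - 2 = v by ring] at this
  apply mul_left_cancel₀ (mul_ne_zero (hz.1 v h0 (by omega)) (hz.1 (v + 1) (by omega) (by omega)))
  linear_combination this

lemma AW.deg1 (h : AW A B β γ ϱ g0 g1 g2) (hA : Tri b A lo di up) (hz : NZ d lo up)
    (hB : Dg b B s) (v : ℤ) (h0 : 0 ≤ v) (h1 : v + 1 ≤ d) :
    (s v + s (v + 1)) * (di v + di (v + 1)) - β * (s v * di v + s (v + 1) * di (v + 1))
      - γ * (s v + s (v + 1)) = g2 * (di v + di (v + 1)) + g1 := by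
  have := h.stencil hA (v + 1) v
  simp only [St, Rh] at this
  simp (disch := omega) only [ph_ee_ne, ph_ee_eq, hB.ent_ne, hB.ent_eq] at this
  rw [show v + 1 - 1 = v by ring] at this
  apply mul_left_cancel₀ (hz.1 v h0 (by omega))
  linear_combination this

lemma AW.deg0 (h : AW A B β γ ϱ g0 g1 g2) (hA : Tri b A lo di up)
    (hB : Dg b B s) (v : ℤ) (h0 : 0 ≤ v) (h1 : v ≤ d) :
    2 * s v * (lo (v - 1) * up v + di v ^ 2 + lo v * up (v + 1))
      - β * (lo (v - 1) * up v * s (v - 1) + di v ^ 2 * s v + lo v * up (v + 1) * s (v + 1))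
      - 2 * γ * di v * s v - ϱ * s v =
      g2 * (lo (v - 1) * up v + di v ^ 2 + lo v * up (v + 1)) + g1 * di v + g0 := by
  have := h.stencil hA v v
  simp only [St, Rh] at this
  have e1 : lo (v - 1) * ph b (v - 1) (B (ee b (v - 1))) = lo (v - 1) * s (v - 1) := by
    by_cases hv : v = 0
    · rw [hA.lo0 _ (by omega)]; ring
    · rw [hB.ent_eq rfl (by omega) (by omega)]
  have e2 : lo v * ph b (v + 1) (B (ee b (v + 1))) = lo v * s (v + 1) := by
    by_cases hv : v = d
    · rw [hA.lo0 _ (by omega)]; ring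
    · rw [hB.ent_eq rfl (by omega) (by omega)]
  simp (disch := omega) only [ph_ee_ne, ph_ee_eq, hB.ent_ne] at this
  rw [hB.ent_eq rfl h0 h1] at this
  linear_combination this + β * up v * e1 + β * up (v + 1) * e2

/-- recurrence of the eigenvalues in an order making the partner irreducible tridiagonal -/
lemma AW.adj (h : AW A B β γ ϱ g0 g1 g2) (hA : Dg b A t) (hB : Tri b B lo di up)
    (hz : NZ d lo up) (v : ℤ) (h0 : 0 ≤ v) (h1 : v + 1 ≤ d) : PP β γ ϱ (t v) (t (v + 1)) = 0 := by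
  apply h.offdiag hA (by omega)
  rw [hB.up_ent (by ring)]
  exact hz.2 _ (by omega) h1

lemma PP_rec {x y z : F} (h1 : PP β γ ϱ x y = 0) (h2 : PP β γ ϱ y z = 0) (hxz : x ≠ z) :
    x - β * y + z = γ := by
  unfold PP at h1 h2
  apply mul_left_cancel₀ (sub_ne_zero.2 hxz)
  linear_combination h1 - h2

lemma AW.recur (h : AW A B β γ ϱ g0 g1 g2) (hA : Dg b A t) (hB : Tri b B lo di up)
    (hz : NZ d lo up) (hi : Inj d t) (v : ℤ) (h0 : 0 ≤ v) (h1 : v + 2 ≤ d) :
    t v - β * t (v + 1) + t (v + 2) = γ := by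
  apply PP_rec (h.adj hA hB hz v h0 (by omega))
  · have := h.adj hA hB hz (v + 1) (by omega) (by omega)
    rwa [i11] at this
  · exact hi.ne h0 (by omega) (by omega) h1 (by omega)

/-- irreducibility -/
lemma irred (hB : Dg b' B s) (hs : Inj d s) (hA : Tri b' A lo di up) (hz : NZ d lo up)
    (W : Submodule F V) (hWA : ∀ x ∈ W, A x ∈ W) (hWB : ∀ x ∈ W, B x ∈ W)
    (x : V) (hx : x ∈ W) (hx0 : x ≠ 0) : W = ⊤ := by
  have hae : ∀ p : F[X], ∀ y ∈ W, aeval B p y ∈ W := by
    intro p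
    induction p using Polynomial.induction_on' with
    | add p q hp hq => intro y hy; simpa using W.add_mem (hp y hy) (hq y hy)
    | monomial n a =>
      intro y hy
      rw [aeval_monomial, Module.End.mul_apply, Module.algebraMap_end_apply]
      apply W.smul_mem
      induction n with
      | zero => simpa using hy
      | succ n ih => rw [pow_succ', Module.End.mul_apply]; exact hWB _ ih
  have key : ∀ y ∈ W, ∀ j : ℤ, ph b' j y ≠ 0 → ee b' j ∈ W := by
    intro y hy j hj
    have hjr : 0 ≤ j ∧ j ≤ d := by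
      by_contra hc
      rw [ph_out b' (by omega)] at hj
      exact hj rfl
    obtain ⟨p, -, hp⟩ := exists_interp hs (fun v => if v = j then (ph b' j y)⁻¹ else 0)
    have : aeval B p y = ee b' j := by
      apply vec_ext b'
      intro u h0 h1
      rw [(hB.aeval p).dual, hp u h0 h1]
      by_cases e : u = j
      · rw [if_pos e, ph_ee_eq b' e h0 h1, e, inv_mul_cancel₀ hj]
      · rw [if_neg e, ph_ee_ne b' e, zero_mul]
    rw [← this]
    exact hae p y hy
  obtain ⟨j, hj0, hj1, hj⟩ : ∃ j : ℤ, 0 ≤ j ∧ j ≤ d ∧ ph b' j x ≠ 0 := by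
    by_contra hc
    push Not at hc
    exact hx0 (vec_ext b' fun u h0 h1 => by rw [hc u h0 h1, map_zero])
  have hj' := key x hx j hj
  have hup : ∀ n : ℕ, j + n ≤ d → ee b' (j + n) ∈ W := by
    intro n
    induction n with
    | zero => intro _; simpa using hj'
    | succ n ih =>
      intro hn
      apply key _ (hWA _ (ih (by omega)))
      rw [hA.lo_ent (by push_cast; ring)]
      exact hz.1 _ (by omega) (by omega)
  have hdn : ∀ n : ℕ, 0 ≤ j - n → ee b' (j - n) ∈ W := by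
    intro n
    induction n with
    | zero => intro _; simpa using hj'
    | succ n ih =>
      intro hn
      apply key _ (hWA _ (ih (by omega)))
      rw [hA.up_ent (by push_cast; ring)]
      exact hz.2 _ (by omega) (by omega)
  have hall : ∀ i : Fin (d + 1), b' i ∈ W := by
    intro i
    have := i.2
    rw [← ee_fin]
    rcases le_total j (i : ℕ) with hij | hij
    · have := hup ((i : ℕ) - j).toNat (by omega)
      rwa [show j + (((i : ℕ) - j).toNat : ℕ) = (i : ℕ) by omega] at this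
    · have := hdn (j - (i : ℕ)).toNat (by omega)
      rwa [show j - ((j - (i : ℕ)).toNat : ℕ) = (i : ℕ) by omega] at this
  rw [eq_top_iff, ← b'.span_eq, Submodule.span_le]
  rintro _ ⟨i, rfl⟩
  exact hall i

lemma ph_expand (T : V →ₗ[F] V) (u : ℤ) (x : V) :
    ph b u (T x) = ∑ v ∈ Finset.Icc (0 : ℤ) d, ph b u (T (ee b v)) * ph b v x := by
  have : (ph b u) ∘ₗ T = ∑ v ∈ Finset.Icc (0 : ℤ) d, ph b u (T (ee b v)) • ph b v := by
    apply op_ext b
    intro w h0 h1
    rw [LinearMap.sum_apply, Finset.sum_eq_single w]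
    · simp [ph_ee_self b h0 h1]
    · intro v _ hv
      simp [ph_ee_ne b hv]
    · intro hw
      exact absurd (Finset.mem_Icc.2 ⟨h0, h1⟩) hw
  simpa [LinearMap.sum_apply] using LinearMap.congr_fun this x

/-- In an eigenbasis `b` of `A`, a set of indices closed under the support of `B` is everything. -/
lemma cut (hB : Dg b' B s) (hs : Inj d s) (hA : Tri b' A lo di up) (hz : NZ d lo up)
    (hA' : Dg b A t) (S : ℤ → Prop)
    (hS : ∀ u v : ℤ, 0 ≤ u → u ≤ d → 0 ≤ v → v ≤ d → S v → ph b u (B (ee b v)) ≠ 0 → S u)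
    (i j : ℤ) (hi0 : 0 ≤ i) (hi1 : i ≤ d) (hj0 : 0 ≤ j) (hj1 : j ≤ d) (hi : S i) : S j := by
  let W : Submodule F V := ⨅ u : {u : ℤ // ¬ S u}, LinearMap.ker (ph b u.1)
  have hW : ∀ x, x ∈ W ↔ ∀ u, ¬ S u → ph b u x = 0 := by
    intro x
    simp [W, Submodule.mem_iInf]
  have htop := irred hB hs hA hz W (fun x hx => ?_) (fun x hx => ?_) (ee b i) ?_ ?_
  · by_contra hj
    have := (hW (ee b j)).1 (htop ▸ Submodule.mem_top) j hj
    rw [ph_ee_self b hj0 hj1] at this
    exact one_ne_zero this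
  · rw [hW] at hx ⊢
    intro u hu
    rw [hA'.dual, hx u hu, mul_zero]
  · rw [hW] at hx ⊢
    intro u hu
    by_cases hur : 0 ≤ u ∧ u ≤ d
    · rw [ph_expand]
      apply Finset.sum_eq_zero
      intro v hv
      rw [Finset.mem_Icc] at hv
      by_cases hSv : S v
      · have : ph b u (B (ee b v)) = 0 := by
          by_contra hc
          exact hu (hS u v hur.1 hur.2 hv.1 hv.2 hSv hc)
        rw [this, zero_mul]
      · rw [hx v hSv, mul_zero]
    · rw [ph_out b (by omega)]; rfl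
  · rw [hW]
    intro u hu
    exact ph_ee_ne b (by rintro rfl; exact hu hi)
  · intro h0
    have := ph_ee_self b hi0 hi1
    rw [h0, map_zero] at this
    exact zero_ne_one this

/-- a tridiagonal partner is automatically irreducible -/
lemma nz_of_cut {r x c : ℤ → F} (hB : Dg b' B s) (hs : Inj d s) (hA : Tri b' A lo di up)
    (hz : NZ d lo up) (hA' : Dg b A t) (hB' : Tri b B r x c) : NZ d r c := by
  constructor
  · intro v h0 h1 hv
    have := cut hB hs hA hz hA' (fun u => u ≤ v) (fun u w _ _ _ _ hw hne => ?_) v (v + 1)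
      h0 h1.le (by omega) (by omega) le_rfl
    · omega
    · by_contra hc
      by_cases e : u = w + 1
      · rw [hB'.lo_ent e, show w = v by omega] at hne
        exact hne hv
      · exact hne (hB'.far_ent (by omega))
  · intro v h0 h1 hv
    have := cut hB hs hA hz hA' (fun u => v ≤ u) (fun u w _ _ _ _ hw hne => ?_) v (v - 1)
      h0.le h1 (by omega) (by omega) le_rfl
    · omega
    · by_contra hc
      by_cases e : u = w - 1
      · rw [hB'.up_ent e, show w = v by omega] at hne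
        exact hne hv
      · exact hne (hB'.far_ent (by omega))

end Pool.Agent.P.MP_2f562c_al
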