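import Mathlib
import Pool.Agent.P.MP_2f562c_al.Seq
import Pool.Agent.P.MP_2f562c_al.Sten

namespace Pool.Agent.P.MP_2f562c_al

variable {F : Type*} [Field F] {d : ℕ} {lo di up : ℤ → F} {β γ ϱ : F} {Y : ℤ → ℤ → F}

noncomputable def PU (up : ℤ → F) (u : ℤ) : F := ∏ j ∈ Finset.range u.toNat, up ((j : ℤ) + 1)

lemma PU_succ (up : ℤ → F) (u : ℤ) (h : 0 ≤ u) : PU up (u + 1) = PU up u * up (u + 1) := by
  unfold PU
  rw [show (u + 1).toNat = u.toNat + 1 by omega, Finset.prod_range_succ,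
    show ((u.toNat : ℕ) : ℤ) = u by omega]

lemma PU_ne (up : ℤ → F) (u : ℤ) (h : ∀ j : ℤ, 0 < j → j ≤ u → up j ≠ 0) : PU up u ≠ 0 := by
  apply Finset.prod_ne_zero_iff.2
  intro j hj
  have := Finset.mem_range.1 hj
  exact h _ (by omega) (by omega)

lemma frontD (hβ : NR β) (hz : NZ d lo up)
    (hY : ∀ u v : ℤ, u < 0 ∨ (d : ℤ) < v → Y u v = 0)
    (hS : ∀ u v : ℤ, u + 2 < v → St lo di up β γ ϱ Y u v = 0) (m : ℤ) (hm : 1 ≤ m)
    (htop : ∀ u v : ℤ, m < v - u → Y u v = 0) (k : ℤ) (hk : Y k (k + m) ≠ 0) :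
    ∃ r0 : ℤ, ∀ r, 0 ≤ r → r + m ≤ d → r ≠ r0 → Y r (r + m) ≠ 0 := by
  have hk0 : 0 ≤ k ∧ k + m ≤ d := by
    by_contra hc
    exact hk (hY _ _ (by omega))
  have hU : ∀ u : ℤ, u ≤ d → PU up u ≠ 0 := fun u hu =>
    PU_ne up u fun j h0 h1 => hz.2 j h0 (by omega)
  obtain ⟨r0, hr0⟩ := one_zero hβ (fun r => Y r (r + m) * PU up r / PU up (r + m)) (d - m) (by
    intro i h0 h1
    have := hS i (i + m + 2) (by omega)
    simp (disch := omega) only [St, htop] at this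
    have a1 := PU_succ up i h0
    have a2 := PU_succ up (i + 1) (by omega)
    have a3 := PU_succ up (i + m) (by omega)
    have a4 := PU_succ up (i + m + 1) (by omega)
    have b1 := hU (i + m) (by omega)
    have b2 := hz.2 (i + m + 1) (by omega) (by omega)
    have b3 := hz.2 (i + m + 2) (by omega) (by omega)
    rw [i11] at a2 a4
    rw [show i + m + 2 - 1 = i + m + 1 by ring, show i + m + 2 - 2 = i + m by ring] at this
    rw [show i + 1 + m = i + m + 1 by ring, show i + 2 + m = i + m + 2 by ring, a4, a3, a2, a1]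
    field_simp
    linear_combination PU up i * this) k hk0.1 (by omega)
    (div_ne_zero (mul_ne_zero hk (hU _ (by omega))) (hU _ hk0.2))
  refine ⟨r0, fun r h0 h1 h2 h3 => hr0 r h0 (by omega) h2 ?_⟩
  simp [h3]

lemma propag (hz : NZ d lo up) (hY : ∀ u v : ℤ, u < 0 ∨ (d : ℤ) < v → Y u v = 0)
    (hS : ∀ u v : ℤ, u + 2 < v → St lo di up β γ ϱ Y u v = 0) (t n : ℤ) (ht : 0 ≤ t)
    (hini : ∀ u v : ℤ, u = 0 ∨ u = 1 → t < v - u → u + v < n → Y u v = 0) (u v : ℤ)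
    (h1 : t < v - u) (h2 : u + v < n) : Y u v = 0 := by
  have : ∀ N : ℕ, ∀ u v : ℤ, u < N → t < v - u → u + v < n → Y u v = 0 := by
    intro N
    induction N with
    | zero => intro u v h _ _; exact hY _ _ (by omega)
    | succ N ih =>
      intro u v h0 h1 h2
      by_cases e0 : u < N
      · exact ih u v e0 h1 h2
      by_cases e1 : u = 0 ∨ u = 1
      · exact hini u v e1 h1 h2
      by_cases e2 : (d : ℤ) < v
      · exact hY _ _ (Or.inr e2)
      have := hS (u - 2) v (by omega)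
      simp (disch := omega) only [St, ih] at this
      rw [show u - 2 + 2 = u by ring] at this
      apply mul_left_cancel₀ (mul_ne_zero (hz.2 (u - 2 + 1) (by omega) (by omega))
        (hz.2 u (by omega) (by omega)))
      linear_combination this
  exact this (u.toNat + 1) u v (by omega) h1 h2

lemma frontA (hβ : NR β) (hz : NZ d lo up)
    (hY : ∀ u v : ℤ, u < 0 ∨ (d : ℤ) < v → Y u v = 0)
    (hS : ∀ u v : ℤ, u + 2 < v → St lo di up β γ ϱ Y u v = 0)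
    (h3 : ∀ u v1 v2 v3 : ℤ, u < v1 → v1 < v2 → v2 < v3 → Y u v1 ≠ 0 → Y u v2 ≠ 0 → Y u v3 ≠ 0 →
      False) (k m : ℤ) (hm : 41 ≤ m) (hk : Y k (k + m) ≠ 0) :
    ∃ n r0 : ℤ, 11 ≤ n ∧ n ≤ d + 1 ∧ ∀ r, 0 ≤ r → r ≤ 5 → r ≠ r0 → Y r (n - r) ≠ 0 := by
  have hk0 : 0 ≤ k ∧ k + m ≤ d := by
    by_contra hc
    exact hk (hY _ _ (by omega))
  obtain ⟨u5, v5, a5, b5, c5⟩ : ∃ u v : ℤ, (u = 0 ∨ u = 1) ∧ 40 < v - u ∧ Y u v ≠ 0 := by
    by_contra hc
    push Not at hc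
    exact hk (propag hz hY hS 40 (2 * d + 1) (by omega) (fun u v h0 h1 _ => hc u v h0 h1) _ _
      (by omega) (by omega))
  obtain ⟨t, t0, t1, ht⟩ : ∃ t : ℤ, 0 ≤ t ∧ t ≤ 30 ∧
      ∀ u v : ℤ, u = 0 ∨ u = 1 → t < v - u → v - u ≤ t + 10 → Y u v = 0 := by
    by_contra hc
    push Not at hc
    obtain ⟨u1, v1, a1, b1, d1, c1⟩ := hc 0 (by omega) (by omega)
    obtain ⟨u2, v2, a2, b2, d2, c2⟩ := hc 10 (by omega) (by omega)
    obtain ⟨u3, v3, a3, b3, d3, c3⟩ := hc 20 (by omega) (by omega)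
    obtain ⟨u4, v4, a4, b4, d4, c4⟩ := hc 30 (by omega) (by omega)
    rcases a1 with rfl | rfl <;> rcases a2 with rfl | rfl <;> rcases a3 with rfl | rfl <;>
      rcases a4 with rfl | rfl <;> rcases a5 with rfl | rfl <;>
      first
      | exact h3 _ _ _ _ (by omega) (by omega) (by omega) c1 c2 c3
      | exact h3 _ _ _ _ (by omega) (by omega) (by omega) c1 c2 c4
      | exact h3 _ _ _ _ (by omega) (by omega) (by omega) c1 c2 c5
      | exact h3 _ _ _ _ (by omega) (by omega) (by omega) c1 c3 c4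
      | exact h3 _ _ _ _ (by omega) (by omega) (by omega) c1 c3 c5
      | exact h3 _ _ _ _ (by omega) (by omega) (by omega) c1 c4 c5
      | exact h3 _ _ _ _ (by omega) (by omega) (by omega) c2 c3 c4
      | exact h3 _ _ _ _ (by omega) (by omega) (by omega) c2 c3 c5
      | exact h3 _ _ _ _ (by omega) (by omega) (by omega) c2 c4 c5
      | exact h3 _ _ _ _ (by omega) (by omega) (by omega) c3 c4 c5
  obtain ⟨n, ⟨u0, v0, a0, b0, c0, rfl⟩, hmin⟩ := Int.exists_least_of_bdd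
    (P := fun n => ∃ u v : ℤ, (u = 0 ∨ u = 1) ∧ t + 10 < v - u ∧ Y u v ≠ 0 ∧ u + v = n)
    ⟨0, by rintro z ⟨u, v, a, b, c, rfl⟩; omega⟩ ⟨_, u5, v5, a5, by omega, c5, rfl⟩
  have hv0 : v0 ≤ d := by
    by_contra hc
    exact c0 (hY _ _ (by omega))
  have hp := propag hz hY hS t (u0 + v0) t0 (by
    intro u v h0 h1 h2
    by_cases e : v - u ≤ t + 10
    · exact ht u v h0 h1 e
    · by_contra hc
      have := hmin _ ⟨u, v, h0, by omega, hc, rfl⟩
      omega)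
  obtain ⟨r0, hr0⟩ := one_zero hβ (fun r => Y r (u0 + v0 - r) * PU up r *
      PU (fun j => lo (j - 1)) (u0 + v0 - r)) 5 (by
    intro i h0 h1
    have := hS i (u0 + v0 - i - 2) (by omega)
    simp (disch := omega) only [St, hp] at this
    have a1 := PU_succ up i h0
    have a2 := PU_succ up (i + 1) (by omega)
    have a3 := PU_succ (fun j => lo (j - 1)) (u0 + v0 - i - 2) (by omega)
    have a4 := PU_succ (fun j => lo (j - 1)) (u0 + v0 - i - 2 + 1) (by omega)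
    simp only [add_sub_cancel_right] at a3 a4
    rw [i11] at a2 a4
    rw [show u0 + v0 - (i + 1) = u0 + v0 - i - 2 + 1 by ring,
      show u0 + v0 - (i + 2) = u0 + v0 - i - 2 by ring, a2, a1]
    rw [show u0 + v0 - i - 2 + 2 = u0 + v0 - i by ring] at this a4
    rw [a4, a3]
    linear_combination PU up i * PU (fun j => lo (j - 1)) (u0 + v0 - i - 2) * this) u0
    (by omega) (by omega) (by
      rw [show u0 + v0 - u0 = v0 by ring]
      exact mul_ne_zero (mul_ne_zero c0 (PU_ne _ _ fun j h0 h1 => hz.2 j h0 (by omega)))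
        (PU_ne _ _ fun j h0 h1 => hz.1 _ (by omega) (by omega)))
  refine ⟨u0 + v0, r0, by omega, by omega, fun r h0 h1 h2 h3 => hr0 r h0 h1 h2 ?_⟩
  simp [h3]

lemma St_tr (u v : ℤ) : St (fun v => up (v + 1)) di (fun v => lo (v - 1)) β γ ϱ
    (fun u v => Y v u) u v = St lo di up β γ ϱ Y v u := by
  simp only [St, add_sub_cancel_right, sub_add_cancel, i11, i12,
    show ∀ z : ℤ, z - 2 + 1 = z - 1 from fun z => by ring,
    show ∀ z : ℤ, z + 2 - 1 = z + 1 from fun z => by ring]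
  ring

lemma NZ.tr (hz : NZ d lo up) : NZ d (fun v => up (v + 1)) (fun v => lo (v - 1)) :=
  ⟨fun v h0 h1 => hz.2 _ (by omega) (by omega), fun v h0 h1 => hz.1 _ (by omega) (by omega)⟩

/-- the dichotomy: a long diagonal of small offset, or a long antidiagonal -/
theorem fronts (hβ : NR β) (hz : NZ d lo up) (hd : 80 ≤ d)
    (hY : ∀ u v : ℤ, u < 0 ∨ (d : ℤ) < u ∨ v < 0 ∨ (d : ℤ) < v → Y u v = 0)
    (hS : ∀ u v : ℤ, u + 2 < v ∨ v + 2 < u → St lo di up β γ ϱ Y u v = 0)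
    (R : ℤ → ℤ → Prop) (hR : ∀ u v, u ≠ v → Y u v ≠ 0 → R u v ∧ R v u)
    (h3 : ∀ u v1 v2 v3 : ℤ, 0 ≤ u → u < v1 → v1 < v2 → v2 < v3 → v3 ≤ d → R u v1 → R u v2 →
      R u v3 → False) (k l : ℤ) (hkl : k ≠ l) (hk : Y k l ≠ 0) :
    (∃ m r0 : ℤ, 1 ≤ m ∧ 2 * m ≤ d ∧ (∀ u v, m < v - u ∨ m < u - v → Y u v = 0) ∧
      ∀ r, 0 ≤ r → r ≤ 11 → r ≠ r0 → R r (r + m)) ∨
    (∃ n r0 : ℤ, 11 ≤ n ∧ n ≤ d + 1 ∧ ∀ r, 0 ≤ r → r ≤ 5 → r ≠ r0 → n - r ≤ d ∧ R r (n - r)) := by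
  have hrange : ∀ u v, Y u v ≠ 0 → 0 ≤ u ∧ u ≤ d ∧ 0 ≤ v ∧ v ≤ d := by
    intro u v h
    by_contra hc
    exact h (hY u v (by omega))
  obtain ⟨m, ⟨u0, v0, a0, b0⟩, hmax⟩ := Int.exists_greatest_of_bdd
    (P := fun m => ∃ u v : ℤ, Y u v ≠ 0 ∧ (v - u = m ∨ u - v = m))
    ⟨d, by rintro z ⟨u, v, a, b⟩; have := hrange u v a; omega⟩ ⟨l - k, k, l, hk, Or.inl rfl⟩
  have hm1 : 1 ≤ m := by
    have a := hmax _ ⟨k, l, hk, Or.inl rfl⟩
    have b := hmax _ ⟨k, l, hk, Or.inr rfl⟩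
    omega
  have htop : ∀ u v, m < v - u ∨ m < u - v → Y u v = 0 := by
    intro u v h
    by_contra hc
    have a := hmax _ ⟨u, v, hc, Or.inl rfl⟩
    have b := hmax _ ⟨u, v, hc, Or.inr rfl⟩
    omega
  rcases b0 with b0 | b0
  · have a0' : Y u0 (u0 + m) ≠ 0 := by rwa [show u0 + m = v0 by omega]
    by_cases hm : 2 * m ≤ d
    · obtain ⟨r0, hr⟩ := frontD (di := di) (γ := γ) (ϱ := ϱ) hβ hz
        (fun u v h => hY u v (by omega))
        (fun u v h => hS u v (Or.inl h)) m hm1 (fun u v h => htop u v (Or.inl h)) u0 a0'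
      exact Or.inl ⟨m, r0, hm1, hm, htop, fun r h0 h1 h2 =>
        (hR _ _ (by omega) (hr r h0 (by omega) h2)).1⟩
    · obtain ⟨n, r0, n0, n1, hr⟩ := frontA (di := di) (γ := γ) (ϱ := ϱ) hβ hz
        (fun u v h => hY u v (by omega))
        (fun u v h => hS u v (Or.inl h)) (fun u v1 v2 v3 c1 c2 c3 d1 d2 d3 =>
          h3 u v1 v2 v3 (hrange _ _ d1).1 c1 c2 c3 (hrange _ _ d3).2.2.2 (hR _ _ (by omega) d1).1
          (hR _ _ (by omega) d2).1 (hR _ _ (by omega) d3).1) u0 m (by omega) a0'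
      exact Or.inr ⟨n, r0, n0, n1, fun r h0 h1 h2 => ⟨(hrange _ _ (hr r h0 h1 h2)).2.2.2,
        (hR _ _ (by omega) (hr r h0 h1 h2)).1⟩⟩
  · have a0' : Y (v0 + m) v0 ≠ 0 := by rwa [show v0 + m = u0 by omega]
    by_cases hm : 2 * m ≤ d
    · obtain ⟨r0, hr⟩ := frontD (di := di) (γ := γ) (ϱ := ϱ) (Y := fun u v => Y v u) hβ hz.tr
        (fun u v h => hY v u (by omega))
        (fun u v h => by rw [St_tr]; exact hS v u (Or.inr h)) m hm1
        (fun u v h => htop v u (Or.inr h)) v0 a0'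
      exact Or.inl ⟨m, r0, hm1, hm, htop, fun r h0 h1 h2 =>
        (hR _ _ (by omega) (hr r h0 (by omega) h2)).2⟩
    · obtain ⟨n, r0, n0, n1, hr⟩ := frontA (di := di) (γ := γ) (ϱ := ϱ) (Y := fun u v => Y v u)
        hβ hz.tr (fun u v h => hY v u (by omega))
        (fun u v h => by rw [St_tr]; exact hS v u (Or.inr h)) (fun u v1 v2 v3 c1 c2 c3 d1 d2 d3 =>
          h3 u v1 v2 v3 (hrange _ _ d1).2.2.1 c1 c2 c3 (hrange _ _ d3).2.1 (hR _ _ (by omega) d1).2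
          (hR _ _ (by omega) d2).2 (hR _ _ (by omega) d3).2) v0 m (by omega) a0'
      exact Or.inr ⟨n, r0, n0, n1, fun r h0 h1 h2 => ⟨(hrange _ _ (hr r h0 h1 h2)).2.1,
        (hR _ _ (by omega) (hr r h0 h1 h2)).2⟩⟩

end Pool.Agent.P.MP_2f562c_al
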