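import Mathlib
import Pool.Agent.P.MP_2f562c_al.Seq

namespace Pool.Agent.P.MP_2f562c_al

variable {F : Type*} [Field F]

def QQ (β γ ϱ x y : F) : F := (x + y) ^ 2 - (β + 2) * (x * y) - γ * (x * y) * (x + y) - ϱ * (x * y) ^ 2

lemma QQ_symm (β γ ϱ x y : F) : QQ β γ ϱ x y = QQ β γ ϱ y x := by unfold QQ; ring

lemma coefL (S : Finset ℤ) (hS : 9 ≤ S.card) (t : ℤ → F) (ht : Set.InjOn t S)
    (p0 p1 p2 p3 p4 s0 s1 s2 B γ ϱ : F)
    (h : ∀ i ∈ S, t i ^ 2 * ((s0 + s1 * t i + s2 * t i ^ 2) ^ 2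
      - B * (p0 + p1 * t i + p2 * t i ^ 2 + p3 * t i ^ 3 + p4 * t i ^ 4))
      - γ * t i * (p0 + p1 * t i + p2 * t i ^ 2 + p3 * t i ^ 3 + p4 * t i ^ 4)
        * (s0 + s1 * t i + s2 * t i ^ 2)
      - ϱ * (p0 + p1 * t i + p2 * t i ^ 2 + p3 * t i ^ 3 + p4 * t i ^ 4) ^ 2 = 0) :
    - ϱ * (p0*p0) = 0 ∧
    - γ * (p0*s0) - ϱ * (p0*p1 + p1*p0) = 0 ∧
    (s0*s0) - B * (p0) - γ * (p0*s1 + p1*s0) - ϱ * (p0*p2 + p1*p1 + p2*p0) = 0 ∧
    (s0*s1 + s1*s0) - B * (p1) - γ * (p0*s2 + p1*s1 + p2*s0)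
      - ϱ * (p0*p3 + p1*p2 + p2*p1 + p3*p0) = 0 ∧
    (s0*s2 + s1*s1 + s2*s0) - B * (p2) - γ * (p1*s2 + p2*s1 + p3*s0)
      - ϱ * (p0*p4 + p1*p3 + p2*p2 + p3*p1 + p4*p0) = 0 ∧
    (s1*s2 + s2*s1) - B * (p3) - γ * (p2*s2 + p3*s1 + p4*s0)
      - ϱ * (p1*p4 + p2*p3 + p3*p2 + p4*p1) = 0 ∧
    (s2*s2) - B * (p4) - γ * (p3*s2 + p4*s1) - ϱ * (p2*p4 + p3*p3 + p4*p2) = 0 ∧
    - γ * (p4*s2) - ϱ * (p3*p4 + p4*p3) = 0 ∧
    - ϱ * (p4*p4) = 0 :=
  pz9 S hS t ht _ _ _ _ _ _ _ _ _ fun i hi => by linear_combination h i hi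

lemma coefQ (S : Finset ℤ) (hS : 9 ≤ S.card) (t : ℤ → F) (ht : Set.InjOn t S)
    (p0 p1 p2 p3 p4 s0 s1 s2 B γ ϱ : F)
    (h : ∀ i ∈ S, ((s0 + s1 * t i + s2 * t i ^ 2) ^ 2
      - B * (p0 + p1 * t i + p2 * t i ^ 2 + p3 * t i ^ 3 + p4 * t i ^ 4))
      - γ * (p0 + p1 * t i + p2 * t i ^ 2 + p3 * t i ^ 3 + p4 * t i ^ 4)
        * (s0 + s1 * t i + s2 * t i ^ 2)
      - ϱ * (p0 + p1 * t i + p2 * t i ^ 2 + p3 * t i ^ 3 + p4 * t i ^ 4) ^ 2 = 0) :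
    (s0*s0) - B * (p0) - γ * (p0*s0) - ϱ * (p0*p0) = 0 ∧
    (s0*s1 + s1*s0) - B * (p1) - γ * (p0*s1 + p1*s0) - ϱ * (p0*p1 + p1*p0) = 0 ∧
    (s0*s2 + s1*s1 + s2*s0) - B * (p2) - γ * (p0*s2 + p1*s1 + p2*s0)
      - ϱ * (p0*p2 + p1*p1 + p2*p0) = 0 ∧
    (s1*s2 + s2*s1) - B * (p3) - γ * (p1*s2 + p2*s1 + p3*s0)
      - ϱ * (p0*p3 + p1*p2 + p2*p1 + p3*p0) = 0 ∧
    (s2*s2) - B * (p4) - γ * (p2*s2 + p3*s1 + p4*s0)
      - ϱ * (p0*p4 + p1*p3 + p2*p2 + p3*p1 + p4*p0) = 0 ∧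
    - γ * (p3*s2 + p4*s1) - ϱ * (p1*p4 + p2*p3 + p3*p2 + p4*p1) = 0 ∧
    - γ * (p4*s2) - ϱ * (p2*p4 + p3*p3 + p4*p2) = 0 ∧
    - ϱ * (p3*p4 + p4*p3) = 0 ∧
    - ϱ * (p4*p4) = 0 :=
  pz9 S hS t ht _ _ _ _ _ _ _ _ _ fun i hi => by linear_combination h i hi

variable {β γ ϱ : F}

lemma QQ_two {x y : F} (h : QQ 2 0 0 x y = 0) : x = y := by
  unfold QQ at h
  have : (x - y) ^ 2 = 0 := by linear_combination h
  exact sub_eq_zero.1 (pow_eq_zero_iff two_ne_zero |>.1 this)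

lemma lin_par (h2 : (2 : F) ≠ 0) (S : Finset ℤ) (hS : 5 ≤ S.card) (t : ℤ → F)
    (ht : Set.InjOn t S) (a a' b : F) (hb : b ≠ 0)
    (h : ∀ i ∈ S, QQ β γ ϱ (a + b * t i) (a' + b * t i) = 0) : a = a' := by
  obtain ⟨-, -, e2, e3, e4⟩ := pz5 S hS t ht
    ((a + a') ^ 2 - (β + 2) * (a * a') - γ * (a * a') * (a + a') - ϱ * (a * a') ^ 2)
    (4 * b * (a + a') - (β + 2) * b * (a + a') - γ * (b * (a + a') ^ 2 + 2 * b * a * a')
      - ϱ * (2 * a * a' * b * (a + a')))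
    (4 * b ^ 2 - (β + 2) * b ^ 2 - γ * (3 * b ^ 2 * (a + a'))
      - ϱ * (b ^ 2 * (a + a') ^ 2 + 2 * a * a' * b ^ 2))
    (- γ * (2 * b ^ 3) - ϱ * (2 * b ^ 3 * (a + a'))) (- ϱ * b ^ 4)
    (fun i hi => by have := h i hi; unfold QQ at this; linear_combination this)
  have r0 : ϱ = 0 := by simpa [hb] using e4
  have g0 : γ = 0 := by simpa [hb, r0, h2] using e3
  have b0 : β = 2 := by
    apply mul_left_cancel₀ (pow_ne_zero 2 hb)
    rw [r0, g0] at e2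
    linear_combination -e2
  obtain ⟨i, hi⟩ : S.Nonempty := Finset.card_pos.1 (by omega)
  have := h i hi
  rw [r0, g0, b0] at this
  have := QQ_two this
  linear_combination this

lemma lin_anti (S : Finset ℤ) (hS : 5 ≤ S.card) (t : ℤ → F)
    (ht : Set.InjOn t S) (a a' b : F) (hb : b ≠ 0)
    (h : ∀ i ∈ S, QQ β γ ϱ (a + b * t i) (a' - b * t i) = 0) :
    ϱ = 0 ∧ β = -2 ∧ a + a' = 0 := by
  obtain ⟨e0, -, e2, -, e4⟩ := pz5 S hS t ht
    ((a + a') ^ 2 - (β + 2) * (a * a') - γ * (a * a') * (a + a') - ϱ * (a * a') ^ 2)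
    (- (β + 2) * b * (a' - a) - γ * (b * (a' - a) * (a + a'))
      - ϱ * (2 * a * a' * b * (a' - a)))
    ((β + 2) * b ^ 2 + γ * (b ^ 2 * (a + a'))
      - ϱ * (b ^ 2 * (a' - a) ^ 2 - 2 * a * a' * b ^ 2))
    (ϱ * (2 * b ^ 3 * (a' - a))) (- ϱ * b ^ 4)
    (fun i hi => by have := h i hi; unfold QQ at this; linear_combination this)
  have r0 : ϱ = 0 := by simpa [hb] using e4
  rw [r0] at e0 e2
  have e3 : β + 2 + γ * (a + a') = 0 := by
    apply mul_left_cancel₀ (pow_ne_zero 2 hb)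
    linear_combination e2
  have e5 : a + a' = 0 := by
    have : (a + a') ^ 2 = 0 := by linear_combination e0 + (a * a') * e3
    exact pow_eq_zero_iff two_ne_zero |>.1 this
  exact ⟨r0, by linear_combination e3 - γ * e5, e5⟩

lemma quad_line (h2 : (2 : F) ≠ 0) (S : Finset ℤ) (hS : 9 ≤ S.card) (t : ℤ → F)
    (ht : Set.InjOn t S) (a a' b b' c : F) (hc : c ≠ 0)
    (h : ∀ i ∈ S, QQ β γ ϱ (a + b * t i + c * t i ^ 2) (a' + b' * t i + c * t i ^ 2) = 0) :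
    β = 2 ∧ γ = 0 ∧ ϱ = 0 := by
  obtain ⟨-, -, -, -, e4, -, e6, -, e8⟩ := coefQ S hS t ht (a * a') (a * b' + b * a')
    (a * c + b * b' + c * a') (b * c + c * b') (c * c) (a + a') (b + b') (2 * c) (β + 2) γ ϱ
    (fun i hi => by have := h i hi; unfold QQ at this; linear_combination this)
  have r0 : ϱ = 0 := by simpa [hc] using e8
  have g0 : γ = 0 := by simpa [hc, r0, h2] using e6
  refine ⟨?_, g0, r0⟩
  apply mul_left_cancel₀ (pow_ne_zero 2 hc)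
  rw [r0, g0] at e4
  linear_combination -e4

lemma laur_coef (S : Finset ℤ) (t : ℤ → F) (h0 : ∀ i ∈ S, t i ≠ 0) (a b b' c c' : F)
    (h : ∀ i ∈ S, QQ β γ ϱ (a + b * t i + c * (t i)⁻¹) (a + b' * t i + c' * (t i)⁻¹) = 0) :
    ∀ i ∈ S, t i ^ 2 * ((c + c' + 2 * a * t i + (b + b') * t i ^ 2) ^ 2
      - (β + 2) * (c * c' + a * (c + c') * t i + (c * b' + a * a + b * c') * t i ^ 2
        + a * (b + b') * t i ^ 3 + b * b' * t i ^ 4))
      - γ * t i * (c * c' + a * (c + c') * t i + (c * b' + a * a + b * c') * t i ^ 2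
        + a * (b + b') * t i ^ 3 + b * b' * t i ^ 4) * (c + c' + 2 * a * t i + (b + b') * t i ^ 2)
      - ϱ * (c * c' + a * (c + c') * t i + (c * b' + a * a + b * c') * t i ^ 2
        + a * (b + b') * t i ^ 3 + b * b' * t i ^ 4) ^ 2 = 0 := by
  intro i hi
  have := h i hi
  have h1 := h0 i hi
  unfold QQ at this
  field_simp at this
  linear_combination this

lemma laur_diag (S : Finset ℤ) (hS : 9 ≤ S.card) (t : ℤ → F) (ht : Set.InjOn t S)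
    (h0 : ∀ i ∈ S, t i ≠ 0) (a b c l : F) (hl0 : l ≠ 0) (hl : l ^ 2 ≠ 1) (hbc : b ≠ 0 ∨ c ≠ 0)
    (h : ∀ i ∈ S, QQ β γ ϱ (a + b * t i + c * (t i)⁻¹)
      (a + b * l * t i + c * l⁻¹ * (t i)⁻¹) = 0) :
    γ = 0 ∧ ϱ = 0 ∧ β = l + l⁻¹ ∧ a = 0 ∧ b * c = 0 := by
  obtain ⟨e0, e1, e2, e3, e4, e5, e6, e7, e8⟩ := coefL S hS t ht _ _ _ _ _ _ _ _ _ _ _
    (laur_coef S t h0 a b (b * l) c (c * l⁻¹) h)
  have hll : l * l⁻¹ = 1 := mul_inv_cancel₀ hl0
  have hi0 : l⁻¹ ≠ 0 := inv_ne_zero hl0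
  have hp : 1 + l ≠ 0 := fun e => hl (by linear_combination (l - 1) * e)
  have hm : 1 - l ≠ 0 := fun e => hl (by linear_combination (-l - 1) * e)
  have hp' : 1 + l⁻¹ ≠ 0 := fun e => hp (by linear_combination l * e - hll)
  have r0 : ϱ = 0 := by
    rcases hbc with hb | hc
    · simpa [hb, hl0] using e8
    · simpa [hc, hl0] using e0
  subst r0
  have g0 : γ = 0 := by
    rcases hbc with hb | hc
    · apply mul_left_cancel₀ (mul_ne_zero (mul_ne_zero (pow_ne_zero 3 hb) hl0) hp)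
      linear_combination -e7
    · apply mul_left_cancel₀ (mul_ne_zero (mul_ne_zero (pow_ne_zero 3 hc) hi0) hp')
      linear_combination -e1
  subst g0
  have b0 : β = l + l⁻¹ := by
    rcases hbc with hb | hc
    · apply mul_left_cancel₀ (mul_ne_zero (pow_ne_zero 2 hb) hl0)
      linear_combination -e6 - b ^ 2 * hll
    · apply mul_left_cancel₀ (mul_ne_zero (pow_ne_zero 2 hc) hi0)
      linear_combination -e2 - c ^ 2 * hll
  have hb2 : 2 - β ≠ 0 := by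
    intro e
    apply pow_ne_zero 2 hm
    rw [b0] at e
    linear_combination -l * e - hll
  have a0 : a = 0 := by
    rcases hbc with hb | hc
    · apply mul_left_cancel₀ (mul_ne_zero (mul_ne_zero hb hp) hb2)
      linear_combination e5
    · apply mul_left_cancel₀ (mul_ne_zero (mul_ne_zero hc hp') hb2)
      linear_combination e3
  refine ⟨rfl, rfl, b0, a0, ?_⟩
  subst a0
  apply mul_left_cancel₀ (mul_ne_zero (pow_ne_zero 2 hp) (pow_ne_zero 2 hm))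
  rw [b0] at e4
  linear_combination -l ^ 2 * e4 - b * c * (1 + l * l⁻¹) * hll

lemma laur_anti (S : Finset ℤ) (hS : 9 ≤ S.card) (t : ℤ → F) (ht : Set.InjOn t S)
    (h0 : ∀ i ∈ S, t i ≠ 0) (a b b' n : F) (hn : n ≠ 0) (hbc : b ≠ 0 ∨ b' ≠ 0) (hne : b ≠ b')
    (h : ∀ i ∈ S, QQ β γ ϱ (a + b * t i + b' * n * (t i)⁻¹)
      (a + b' * t i + b * n * (t i)⁻¹) = 0) : β = -2 := by
  obtain ⟨-, -, -, -, e4, e5, e6, e7, e8⟩ := coefL S hS t ht _ _ _ _ _ _ _ _ _ _ _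
    (laur_coef S t h0 a b b' (b' * n) (b * n) h)
  have key : ∀ x : F, x ≠ 0 → x * x - γ * (a * x * x) - ϱ * (a * x * (a * x)) = 0 →
      2 * a * x + x * (2 * a) - (β + 2) * (a * x) - γ * ((a * a + x * (x * n)) * x + a * x * (2 * a))
        - ϱ * ((a * a + x * (x * n)) * (a * x) + a * x * (a * a + x * (x * n))) = 0 →
      x * n * x + 2 * a * (2 * a) + x * (x * n) - (β + 2) * (a * a + x * (x * n))
        - γ * (a * (x * n) * x + (a * a + x * (x * n)) * (2 * a) + a * x * (x * n))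
        - ϱ * (a * (x * n) * (a * x) + (a * a + x * (x * n)) * (a * a + x * (x * n))
          + a * x * (a * (x * n))) = 0 → β = -2 := by
    intro x hx f6 f5 f4
    have g6 : 1 - γ * a - ϱ * a ^ 2 = 0 := by
      apply mul_left_cancel₀ (pow_ne_zero 2 hx); linear_combination f6
    have g5 : 4 * a - (β + 2) * a - γ * (3 * a ^ 2 + x ^ 2 * n) - 2 * ϱ * a * (a ^ 2 + x ^ 2 * n)
        = 0 := by
      apply mul_left_cancel₀ hx; linear_combination f5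
    have g4 : 4 * a ^ 2 - (β + 2) * (a ^ 2 + x ^ 2 * n) - 2 * γ * a * (a ^ 2 + x ^ 2 * n)
        - ϱ * (a ^ 2 + x ^ 2 * n) ^ 2 = 0 := by
      linear_combination f4 - 2 * x ^ 2 * n * g6
    have k1 : -(β + 2) * a - γ * (x ^ 2 * n - a ^ 2) - 2 * ϱ * a * (x ^ 2 * n - a ^ 2) = 0 := by
      linear_combination g5 - 4 * a * g6
    have k0 : -(β + 2) * (x ^ 2 * n - a ^ 2) - ϱ * (x ^ 2 * n - a ^ 2) ^ 2 = 0 := by
      linear_combination g4 - 2 * a * k1 - 4 * a ^ 2 * g6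
    have k2 : (x ^ 2 * n - a ^ 2) ^ 2 = 0 := by
      linear_combination (x ^ 2 * n - a ^ 2) ^ 2 * g6 - a * (x ^ 2 * n - a ^ 2) * k1 + a ^ 2 * k0
    have k3 : x ^ 2 * n - a ^ 2 = 0 := pow_eq_zero_iff two_ne_zero |>.1 k2
    have ha : a ≠ 0 := by
      rintro rfl
      simp at g6
    apply mul_left_cancel₀ ha
    linear_combination -k1 - (γ + 2 * ϱ * a) * k3
  by_cases hb : b = 0
  · subst hb
    exact key b' (by simpa using hbc) (by linear_combination e6) (by linear_combination e5)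
      (by linear_combination e4)
  by_cases hb' : b' = 0
  · subst hb'
    exact key b hb (by linear_combination e6) (by linear_combination e5)
      (by linear_combination e4)
  have r0 : ϱ = 0 := by simpa [hb, hb'] using e8
  subst r0
  by_cases hs : b + b' = 0
  · have e : b' = -b := by linear_combination hs
    subst e
    have f6 : β + 2 + 2 * a * γ = 0 := by
      apply mul_left_cancel₀ (pow_ne_zero 2 hb); linear_combination e6
    have f4 : (2 * a) ^ 2 = 0 := by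
      linear_combination e4 + (a ^ 2 + 2 * b ^ 2 * n) * f6
    have f3 : 2 * a = 0 := pow_eq_zero_iff two_ne_zero |>.1 f4
    linear_combination f6 - γ * f3
  have g0 : γ = 0 := by
    apply mul_left_cancel₀ (mul_ne_zero (mul_ne_zero hb hb') hs)
    linear_combination -e7
  subst g0
  have hb2 : 2 - β ≠ 0 := by
    intro e
    apply hne
    have : (b - b') ^ 2 = 0 := by linear_combination e6 - b * b' * e
    exact sub_eq_zero.1 (pow_eq_zero_iff two_ne_zero |>.1 this)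
  have a0 : a = 0 := by
    apply mul_left_cancel₀ (mul_ne_zero hs hb2)
    linear_combination e5
  subst a0
  apply mul_left_cancel₀ (mul_ne_zero (mul_ne_zero (mul_ne_zero hb hb') hn) hb2)
  linear_combination e4 + β * n * e6

end Pool.Agent.P.MP_2f562c_al
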