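import Mathlib
import Pool.Agent.P.MP_2f562c_al.Line1
import Pool.Agent.P.MP_2f562c_al.AW

namespace Pool.Agent.P.MP_2f562c_al

variable {F : Type*} [Field F] {d : ℕ}

def Rec (d : ℕ) (β γ : F) (u : ℤ → F) : Prop :=
  ∀ i : ℤ, 0 ≤ i → i + 2 ≤ d → u i - β * u (i + 1) + u (i + 2) = γ

lemma rec_unique {β γ : F} {u w : ℤ → F} (hu : Rec d β γ u) (hw : Rec d β γ w)
    (h0 : u 0 = w 0) (h1 : u 1 = w 1) (i : ℤ) (hi0 : 0 ≤ i) (hi1 : i ≤ d) : u i = w i := by
  obtain ⟨n, rfl⟩ := Int.eq_ofNat_of_zero_le hi0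
  induction n using Nat.twoStepInduction with
  | zero => exact h0
  | one => exact h1
  | more n e0 e1 =>
    have a0 := e0 (by omega) (by omega)
    have a1 := e1 (by omega) (by omega)
    have a2 := hu n (by omega) (by omega)
    have a3 := hw n (by omega) (by omega)
    push_cast at a1 ⊢
    linear_combination a2 - a3 - a0 + β * a1

lemma cf1 {β γ σ : F} {κ : ℤ → F} (hκ : Rec d β γ κ) (h0 : σ ≠ 0) (h2 : σ ^ 2 ≠ 1)
    (hβ : σ + σ⁻¹ = β) :
    ∃ a b c : F, a * (2 - β) = γ ∧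
      ∀ i : ℤ, 0 ≤ i → i ≤ d → κ i = a + b * σ ^ i + c * (σ ^ i)⁻¹ := by
  have hss : σ * σ⁻¹ = 1 := mul_inv_cancel₀ h0
  have h3 : σ - σ⁻¹ ≠ 0 := fun e => h2 (by linear_combination σ * e + hss)
  have h4 : 2 - β ≠ 0 := fun e => h2 (by
    have : (σ - 1) ^ 2 = 0 := by linear_combination -σ * e + σ * hβ - hss
    have : σ - 1 = 0 := pow_eq_zero_iff two_ne_zero |>.1 this
    linear_combination (σ + 1) * this)
  obtain ⟨a, ha⟩ : ∃ a, a * (2 - β) = γ := ⟨γ / (2 - β), by field_simp⟩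
  obtain ⟨b, hb⟩ : ∃ b, b * (σ - σ⁻¹) = κ 1 - a - (κ 0 - a) * σ⁻¹ :=
    ⟨_ / (σ - σ⁻¹), div_mul_cancel₀ _ h3⟩
  refine ⟨a, b, κ 0 - a - b, ha, rec_unique hκ ?_ ?_ ?_⟩
  · intro i _ _
    simp only [zpow_add₀ h0, zpow_one, zpow_two, mul_inv]
    rw [← hβ] at ha ⊢
    linear_combination ha - (b * σ ^ i + (κ 0 - a - b) * (σ ^ i)⁻¹) * hss
  · simp
  · simp only [zpow_one]; linear_combination -hb

lemma two_ne {γ : F} {κ : ℤ → F} (hκ : Rec d 2 γ κ ∨ Rec d (-2) γ κ) (hi : Inj d κ)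
    (hd : 4 ≤ d) : (2 : F) ≠ 0 := by
  intro h2
  apply hi.ne (i := 0) (j := 4) (by omega) (by omega) (by omega) (by omega) (by omega)
  rcases hκ with hκ | hκ
  · have a := hκ 0 (by omega) (by omega)
    have b := hκ 2 (by omega) (by omega)
    norm_num at a b
    linear_combination a - b + (κ 1 - κ 3) * h2
  · have a := hκ 0 (by omega) (by omega)
    have b := hκ 2 (by omega) (by omega)
    norm_num at a b
    linear_combination a - b - (κ 1 - κ 3) * h2

lemma cf2 {γ : F} {κ : ℤ → F} (hκ : Rec d 2 γ κ) (h2 : (2 : F) ≠ 0) :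
    ∃ a b c : F, ∀ i : ℤ, 0 ≤ i → i ≤ d → κ i = a + b * (i : F) + c * (i : F) ^ 2 := by
  obtain ⟨c, hc⟩ : ∃ c, c * 2 = γ := ⟨γ / 2, by field_simp⟩
  refine ⟨κ 0, κ 1 - κ 0 - c, c, rec_unique hκ ?_ ?_ ?_⟩
  · intro i _ _
    push_cast
    linear_combination hc
  · simp
  · push_cast; ring

lemma cf3 {γ : F} {κ : ℤ → F} (hκ : Rec d (-2) γ κ) (h2 : (2 : F) ≠ 0) :
    ∃ a b c : F, ∀ i : ℤ, 0 ≤ i → i ≤ d → κ i = a + (b + c * (i : F)) * (-1) ^ i := by
  obtain ⟨a, ha⟩ : ∃ a, a * 2 * 2 = γ := ⟨γ / 2 / 2, by field_simp⟩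
  refine ⟨a, κ 0 - a, 2 * a - κ 0 - κ 1, rec_unique hκ ?_ ?_ ?_⟩
  · intro i _ _
    simp only [zpow_add₀ (neg_ne_zero.2 (one_ne_zero (α := F))), zpow_one, zpow_two]
    push_cast
    linear_combination ha
  · simp
  · simp; ring

lemma ex_sigma [IsAlgClosed F] (β : F) (h1 : β ≠ 2) (h2 : β ≠ -2) :
    ∃ σ : F, σ ≠ 0 ∧ σ ^ 2 ≠ 1 ∧ σ + σ⁻¹ = β := by
  obtain ⟨σ, hσ⟩ := IsAlgClosed.exists_root
    (Polynomial.X ^ 2 - Polynomial.C β * Polynomial.X + 1 : Polynomial F) (by
      have : (Polynomial.X ^ 2 - Polynomial.C β * Polynomial.X + 1 : Polynomial F).degree = 2 := by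
        compute_degree!
      rw [this]; norm_num)
  simp only [Polynomial.IsRoot.def, Polynomial.eval_add, Polynomial.eval_sub, Polynomial.eval_pow,
    Polynomial.eval_X, Polynomial.eval_mul, Polynomial.eval_C, Polynomial.eval_one] at hσ
  have h0 : σ ≠ 0 := by rintro rfl; simp at hσ
  refine ⟨σ, h0, fun e => ?_, by field_simp; linear_combination hσ⟩
  have : (σ - 1) * (σ + 1) = 0 := by linear_combination e
  rcases mul_eq_zero.1 this with h | h
  · have : σ = 1 := by linear_combination h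
    subst this; exact h1 (by linear_combination -hσ)
  · have : σ = -1 := by linear_combination h
    subst this; exact h2 (by linear_combination hσ)

lemma card_erase_ge (S : Finset ℤ) (r : ℤ) (n : ℕ) (h : S.card = n + 1) : n ≤ (S.erase r).card := by
  have := Finset.pred_card_le_card_erase (s := S) (a := r)
  omega

variable {β γ ϱ β' γ' : F} {κ : ℤ → F}

theorem lineD [IsAlgClosed F] (hκ : Rec d β' γ' κ) (hi : Inj d κ) (m : ℤ) (hm0 : 1 ≤ m)
    (hm1 : 2 * m ≤ d) (hd : 22 ≤ d) (r0 : ℤ)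
    (h : ∀ r : ℤ, 0 ≤ r → r ≤ 11 → r ≠ r0 → QQ β γ ϱ (κ r) (κ (r + m)) = 0) :
    (∀ i : ℤ, 0 ≤ i → i < d → κ (i + 1) * κ 0 = κ i * κ 1) ∧
      ∀ u v : ℤ, 0 ≤ u → u < v → v ≤ d → v - u ≤ m → κ u ≠ 0 → QQ β γ ϱ (κ u) (κ v) = 0 →
        v - u = m := by
  have hS : 9 ≤ ((Finset.Icc (0 : ℤ) 9).erase r0).card := card_erase_ge _ _ _ (by simp)
  have hSe : 5 ≤ (({0, 2, 4, 6, 8, 10} : Finset ℤ).erase r0).card := card_erase_ge _ _ _ (by simp)
  have hSo : 5 ≤ (({1, 3, 5, 7, 9, 11} : Finset ℤ).erase r0).card := card_erase_ge _ _ _ (by simp)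
  have mS : ∀ i ∈ (Finset.Icc (0 : ℤ) 9).erase r0, 0 ≤ i ∧ i ≤ 11 ∧ i ≠ r0 := by
    intro i hi; simp at hi; omega
  have mSe : ∀ i ∈ ({0, 2, 4, 6, 8, 10} : Finset ℤ).erase r0,
      (0 ≤ i ∧ i ≤ 11 ∧ i ≠ r0) ∧ Even i := by
    intro i hi; rw [Int.even_iff]; simp at hi; omega
  have mSo : ∀ i ∈ ({1, 3, 5, 7, 9, 11} : Finset ℤ).erase r0,
      (0 ≤ i ∧ i ≤ 11 ∧ i ≠ r0) ∧ Odd i := by
    intro i hi; rw [Int.odd_iff]; simp at hi; omega
  have n0m := hi.ne (i := 0) (j := m) (by omega) (by omega) (by omega) (by omega) (by omega)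
  have n02m := hi.ne (i := 0) (j := 2 * m) (by omega) (by omega) (by omega) (by omega) (by omega)
  by_cases b1 : β' = 2
  · exfalso
    subst b1
    have h2 := two_ne (Or.inl hκ) hi (by omega)
    obtain ⟨a, b, c, hf⟩ := cf2 hκ h2
    have hinj : Set.InjOn (fun i : ℤ => (i : F)) ((Finset.Icc (0 : ℤ) 9).erase r0) := by
      intro i hi' j hj' e
      obtain ⟨i0, i1, -⟩ := mS i hi'
      obtain ⟨j0, j1, -⟩ := mS j hj'
      apply hi i j i0 (by omega) j0 (by omega)
      simp only at e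
      rw [hf i i0 (by omega), hf j j0 (by omega), e]
    by_cases hc : c = 0
    · subst hc
      have hb : b ≠ 0 := by
        rintro rfl
        apply n0m
        rw [hf 0 (by omega) (by omega), hf m (by omega) (by omega)]; ring
      have := lin_par (β := β) (γ := γ) (ϱ := ϱ) h2 _ (by omega) _ hinj a (a + b * m) b hb (by
        intro i hi'
        obtain ⟨i0, i1, i2⟩ := mS i hi'
        have := h i i0 i1 i2
        rw [hf i i0 (by omega), hf (i + m) (by omega) (by omega)] at this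
        convert this using 2 <;> push_cast <;> ring)
      apply n0m
      rw [hf 0 (by omega) (by omega), hf m (by omega) (by omega)]
      push_cast; linear_combination this
    · obtain ⟨e1, e2, e3⟩ := quad_line (β := β) (γ := γ) (ϱ := ϱ) h2 _ hS _ hinj a
        (a + b * m + c * m ^ 2) b (b + 2 * c * m) c hc (by
        intro i hi'
        obtain ⟨i0, i1, i2⟩ := mS i hi'
        have := h i i0 i1 i2
        rw [hf i i0 (by omega), hf (i + m) (by omega) (by omega)] at this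
        convert this using 2 <;> push_cast <;> ring)
      obtain ⟨i, hi'⟩ : ((Finset.Icc (0 : ℤ) 9).erase r0).Nonempty := Finset.card_pos.1 (by omega)
      obtain ⟨i0, i1, i2⟩ := mS i hi'
      have := h i i0 i1 i2
      rw [e1, e2, e3] at this
      exact hi.ne i0 (by omega) (by omega) (by omega) (by omega) (QQ_two this)
  by_cases b2 : β' = -2
  · exfalso
    subst b2
    have h2 := two_ne (Or.inr hκ) hi (by omega)
    obtain ⟨a, b, c, hf⟩ := cf3 hκ h2
    have hc : c ≠ 0 := by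
      rintro rfl
      apply hi.ne (i := 0) (j := 2) (by omega) (by omega) (by omega) (by omega) (by omega)
      rw [hf 0 (by omega) (by omega), hf 2 (by omega) (by omega)]; norm_num
    have hie : Set.InjOn (fun i : ℤ => (i : F)) (({0, 2, 4, 6, 8, 10} : Finset ℤ).erase r0) := by
      intro i hi' j hj' e
      obtain ⟨⟨i0, i1, -⟩, i3⟩ := mSe i hi'
      obtain ⟨⟨j0, j1, -⟩, j3⟩ := mSe j hj'
      apply hi i j i0 (by omega) j0 (by omega)
      simp only at e
      rw [hf i i0 (by omega), hf j j0 (by omega), e, i3.neg_one_zpow, j3.neg_one_zpow]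
    have hio : Set.InjOn (fun i : ℤ => (i : F)) (({1, 3, 5, 7, 9, 11} : Finset ℤ).erase r0) := by
      intro i hi' j hj' e
      obtain ⟨⟨i0, i1, -⟩, i3⟩ := mSo i hi'
      obtain ⟨⟨j0, j1, -⟩, j3⟩ := mSo j hj'
      apply hi i j i0 (by omega) j0 (by omega)
      simp only at e
      rw [hf i i0 (by omega), hf j j0 (by omega), e, i3.neg_one_zpow, j3.neg_one_zpow]
    rcases Int.even_or_odd m with hm | hm
    · have := lin_par (β := β) (γ := γ) (ϱ := ϱ) h2 _ hSe _ hie (a + b) (a + b + c * m) c hc (by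
        intro i hi'
        obtain ⟨⟨i0, i1, i2⟩, i3⟩ := mSe i hi'
        have := h i i0 i1 i2
        rw [hf i i0 (by omega), hf (i + m) (by omega) (by omega), i3.neg_one_zpow,
          (i3.add hm).neg_one_zpow] at this
        convert this using 2 <;> push_cast <;> ring)
      apply n0m
      rw [hf 0 (by omega) (by omega), hf m (by omega) (by omega), hm.neg_one_zpow]
      simp only [zpow_zero]; push_cast; linear_combination this
    · obtain ⟨-, -, e1⟩ := lin_anti (β := β) (γ := γ) (ϱ := ϱ) _ hSe _ hie (a + b)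
        (a - b - c * m) c hc (by
        intro i hi'
        obtain ⟨⟨i0, i1, i2⟩, i3⟩ := mSe i hi'
        have := h i i0 i1 i2
        rw [hf i i0 (by omega), hf (i + m) (by omega) (by omega), i3.neg_one_zpow,
          (i3.add_odd hm).neg_one_zpow] at this
        convert this using 2 <;> push_cast <;> ring)
      obtain ⟨-, -, e2⟩ := lin_anti (β := β) (γ := γ) (ϱ := ϱ) _ hSo _ hio (a - b)
        (a + b + c * m) (-c) (neg_ne_zero.2 hc) (by
        intro i hi'
        obtain ⟨⟨i0, i1, i2⟩, i3⟩ := mSo i hi'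
        have := h i i0 i1 i2
        rw [hf i i0 (by omega), hf (i + m) (by omega) (by omega), i3.neg_one_zpow,
          (i3.add_odd hm).neg_one_zpow] at this
        convert this using 2 <;> push_cast <;> ring)
      apply n02m
      rw [hf 0 (by omega) (by omega), hf (2 * m) (by omega) (by omega),
        (even_two_mul m).neg_one_zpow]
      simp only [zpow_zero]; push_cast; linear_combination e1 - e2
  obtain ⟨σ, s0, s2, hσ⟩ := ex_sigma β' b1 b2
  obtain ⟨a, b, c, -, hf⟩ := cf1 hκ s0 s2 hσ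
  have hinj : Set.InjOn (fun i : ℤ => σ ^ i) ((Finset.Icc (0 : ℤ) 9).erase r0) := by
    intro i hi' j hj' e
    obtain ⟨i0, i1, -⟩ := mS i hi'
    obtain ⟨j0, j1, -⟩ := mS j hj'
    apply hi i j i0 (by omega) j0 (by omega)
    simp only at e
    rw [hf i i0 (by omega), hf j j0 (by omega), e]
  obtain ⟨e1, e2, e3, e4, e5⟩ := laur_diag (β := β) (γ := γ) (ϱ := ϱ) _ hS _ hinj
    (fun i _ => zpow_ne_zero i s0) a b c (σ ^ m) (zpow_ne_zero m s0) (by
      intro e
      apply n02m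
      rw [hf 0 (by omega) (by omega), hf (2 * m) (by omega) (by omega), mul_comm 2 m,
        zpow_mul, zpow_two, ← sq, e]; simp) (by
      by_contra hc
      push Not at hc
      apply n0m
      rw [hf 0 (by omega) (by omega), hf m (by omega) (by omega), hc.1, hc.2]; simp) (by
      intro i hi'
      obtain ⟨i0, i1, i2⟩ := mS i hi'
      have := h i i0 i1 i2
      rw [hf i i0 (by omega), hf (i + m) (by omega) (by omega), zpow_add₀ s0, mul_inv] at this
      convert this using 2; ring)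
  obtain ⟨μ, s, hs0, hg, hb⟩ : ∃ μ s : F, s ≠ 0 ∧ (∀ i : ℤ, 0 ≤ i → i ≤ d → κ i = μ * s ^ i) ∧
      β = s ^ m + (s ^ m)⁻¹ := by
    rcases mul_eq_zero.1 e5 with h | h
    · refine ⟨c, σ⁻¹, inv_ne_zero s0, fun i i0 i1 => ?_, ?_⟩
      · rw [hf i i0 i1, e4, h, inv_zpow]; ring
      · rw [e3, inv_zpow, inv_inv]; ring
    · refine ⟨b, σ, s0, fun i i0 i1 => ?_, e3⟩
      rw [hf i i0 i1, e4, h]; ring
  refine ⟨fun i i0 i1 => ?_, fun u v u0 huv v1 hk hu hq => ?_⟩
  · rw [hg i i0 i1.le, hg (i + 1) (by omega) (by omega), hg 0 (by omega) (by omega),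
      hg 1 (by omega) (by omega), zpow_add₀ hs0]
    simp only [zpow_zero]; ring
  · have hv : κ v = κ u * s ^ (v - u) := by
      rw [hg u u0 (by omega), hg v (by omega) v1, mul_assoc, ← zpow_add₀ hs0]; congr 2; ring
    rw [hv, e1, e2, hb] at hq
    have hmm : s ^ m * (s ^ m)⁻¹ = 1 := mul_inv_cancel₀ (zpow_ne_zero m hs0)
    have : κ u ^ 2 * ((s ^ (v - u) - s ^ m) * (s ^ (v - u) * s ^ m - 1)) = 0 := by
      unfold QQ at hq
      linear_combination s ^ m * hq + κ u ^ 2 * s ^ (v - u) * hmm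
    rcases mul_eq_zero.1 ((mul_eq_zero.1 this).resolve_left (pow_ne_zero 2 hu)) with h | h
    · apply hi _ _ (by omega) (by omega) (by omega) (by omega)
      rw [hg _ (by omega) (by omega), hg m (by omega) (by omega), sub_eq_zero.1 h]
    · exfalso
      apply hi.ne (i := v - u + m) (j := 0) (by omega) (by omega) (by omega) (by omega) (by omega)
      rw [hg _ (by omega) (by omega), hg 0 (by omega) (by omega), zpow_add₀ hs0, sub_eq_zero.1 h]
      simp

theorem lineA [IsAlgClosed F] (hκ : Rec d β' γ' κ) (hi : Inj d κ) (n : ℤ) (hn0 : 11 ≤ n)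
    (hn1 : n ≤ d + 1) (r0 : ℤ)
    (h : ∀ r : ℤ, 0 ≤ r → r ≤ 5 → r ≠ r0 → n - r ≤ d ∧ QQ β γ ϱ (κ r) (κ (n - r)) = 0) :
    β = -2 ∧ (β' = -2 → ϱ = 0 ∧ ∃ r s : ℤ, 0 < r ∧ r < d ∧ 0 ≤ s ∧ s ≤ d ∧ s ≠ r + 1 ∧
      s ≠ r - 1 ∧ κ s = - κ r) := by
  obtain ⟨S, hS, mS⟩ : ∃ S : Finset ℤ, 10 ≤ S.card ∧ ∀ i ∈ S, 0 ≤ i ∧ i ≤ d ∧ 0 ≤ n - i ∧
      n - i ≤ d ∧ i ≠ n - i ∧ QQ β γ ϱ (κ i) (κ (n - i)) = 0 := by
    have hG : 5 ≤ ((Finset.Icc (0 : ℤ) 5).erase r0).card := card_erase_ge _ _ _ (by simp)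
    refine ⟨(Finset.Icc (0 : ℤ) 5).erase r0 ∪ ((Finset.Icc (0 : ℤ) 5).erase r0).image (n - ·),
      ?_, ?_⟩
    · rw [Finset.card_union_of_disjoint, Finset.card_image_of_injective _ sub_right_injective]
      · omega
      · rw [Finset.disjoint_left]
        intro i h1 h2
        simp at h1 h2
        omega
    · intro i hi'
      rcases Finset.mem_union.1 hi' with h1 | h1
      · simp at h1
        obtain ⟨a1, a2⟩ := h i (by omega) (by omega) h1.1
        exact ⟨by omega, by omega, by omega, a1, by omega, a2⟩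
      · obtain ⟨j, hj, rfl⟩ := Finset.mem_image.1 h1
        simp at hj
        obtain ⟨a1, a2⟩ := h j (by omega) (by omega) hj.1
        refine ⟨by omega, by omega, by omega, by omega, by omega, ?_⟩
        rw [QQ_symm, sub_sub_cancel]; exact a2
  obtain ⟨i1, hi1⟩ : S.Nonempty := Finset.card_pos.1 (by omega)
  obtain ⟨k0, k1, k2, k3, k4, k5⟩ := mS i1 hi1
  have kne := hi.ne k0 k1 k2 k3 k4
  by_cases b1 : β' = 2
  · subst b1
    have h2 := two_ne (Or.inl hκ) hi (by omega)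
    obtain ⟨a, b, c, hf⟩ := cf2 hκ h2
    have hinj : Set.InjOn (fun i : ℤ => (i : F)) S := by
      intro i hi' j hj' e
      obtain ⟨i0, i1, -⟩ := mS i hi'
      obtain ⟨j0, j1, -⟩ := mS j hj'
      apply hi i j i0 i1 j0 j1
      simp only at e
      rw [hf i i0 i1, hf j j0 j1, e]
    by_cases hc : c = 0
    · subst hc
      have hb : b ≠ 0 := by
        rintro rfl
        apply kne
        rw [hf _ k0 k1, hf _ k2 k3]; ring
      obtain ⟨-, e, -⟩ := lin_anti (β := β) (γ := γ) (ϱ := ϱ) _ (by omega) _ hinj a (a + b * n)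
        b hb (by
        intro i hi'
        obtain ⟨i0, i1, i2, i3, -, this⟩ := mS i hi'
        rw [hf i i0 i1, hf _ i2 i3] at this
        convert this using 2 <;> push_cast <;> ring)
      exact ⟨e, fun e' => absurd (by linear_combination e' : (2 : F) * 2 = 0) (mul_ne_zero h2 h2)⟩
    · obtain ⟨e1, e2, e3⟩ := quad_line (β := β) (γ := γ) (ϱ := ϱ) h2 _ (by omega) _ hinj a
        (a + b * n + c * n ^ 2) b (-b - 2 * c * n) c hc (by
        intro i hi'
        obtain ⟨i0, i1, i2, i3, -, this⟩ := mS i hi'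
        rw [hf i i0 i1, hf _ i2 i3] at this
        convert this using 2 <;> push_cast <;> ring)
      rw [e1, e2, e3] at k5
      exact absurd (QQ_two k5) kne
  by_cases b2 : β' = -2
  · subst b2
    have h2 := two_ne (Or.inr hκ) hi (by omega)
    obtain ⟨a, b, c, hf⟩ := cf3 hκ h2
    have hc : c ≠ 0 := by
      rintro rfl
      apply hi.ne (i := 0) (j := 2) (by omega) (by omega) (by omega) (by omega) (by omega)
      rw [hf 0 (by omega) (by omega), hf 2 (by omega) (by omega)]; norm_num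
    obtain ⟨T, e, r, hT, hTS, he, hTe, r0', r1', hr⟩ : ∃ (T : Finset ℤ) (e : F) (r : ℤ),
        5 ≤ T.card ∧ T ⊆ S ∧ e * e = 1 ∧ (∀ i ∈ T, (-1 : F) ^ i = e) ∧ 1 ≤ r ∧ r ≤ 2 ∧
        (-1 : F) ^ r = e := by
      have := Finset.card_filter_add_card_filter_not (s := S) (fun i => Even i)
      by_cases h5 : 5 ≤ (S.filter fun i => Even i).card
      · exact ⟨_, 1, 2, h5, Finset.filter_subset _ _, by ring,
          fun i hi => (Finset.mem_filter.1 hi).2.neg_one_zpow, by omega, by omega, by norm_num⟩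
      · exact ⟨S.filter fun i => ¬ Even i, -1, 1, by omega, Finset.filter_subset _ _, by ring,
          fun i hi => (Int.not_even_iff_odd.1 (Finset.mem_filter.1 hi).2).neg_one_zpow,
          by omega, by omega, by norm_num⟩
    have he0 : e ≠ 0 := by rintro rfl; simp at he
    have hsub : ∀ i : ℤ, (-1 : F) ^ i = e → (-1 : F) ^ (n - i) = (-1) ^ n * e := by
      intro i hi'
      rw [zpow_sub₀ (neg_ne_zero.2 one_ne_zero), hi', div_eq_iff he0, mul_assoc, he, mul_one]
    have hinj : Set.InjOn (fun i : ℤ => (i : F)) T := by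
      intro i hi' j hj' e
      obtain ⟨i0, i1, -⟩ := mS i (hTS hi')
      obtain ⟨j0, j1, -⟩ := mS j (hTS hj')
      apply hi i j i0 i1 j0 j1
      simp only at e
      rw [hf i i0 i1, hf j j0 j1, e, hTe i hi', hTe j hj']
    rcases Int.even_or_odd n with hm | hm
    · obtain ⟨e1, e2, e3⟩ := lin_anti (β := β) (γ := γ) (ϱ := ϱ) _ hT _ hinj (a + e * b)
        (a + e * (b + c * n)) (e * c) (mul_ne_zero he0 hc) (by
        intro i hi'
        obtain ⟨i0, i1, i2, i3, -, this⟩ := mS i (hTS hi')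
        rw [hf i i0 i1, hf _ i2 i3, hsub i (hTe i hi'), hTe i hi', hm.neg_one_zpow] at this
        convert this using 2 <;> push_cast <;> ring)
      refine ⟨e2, fun _ => ⟨e1, r, n - r, by omega, by omega, by omega, by omega, ?_, ?_, ?_⟩⟩
      · rw [Int.even_iff] at hm; omega
      · rw [Int.even_iff] at hm; omega
      · rw [hf r (by omega) (by omega), hf _ (by omega) (by omega), hsub r hr, hr,
          hm.neg_one_zpow]
        push_cast; linear_combination e3
    · exfalso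
      have e1 := lin_par (β := β) (γ := γ) (ϱ := ϱ) h2 _ hT _ hinj (a + e * b)
        (a - e * (b + c * n)) (e * c) (mul_ne_zero he0 hc) (by
        intro i hi'
        obtain ⟨i0, i1, i2, i3, -, this⟩ := mS i (hTS hi')
        rw [hf i i0 i1, hf _ i2 i3, hsub i (hTe i hi'), hTe i hi', hm.neg_one_zpow] at this
        convert this using 2 <;> push_cast <;> ring)
      obtain ⟨i, hi'⟩ : T.Nonempty := Finset.card_pos.1 (by omega)
      obtain ⟨i0, i1, i2, i3, i4, -⟩ := mS i (hTS hi')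
      apply hi.ne i0 i1 i2 i3 i4
      rw [hf i i0 i1, hf _ i2 i3, hsub i (hTe i hi'), hTe i hi', hm.neg_one_zpow]
      push_cast; linear_combination e1
  refine ⟨?_, fun e => absurd e b2⟩
  obtain ⟨σ, s0, s2, hσ⟩ := ex_sigma β' b1 b2
  obtain ⟨a, b, c, -, hf⟩ := cf1 hκ s0 s2 hσ
  have hinj : Set.InjOn (fun i : ℤ => σ ^ i) S := by
    intro i hi' j hj' e
    obtain ⟨i0, i1, -⟩ := mS i hi'
    obtain ⟨j0, j1, -⟩ := mS j hj'
    apply hi i j i0 i1 j0 j1
    simp only at e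
    rw [hf i i0 i1, hf j j0 j1, e]
  have hn := zpow_ne_zero n s0
  obtain ⟨b', rfl⟩ : ∃ b', c = b' * σ ^ n := ⟨c / σ ^ n, by field_simp⟩
  have hy : ∀ i : ℤ, 0 ≤ n - i → n - i ≤ d →
      κ (n - i) = a + b' * σ ^ i + b * σ ^ n * (σ ^ i)⁻¹ := by
    intro i i2 i3
    have := zpow_ne_zero i s0
    rw [hf _ i2 i3, zpow_sub₀ s0]
    field_simp
    ring
  apply laur_anti (γ := γ) (ϱ := ϱ) S (by omega) _ hinj (fun i _ => zpow_ne_zero i s0) a b b'
    (σ ^ n) hn
  · by_contra hc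
    push Not at hc
    apply kne
    rw [hf _ k0 k1, hy _ k2 k3, hc.1, hc.2]
  · rintro rfl
    apply kne
    rw [hf _ k0 k1, hy _ k2 k3]
  · intro i hi'
    obtain ⟨i0, i1, i2, i3, -, this⟩ := mS i hi'
    rwa [hf i i0 i1, hy _ i2 i3] at this

end Pool.Agent.P.MP_2f562c_al
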