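import Mathlib
import Pool.Agent.P.MP_2f562c_al.Front
import Pool.Agent.P.MP_2f562c_al.Line2

namespace Pool.Agent.P.MP_2f562c_al

open Module

variable {F V : Type*} [Field F] [AddCommGroup V] [Module F V] {d : ℕ}

section
variable {β γ ϱ β' γ' : F} {κ : ℤ → F}

lemma QQ_map {L : Type*} [Field L] (φ : F →+* L) (x y : F) :
    QQ (φ β) (φ γ) (φ ϱ) (φ x) (φ y) = φ (QQ β γ ϱ x y) := by
  simp [QQ, map_ofNat]

lemma Rec.map {L : Type*} [Field L] (φ : F →+* L) (h : Rec d β' γ' κ) :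
    Rec d (φ β') (φ γ') (fun i => φ (κ i)) := by
  intro i h0 h1
  simpa using congrArg φ (h i h0 h1)

lemma Inj.map {L : Type*} [Field L] (φ : F →+* L) (h : Inj d κ) : Inj d (fun i => φ (κ i)) :=
  fun i j a b c e f => h i j a b c e (φ.injective f)

theorem lineD' (hκ : Rec d β' γ' κ) (hi : Inj d κ) (m : ℤ) (hm0 : 1 ≤ m)
    (hm1 : 2 * m ≤ d) (hd : 22 ≤ d) (r0 : ℤ)
    (h : ∀ r : ℤ, 0 ≤ r → r ≤ 11 → r ≠ r0 → QQ β γ ϱ (κ r) (κ (r + m)) = 0) :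
    (∀ i : ℤ, 0 ≤ i → i < d → κ (i + 1) * κ 0 = κ i * κ 1) ∧
      ∀ u v : ℤ, 0 ≤ u → u < v → v ≤ d → v - u ≤ m → κ u ≠ 0 → QQ β γ ϱ (κ u) (κ v) = 0 →
        v - u = m := by
  let φ := algebraMap F (AlgebraicClosure F)
  obtain ⟨h1, h2⟩ := lineD (β := φ β) (γ := φ γ) (ϱ := φ ϱ) (hκ.map φ) (hi.map φ) m hm0 hm1 hd r0
    (fun r a b c => by rw [QQ_map, h r a b c, map_zero])
  refine ⟨fun i a b => φ.injective (by simpa using h1 i a b), fun u v a b c e f g =>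
    h2 u v a b c e (by simpa using f) (by rw [QQ_map, g, map_zero])⟩

theorem lineA' (hκ : Rec d β' γ' κ) (hi : Inj d κ) (n : ℤ) (hn0 : 11 ≤ n)
    (hn1 : n ≤ d + 1) (r0 : ℤ)
    (h : ∀ r : ℤ, 0 ≤ r → r ≤ 5 → r ≠ r0 → n - r ≤ d ∧ QQ β γ ϱ (κ r) (κ (n - r)) = 0) :
    β = -2 ∧ (β' = -2 → ϱ = 0 ∧ ∃ r s : ℤ, 0 < r ∧ r < d ∧ 0 ≤ s ∧ s ≤ d ∧ s ≠ r + 1 ∧
      s ≠ r - 1 ∧ κ s = - κ r) := by
  let φ := algebraMap F (AlgebraicClosure F)
  obtain ⟨h1, h2⟩ := lineA (β := φ β) (γ := φ γ) (ϱ := φ ϱ) (hκ.map φ) (hi.map φ) n hn0 hn1 r0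
    (fun r a b c => ⟨(h r a b c).1, by rw [QQ_map, (h r a b c).2, map_zero]⟩)
  refine ⟨φ.injective (by rw [h1, map_neg, map_ofNat]), fun e => ?_⟩
  obtain ⟨h3, r, s, a1, a2, a3, a4, a5, a6, a7⟩ := h2 (by rw [e, map_neg, map_ofNat])
  exact ⟨φ.injective (by rw [h3, map_zero]), r, s, a1, a2, a3, a4, a5, a6,
    φ.injective (by simpa using a7)⟩

lemma PP_symm (x y : F) : PP β γ ϱ x y = PP β γ ϱ y x := by unfold PP; ring

lemma QQ_of_PP {x y : F} (hx : x ≠ 0) (hy : y ≠ 0) (h : PP β γ ϱ x⁻¹ y⁻¹ = 0) :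
    QQ β γ ϱ x y = 0 := by
  unfold PP at h
  unfold QQ
  field_simp at h
  linear_combination h
end

variable {A X K Ki : V →ₗ[F] V}

lemma Dg.ne_zero {b : Basis (Fin (d + 1)) F V} {κ : ℤ → F} (h : Dg b K κ)
    (hK : ∀ x, Ki (K x) = x) (v : ℤ) (h0 : 0 ≤ v) (h1 : v ≤ d) : κ v ≠ 0 := by
  intro e
  have := hK (ee b v)
  rw [h v, e, zero_smul, map_zero] at this
  have h2 := ph_ee_self b h0 h1
  rw [← this, map_zero] at h2
  exact zero_ne_one h2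

lemma Dg.inv {b : Basis (Fin (d + 1)) F V} {κ : ℤ → F} (h : Dg b K κ)
    (hK : ∀ x, Ki (K x) = x) : Dg b Ki (fun v => (κ v)⁻¹) := by
  intro v
  by_cases hv : 0 ≤ v ∧ v ≤ d
  · have := hK (ee b v)
    rw [h v, map_smul] at this
    have h0 := h.ne_zero hK v hv.1 hv.2
    conv_rhs => rw [← this]
    rw [smul_smul, inv_mul_cancel₀ h0, one_smul]
  · rw [ee_out b (by omega)]; simp

theorem halfAlign (hd : 80 ≤ d) {b bx : Basis (Fin (d + 1)) F V}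
    {lo di up κ ξ l2 d2 u2 : ℤ → F} {β γ ϱ g0 g1 g2 β' γ' β'' γ'' ϱ'' k0 k1 k2 : F}
    (hA : Tri b A lo di up) (hz : NZ d lo up) (hK : Dg b K κ) (hKi : ∀ x, Ki (K x) = x)
    (hi : Inj d κ) (hr : Rec d β' γ' κ) (h1 : AW A X β γ ϱ g0 g1 g2) (hβ : NR β)
    (h2 : AW Ki X β'' γ'' ϱ'' k0 k1 k2) (hX : Dg bx X ξ) (hξ : Inj d ξ)
    (hT : Tri bx Ki l2 d2 u2) (hz2 : NZ d l2 u2) :
    ((∀ i : ℤ, 0 ≤ i → i < d → κ (i + 1) * κ 0 = κ i * κ 1) ∧
      ∃ r x s : ℤ → F, Tri b X r x s ∧ NZ d r s) ∨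
    (β'' = -2 ∧ (β' = -2 → ϱ'' = 0 ∧ ∃ r s : ℤ, 0 < r ∧ r < d ∧ 0 ≤ s ∧ s ≤ d ∧ s ≠ r + 1 ∧
      s ≠ r - 1 ∧ κ s = - κ r)) := by
  have hn := hK.ne_zero hKi
  have hD := hK.inv hKi
  have hY : ∀ u v : ℤ, u < 0 ∨ (d : ℤ) < u ∨ v < 0 ∨ (d : ℤ) < v → ph b u (X (ee b v)) = 0 := by
    intro u v h
    by_cases hu : u < 0 ∨ (d : ℤ) < u
    · rw [ph_out b hu]; rfl
    · rw [ee_out b (by omega)]; simp
  have hrange : ∀ u v, ph b u (X (ee b v)) ≠ 0 → 0 ≤ u ∧ u ≤ d ∧ 0 ≤ v ∧ v ≤ d := by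
    intro u v h
    by_contra hc
    exact h (hY u v (by omega))
  obtain ⟨k, l, hkl, hk⟩ : ∃ k l : ℤ, k ≠ l ∧ ph b k (X (ee b l)) ≠ 0 := by
    by_contra hc
    push Not at hc
    have := cut hX hξ hT hz2 hD (fun u => u = 0) (fun u v _ _ _ _ hv hne => by
      by_contra e
      exact hne (hc u v (by omega))) 0 1 (by omega) (by omega) (by omega) (by omega) rfl
    omega
  rcases fronts (di := di) (γ := γ) (ϱ := ϱ) hβ hz hd hY (fun u v h => h1.far hA (by omega))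
    (fun u v => PP β'' γ'' ϱ'' (κ u)⁻¹ (κ v)⁻¹ = 0)
    (fun u v huv h => ⟨h2.offdiag hD huv h, by rw [PP_symm]; exact h2.offdiag hD huv h⟩)
    (fun u v1 v2 v3 a0 a1 a2 a3 a4 c1 c2 c3 => by
      rw [PP_symm] at c1
      have e1 := PP_rec c1 c2 (fun e => hi.ne (by omega) (by omega) (by omega) (by omega)
        (by omega : v1 ≠ v2) (inv_injective e))
      have e2 := PP_rec c1 c3 (fun e => hi.ne (by omega) (by omega) (by omega) (by omega)
        (by omega : v1 ≠ v3) (inv_injective e))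
      exact hi.ne (by omega) (by omega) (by omega) (by omega) (by omega : v2 ≠ v3)
        (inv_injective (by linear_combination e1 - e2))) k l hkl hk with
    ⟨m, r0, m0, m1, htop, hR⟩ | ⟨n, r0, n0, n1, hR⟩
  · left
    obtain ⟨g, hm⟩ := lineD' (β := β'') (γ := γ'') (ϱ := ϱ'') hr hi m m0 m1 (by omega) r0
      (fun r a b c => QQ_of_PP (hn _ a (by omega)) (hn _ (by omega) (by omega)) (hR r a b c))
    have hoff : ∀ u v, u ≠ v → ph b u (X (ee b v)) ≠ 0 → v - u = m ∨ u - v = m := by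
      intro u v huv h
      obtain ⟨a1, a2, a3, a4⟩ := hrange u v h
      have hP := h2.offdiag hD huv h
      have hle : v - u ≤ m ∧ u - v ≤ m := by
        by_contra hc
        exact h (htop u v (by omega))
      rcases lt_or_gt_of_ne huv with e | e
      · exact Or.inl (hm u v a1 e a4 hle.1 (hn _ a1 a2) (QQ_of_PP (hn _ a1 a2) (hn _ a3 a4) hP))
      · rw [PP_symm] at hP
        exact Or.inr (hm v u a3 e a2 hle.2 (hn _ a3 a4) (QQ_of_PP (hn _ a3 a4) (hn _ a1 a2) hP))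
    have hm1 : m = 1 := by
      have := cut hX hξ hT hz2 hD (fun u => m ∣ u) (fun u v _ _ _ _ hv hne => by
        by_cases e : u = v
        · rwa [e]
        rcases hoff u v e hne with e1 | e1
        · have : u = v - m := by omega
          rw [this]; exact dvd_sub hv dvd_rfl
        · have : u = v + m := by omega
          rw [this]; exact dvd_add hv dvd_rfl) 0 1 (by omega) (by omega) (by omega) (by omega)
        (dvd_zero m)
      have := Int.le_of_dvd one_pos this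
      omega
    have hT' := tri_of_ent (b := b) (A := X) (fun u v _ _ _ _ h => htop u v (by omega))
    exact ⟨g, _, _, _, hT', nz_of_cut hX hξ hT hz2 hD hT'⟩
  · right
    exact lineA' (γ := γ'') hr hi n n0 n1 r0 (fun r a b c => ⟨(hR r a b c).1,
      QQ_of_PP (hn _ a (by omega)) (hn _ (by omega) (hR r a b c).1) (hR r a b c).2⟩)

theorem align (hd : 80 ≤ d) {β γ ϱ g0 g1 g2 γ2 ϱ2 f0 f1 f2 : F}
    (h1 : AW A X β γ ϱ g0 g1 g2) (h1' : AW X A β γ2 ϱ2 f0 f1 f2) (hβ : NR β)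
    (hKi : ∀ x, Ki (K x) = x) (hiK : ∀ x, K (Ki x) = x)
    (hAK : LeonardPair d A K) (hXK : LeonardPair d X Ki) :
    ∃ (b : Basis (Fin (d + 1)) F V) (lo di up κ r x s : ℤ → F), Tri b A lo di up ∧ NZ d lo up ∧
      Dg b K κ ∧ Inj d κ ∧ (∀ i : ℤ, 0 ≤ i → i < d → κ (i + 1) * κ 0 = κ i * κ 1) ∧
      Tri b X r x s ∧ NZ d r s := by
  obtain ⟨⟨ba, ha⟩, ⟨b, hb⟩⟩ := hAK
  obtain ⟨⟨bx, hx⟩, ⟨b', hb'⟩⟩ := hXK
  obtain ⟨θ, l1, d1, u1, hA1, hK1, hz1, -⟩ := ha.unpack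
  obtain ⟨κ, lo, di, up, hK, hA, hz, -⟩ := hb.unpack
  obtain ⟨ξ, l2, d2, u2, hX2, hK2, hz2, -⟩ := hx.unpack
  obtain ⟨κ', r, x, s, hK', hX', hz', -⟩ := hb'.unpack
  have i1 := inj_of hA1 hA hz
  have i2 := inj_of hK hK1 hz1
  have i3 := inj_of hX2 hX' hz'
  have i4 := inj_of hK' hK2 hz2
  obtain ⟨β', γ', ϱ', k0, k1, k2, w1⟩ := halfAW (by omega) hK hA hz hA1 hK1 hz1
  obtain ⟨β'', γ'', ϱ'', j0, j1, j2, w2⟩ := halfAW (by omega) hK' hX' hz' hX2 hK2 hz2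
  have r1 : Rec d β' γ' κ := w1.recur hK hA hz i2
  have r2 : Rec d β'' γ'' κ' := w2.recur hK' hX' hz' i4
  rcases halfAlign hd hA hz hK hKi i2 r1 h1 hβ w2 hX2 i3 hK2 hz2 with
    ⟨g, r, x, s, t1, t2⟩ | ⟨e1, e2⟩
  · exact ⟨b, lo, di, up, κ, r, x, s, hA, hz, hK, i2, g, t1, t2⟩
  exfalso
  rcases halfAlign hd hX' hz' hK' hiK i4 r2 h1' hβ w1 hA1 i1 hK1 hz1 with
    ⟨g, -⟩ | ⟨e3, e4⟩
  · have a0 := r2 0 (by omega) (by omega)
    have a1 := r2 1 (by omega) (by omega)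
    have c1 := g 1 (by omega) (by omega)
    have c2 := g 2 (by omega) (by omega)
    have n0 := hK'.ne_zero hiK 0 (by omega) (by omega)
    have n1 := sub_ne_zero.2 (i4.ne (i := 0) (j := 1) (by omega) (by omega) (by omega) (by omega)
      (by omega))
    rw [e1] at a0 a1
    norm_num at a0 a1 c1 c2
    have : (κ' 0 - κ' 1) * (κ' 0 + κ' 1) ^ 2 = 0 := by
      linear_combination κ' 0 ^ 2 * (a0 - a1) + (κ' 0 + κ' 1) * c1 + κ' 0 * c2
    have h3 : κ' 0 + κ' 1 = 0 :=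
      pow_eq_zero_iff two_ne_zero |>.1 ((mul_eq_zero.1 this).resolve_left n1)
    apply i4.ne (i := 0) (j := 2) (by omega) (by omega) (by omega) (by omega) (by omega)
    apply mul_left_cancel₀ n0
    linear_combination -c1 + (κ' 0 - κ' 1) * h3
  · obtain ⟨-, r, s, a1, a2, a3, a4, a5, a6, a7⟩ := e2 e3
    have p1 := w1.adj hK hA hz r (by omega) (by omega)
    have p2 := w1.adj hK hA hz (r - 1) (by omega) (by omega)
    rw [sub_add_cancel] at p2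
    rw [e3, (e4 e1).1] at p1 p2
    unfold PP at p1 p2
    have n1 := sub_ne_zero.2 (i2.ne (i := r + 1) (j := s) (by omega) (by omega) a3 a4 (by omega))
    have n2 := sub_ne_zero.2 (i2.ne (i := r - 1) (j := s) (by omega) (by omega) a3 a4 (by omega))
    rw [a7] at n1 n2
    have q1 : κ r + κ (r + 1) - γ' = 0 := by
      apply mul_left_cancel₀ n1; linear_combination p1
    have q2 : κ r + κ (r - 1) - γ' = 0 := by
      apply mul_left_cancel₀ n2; linear_combination p2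
    exact i2.ne (i := r + 1) (j := r - 1) (by omega) (by omega) (by omega) (by omega) (by omega)
      (by linear_combination q1 - q2)

end Pool.Agent.P.MP_2f562c_al
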