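import Mathlib
import Pool.Agent.P.MP_2f562c_al.Seq

namespace Pool.Agent.P.MP_2f562c_al

variable {F : Type*} [Field F]

lemma twoExp (n : ℕ) {σ τ : F} (h0 : σ ≠ 0) (hσ : ∀ j k, j < n → k < n → σ ^ j = σ ^ k → j = k)
    (hτ : ∀ j, j + 1 < 2 * n → τ ≠ σ ^ j) (α β : ℕ → F) (i0 : ℕ)
    (h : ∀ i : ℕ, i0 ≤ i → i < i0 + 2 * n → ∑ j ∈ Finset.range n, α j * (σ ^ i) ^ j =
      τ ^ i * ∑ j ∈ Finset.range n, β j * (σ ^ i)⁻¹ ^ j) (j : ℕ) (hj : j < n) : α j = 0 := by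
  apply iso (((Finset.range n).erase j).disjSum (Finset.range n))
    (Sum.elim (fun k => σ ^ k) (fun k => τ * σ⁻¹ ^ k)) (σ ^ j) (pow_ne_zero _ h0) ?_
    (Sum.elim α (fun k => - β k)) (α j) i0
  · intro i hi0 hi1
    rw [Finset.card_disjSum, Finset.card_erase_of_mem (Finset.mem_range.2 hj),
      Finset.card_range] at hi1
    have := h i hi0 (by omega)
    rw [← Finset.add_sum_erase _ _ (Finset.mem_range.2 hj), Finset.mul_sum] at this
    rw [Finset.sum_disjSum]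
    simp only [Sum.elim_inl, Sum.elim_inr]
    have e1 : ∑ k ∈ (Finset.range n).erase j, α k * (σ ^ k) ^ i =
        ∑ k ∈ (Finset.range n).erase j, α k * (σ ^ i) ^ k :=
      Finset.sum_congr rfl fun k _ => by rw [← pow_mul, ← pow_mul, mul_comm k i]
    have e2 : ∑ k ∈ Finset.range n, - β k * (τ * σ⁻¹ ^ k) ^ i =
        - ∑ k ∈ Finset.range n, τ ^ i * (β k * (σ ^ i)⁻¹ ^ k) := by
      rw [← Finset.sum_neg_distrib]
      exact Finset.sum_congr rfl fun k _ => by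
        rw [← inv_pow, mul_pow, ← pow_mul, ← pow_mul, mul_comm k i]; ring
    rw [e1, e2, ← pow_mul, mul_comm j i, pow_mul]
    linear_combination this
  · rintro (k | k) hk
    · simp only [Finset.inl_mem_disjSum, Finset.mem_erase, Finset.mem_range] at hk
      exact fun e => hk.1 (hσ k j hk.2 hj e)
    · simp only [Finset.inr_mem_disjSum, Finset.mem_range] at hk
      intro e
      simp only [Sum.elim_inr] at e
      apply hτ (j + k) (by omega)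
      rw [pow_add, ← e, mul_assoc, ← mul_pow, inv_mul_cancel₀ h0]; simp

lemma factorC {σ N a1 p C0 C1 C2 : F} (h0 : N ≠ 0) (h1 : N ≠ 1)
    (e1 : C0 + C1 + C2 + σ * N * a1 * p + σ * N ^ 2 * p ^ 2 = 0)
    (e2 : C0 + C1 * N⁻¹ + C2 * N⁻¹ ^ 2 + σ * N * a1 * p * N⁻¹ ^ 3 + σ * N ^ 2 * p ^ 2 * N⁻¹ ^ 4 = 0)
    (w : F) : C0 + C1 * w + C2 * w ^ 2 + σ * N * a1 * p * w ^ 3 + σ * N ^ 2 * p ^ 2 * w ^ 4 =
      (1 - w) * (1 - N * w) * (C0 + σ * p * (a1 + (N + 1) * p) * w + σ * N * p ^ 2 * w ^ 2) := by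
  field_simp at e2
  have c1 : C1 = σ * p * (a1 + (N + 1) * p) - (N + 1) * C0 := by
    apply mul_left_cancel₀ (sub_ne_zero.2 h1)
    linear_combination e2 - e1
  have c2 : C2 = -(C0 + C1 + σ * N * a1 * p + σ * N ^ 2 * p ^ 2) := by linear_combination e1
  rw [c2, c1]; ring

lemma pzs {σ : F} (h0 : σ ≠ 0) (hσ : ∀ k : ℕ, 0 < k → k ≤ 9 → σ ^ k ≠ 1)
    (f0 f1 f2 f3 f4 f5 f6 f7 f8 : F)
    (h : ∀ i : ℤ, 1 ≤ i → i ≤ 9 → f0 + f1 * σ ^ i + f2 * (σ ^ i) ^ 2 + f3 * (σ ^ i) ^ 3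
      + f4 * (σ ^ i) ^ 4 + f5 * (σ ^ i) ^ 5 + f6 * (σ ^ i) ^ 6 + f7 * (σ ^ i) ^ 7
      + f8 * (σ ^ i) ^ 8 = 0) :
    f0 = 0 ∧ f1 = 0 ∧ f2 = 0 ∧ f3 = 0 ∧ f4 = 0 ∧ f5 = 0 ∧ f6 = 0 ∧ f7 = 0 ∧ f8 = 0 := by
  apply pz9 (Finset.Icc (1 : ℤ) 9) (by simp) (fun i => σ ^ i)
  · have key : ∀ i j : ℤ, 1 ≤ i → i < j → j ≤ 9 → σ ^ i ≠ σ ^ j := by
      intro i j a b c e
      apply hσ (j - i).toNat (by omega) (by omega)
      rw [← zpow_natCast, show (((j - i).toNat : ℕ) : ℤ) = j - i by omega, zpow_sub₀ h0, e,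
        div_self (zpow_ne_zero _ h0)]
    intro i hi j hj e
    simp only [Finset.coe_Icc, Set.mem_Icc] at hi hj
    rcases lt_trichotomy i j with h | h | h
    · exact absurd e (key i j hi.1 h hj.2)
    · exact h
    · exact absurd e.symm (key j i hj.1 h hi.2)
  · intro i hi
    rw [Finset.mem_Icc] at hi
    exact h i hi.1 hi.2

theorem classify {d : ℕ} (hd : 12 ≤ d) {σ β ρ ρ' r r' a0 a1 p C0 C1 C2 x0 x1 p' D0 D1 D2 : F}
    {a c x c' : ℤ → F} (hβ : NR β) (h0 : σ ≠ 0) (hσ : ∀ k : ℕ, 0 < k → k ≤ d → σ ^ k ≠ 1)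
    (hρ0 : ρ ≠ 0) (hρ : ρ + ρ⁻¹ = β) (hρ0' : ρ' ≠ 0) (hρ' : ρ' + ρ'⁻¹ = β) (hr : r ≠ 0)
    (hr' : r' ≠ 0)
    (ha : ∀ i : ℤ, 0 ≤ i → i ≤ d →
      a i = a0 + a1 * (σ ^ i)⁻¹ + (1 + σ) * σ⁻¹ * σ ^ (d + 1) * p * (σ ^ i)⁻¹ ^ 2)
    (hc : ∀ i : ℤ, 0 ≤ i → i ≤ d + 1 → c i = C0 + C1 * (σ ^ i)⁻¹ + C2 * (σ ^ i)⁻¹ ^ 2
      + σ * σ ^ (d + 1) * a1 * p * (σ ^ i)⁻¹ ^ 3 + σ * (σ ^ (d + 1)) ^ 2 * p ^ 2 * (σ ^ i)⁻¹ ^ 4)
    (hx : ∀ i : ℤ, 0 ≤ i → i ≤ d →
      x i = x0 + x1 * σ ^ i + (1 + σ) * (σ ^ (d + 1))⁻¹ * p' * (σ ^ i) ^ 2)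
    (hc' : ∀ i : ℤ, 0 ≤ i → i ≤ d + 1 → c' i = D0 + D1 * σ ^ i + D2 * (σ ^ i) ^ 2
      + σ⁻¹ * (σ ^ (d + 1))⁻¹ * x1 * p' * (σ ^ i) ^ 3
      + σ⁻¹ * (σ ^ (d + 1))⁻¹ ^ 2 * p' ^ 2 * (σ ^ i) ^ 4)
    (c0 : c 0 = 0) (cd : c (d + 1) = 0) (c0' : c' 0 = 0) (cd' : c' (d + 1) = 0)
    (cn : ∀ i : ℤ, 1 ≤ i → i ≤ d → c i ≠ 0)
    (hcc : ∀ i : ℤ, 1 ≤ i → i ≤ d → ρ * ρ' * c' i = r * r' * (ρ * ρ') ^ i * c i)
    (hy : ∀ i : ℤ, 0 ≤ i → i < d → x (i + 1) - ρ * x i = r * ρ ^ i * (ρ * a (i + 1) - a i))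
    (hy' : ∀ i : ℤ, 0 ≤ i → i < d → x (i + 1) - ρ' * x i = r' * ρ' ^ i * (ρ' * a (i + 1) - a i)) :
    ρ' = ρ ∧ (∀ k : ℕ, 0 < k → σ ^ k ≠ 1) ∧
    (∀ i : ℤ, 0 ≤ i → i ≤ d + 1 → c i = (1 - (σ ^ i)⁻¹) * (1 - σ ^ (d + 1) * (σ ^ i)⁻¹) *
      (C0 + σ * p * (a1 + (σ ^ (d + 1) + 1) * p) * (σ ^ i)⁻¹
        + σ * σ ^ (d + 1) * p ^ 2 * (σ ^ i)⁻¹ ^ 2)) ∧
    ((ρ = σ ∧ p = 0 ∧ p' = 0) ∨ (ρ = -σ ∧ ρ ≠ σ ∧ a1 = 0 ∧ p = 0 ∧ x1 = 0 ∧ p' = 0) ∨
     (ρ = σ ^ 2 ∧ r' = r ∧ σ * x1 = - r * a1 ∧ ∃ u, σ * p' = r * σ ^ (d + 1) * u ∧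
        C0 = σ * u ^ 2 ∧ (u + p) * (a1 - (σ ^ (d + 1) + 1) * (u - p)) = 0) ∨
     (ρ = σ ^ 2 ∧ r' ≠ r ∧ a1 = 0 ∧ x1 = 0 ∧ C0 = σ * p ^ 2 ∧
        ∃ ν, σ * p' = ν * σ ^ (d + 1) * p ∧ ν ^ 2 = r * r')) := by
  have hσ9 : ∀ k : ℕ, 0 < k → k ≤ 9 → σ ^ k ≠ 1 := fun k a b => hσ k a (by omega)
  have hinj : ∀ j k : ℕ, j ≤ d → k ≤ d → σ ^ j = σ ^ k → j = k := by
    have key : ∀ j k : ℕ, j < k → k ≤ d → σ ^ j ≠ σ ^ k := by
      intro j k a b e
      apply hσ (k - j) (by omega) (by omega)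
      rw [pow_sub₀ _ h0 a.le, ← e, mul_inv_cancel₀ (pow_ne_zero _ h0)]
    intro j k a b e
    rcases lt_trichotomy j k with h | h | h
    · exact absurd e (key j k h b)
    · exact h
    · exact absurd e.symm (key k j h a)
  have hN : σ ^ (d + 1) ≠ 0 := pow_ne_zero _ h0
  have hNz : σ ^ ((d : ℤ) + 1) = σ ^ (d + 1) := by norm_cast
  generalize hNe : σ ^ (d + 1) = N at *
  have hz := fun i : ℤ => zpow_ne_zero i h0
  have c1 := cn 1 (by omega) (by omega)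
  have hrr : ρ' = ρ := by
    by_contra hne
    have hτ : ρ * ρ' = 1 := by
      apply mul_left_cancel₀ (sub_ne_zero.2 hne)
      have a := mul_inv_cancel₀ hρ0
      have b := mul_inv_cancel₀ hρ0'
      linear_combination ρ * ρ' * (hρ' - hρ) + ρ' * a - ρ * b
    obtain ⟨f0, f1, f2, f3, -⟩ := pzs h0 hσ9 (-(r * r' * (σ * N ^ 2 * p ^ 2)))
      (-(r * r' * (σ * N * a1 * p))) (-(r * r' * C2)) (-(r * r' * C1)) (D0 - r * r' * C0) D1 D2
      (σ⁻¹ * N⁻¹ * x1 * p') (σ⁻¹ * N⁻¹ ^ 2 * p' ^ 2) (by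
        intro i a b
        have := hcc i a (by omega)
        rw [hτ, one_zpow, hc i (by omega) (by omega), hc' i (by omega) (by omega)] at this
        have t := hz i
        generalize σ⁻¹ = s at *
        generalize N⁻¹ = M at *
        field_simp at this
        linear_combination this)
    have e := hc 0 (by omega) (by omega)
    rw [c0] at e
    simp only [zpow_zero, inv_one] at e
    apply c1
    apply mul_left_cancel₀ (mul_ne_zero hr hr')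
    rw [hc 1 (by omega) (by omega)]
    linear_combination (1 - (σ ^ (1 : ℤ))⁻¹ ^ 4) * f0 + (1 - (σ ^ (1 : ℤ))⁻¹ ^ 3) * f1
      + (1 - (σ ^ (1 : ℤ))⁻¹ ^ 2) * f2 + (1 - (σ ^ (1 : ℤ))⁻¹) * f3 - r * r' * e
  subst hrr
  have hnr : ∀ k : ℕ, 0 < k → σ ^ k ≠ 1 := by
    obtain ⟨j, hj⟩ : ∃ j : ℕ, ρ' * ρ' = σ ^ j := by
      by_contra hcon
      push Not at hcon
      have := twoExp 5 h0 (fun j k a b => hinj j k (by omega) (by omega)) (fun j _ => hcon j)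
        (fun k => ρ' * ρ' * [D0, D1, D2, σ⁻¹ * N⁻¹ * x1 * p', σ⁻¹ * N⁻¹ ^ 2 * p' ^ 2].getD k 0)
        (fun k => r * r' * [C0, C1, C2, σ * N * a1 * p, σ * N ^ 2 * p ^ 2].getD k 0) 1 (by
          intro i a b
          have := hcc i (by omega) (by omega)
          rw [hc i (by omega) (by omega), hc' i (by omega) (by omega)] at this
          simp only [Finset.sum_range_succ, Finset.range_zero, Finset.sum_empty,
            List.getD_cons_zero, List.getD_cons_succ]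
          simp only [zpow_natCast] at this
          linear_combination this)
      have f0 := this 0 (by omega)
      have f1 := this 1 (by omega)
      have f2 := this 2 (by omega)
      have f3 := this 3 (by omega)
      have f4 := this 4 (by omega)
      simp only [List.getD_cons_zero, List.getD_cons_succ] at f0 f1 f2 f3 f4
      have := hcc 1 (by omega) (by omega)
      rw [hc' 1 (by omega) (by omega)] at this
      apply mul_ne_zero (mul_ne_zero (mul_ne_zero hr hr') (zpow_ne_zero 1 (mul_ne_zero hρ0 hρ0))) c1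
      linear_combination -this + f0 + σ ^ (1 : ℤ) * f1 + (σ ^ (1 : ℤ)) ^ 2 * f2
        + (σ ^ (1 : ℤ)) ^ 3 * f3 + (σ ^ (1 : ℤ)) ^ 4 * f4
    intro k hk e
    apply hβ.pow_ne hρ0 hρ (2 * k) (by omega)
    rw [pow_mul, sq, hj, ← pow_mul, mul_comm, pow_mul, e, one_pow]
  have hN1 : N ≠ 1 := by rw [← hNe]; exact hnr _ (by omega)
  have hN2 : N + 1 ≠ 0 := by
    intro e
    apply hnr ((d + 1) * 2) (by omega)
    rw [pow_mul, hNe]; linear_combination (N - 1) * e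
  have hs1 : 1 - σ ≠ 0 := fun e => hnr 1 one_pos (by linear_combination -e)
  have hs2 : 1 + σ ≠ 0 := fun e => hnr 2 two_pos (by linear_combination (σ - 1) * e)
  have fC := factorC (σ := σ) (a1 := a1) (p := p) (C0 := C0) (C1 := C1) (C2 := C2) hN hN1 (by
      have e := hc 0 (by omega) (by omega)
      rw [c0] at e
      simp only [zpow_zero, inv_one] at e
      linear_combination -e) (by
      have e := hc (d + 1) (by omega) (by omega)
      rw [cd, hNz] at e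
      linear_combination -e)
  have fD := factorC (σ := σ⁻¹) (a1 := x1) (p := p') (C0 := D0) (C1 := D1) (C2 := D2)
    (inv_ne_zero hN) (fun e => hN1 (inv_eq_one.1 e)) (by
      have e := hc' 0 (by omega) (by omega)
      rw [c0'] at e
      simp only [zpow_zero] at e
      linear_combination -e) (by
      have e := hc' (d + 1) (by omega) (by omega)
      rw [cd', hNz] at e
      rw [inv_inv]
      linear_combination -e)
  have hcf : ∀ i : ℤ, 0 ≤ i → i ≤ d + 1 → c i = (1 - (σ ^ i)⁻¹) * (1 - N * (σ ^ i)⁻¹) *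
      (C0 + σ * p * (a1 + (N + 1) * p) * (σ ^ i)⁻¹ + σ * N * p ^ 2 * (σ ^ i)⁻¹ ^ 2) :=
    fun i a b => by rw [hc i a b, fC]
  refine ⟨rfl, hnr, hcf, ?_⟩
  have hE : ∀ i : ℤ, 1 ≤ i → i ≤ d → ρ' ^ 2 * σ * (σ ^ i) ^ 4 * (σ * N * D0
      + p' * (N * x1 + (N + 1) * p') * σ ^ i + p' ^ 2 * (σ ^ i) ^ 2) =
      r * r' * σ ^ 2 * N ^ 2 * (ρ' ^ i) ^ 2 * (C0 * (σ ^ i) ^ 2 + σ * p * (a1 + (N + 1) * p) * σ ^ i
        + σ * N * p ^ 2) := by
    intro i a b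
    have e := hcc i a b
    have n := cn i a b
    rw [hcf i (by omega) (by omega)] at e n
    rw [hc' i (by omega) (by omega), fD, mul_zpow] at e
    have t := hz i
    have n1 : σ ^ i - 1 ≠ 0 := by
      intro e; apply n; rw [sub_eq_zero.1 e]; simp
    have n2 : σ ^ i - N ≠ 0 := by
      intro e; apply n; rw [sub_eq_zero.1 e, mul_inv_cancel₀ hN]; simp
    generalize σ ^ i = T at *
    generalize ρ' ^ i = U at *
    apply mul_left_cancel₀ (mul_ne_zero n1 n2)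
    field_simp at e
    linear_combination σ * e
  have hE0 : ¬ (C0 = 0 ∧ p = 0) := by
    rintro ⟨e1, e2⟩
    apply c1
    rw [hcf 1 (by omega) (by omega), e1, e2]; ring
  have hY : ∀ r : F, (∀ i : ℤ, 0 ≤ i → i < d →
      x (i + 1) - ρ' * x i = r * ρ' ^ i * (ρ' * a (i + 1) - a i)) → ∀ i : ℤ, 0 ≤ i → i < d →
      σ ^ 3 * (σ ^ i) ^ 2 * (N * x0 * (1 - ρ') + N * x1 * (σ - ρ') * σ ^ i
        + (1 + σ) * p' * (σ ^ 2 - ρ') * (σ ^ i) ^ 2) =
      r * N * ρ' ^ i * (σ ^ 3 * a0 * (ρ' - 1) * (σ ^ i) ^ 2 + σ ^ 2 * a1 * (ρ' - σ) * σ ^ i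
        + (1 + σ) * N * p * (ρ' - σ ^ 2)) := by
    intro r hy i a b
    have e := hy i a b
    rw [ha i a b.le, ha (i + 1) (by omega) (by omega), hx i a b.le, hx (i + 1) (by omega) (by omega),
      zpow_add_one₀ h0] at e
    have t := hz i
    generalize σ ^ i = T at *
    generalize ρ' ^ i = U at *
    field_simp at e
    linear_combination e
  have y1 := hY r hy
  have y2 := hY r' hy'
  by_cases k1 : ρ' = σ
  · subst k1
    obtain ⟨-, f1, -, -, f4, -⟩ := pzs h0 hσ9 0 (-(r * N * ((1 + ρ') * N * p * (ρ' - ρ' ^ 2))))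
      (ρ' ^ 3 * N * x0 * (1 - ρ')) (-(r * N * (ρ' ^ 3 * a0 * (ρ' - 1))))
      (ρ' ^ 3 * ((1 + ρ') * p' * (ρ' ^ 2 - ρ'))) 0 0 0 0
      (fun i a b => by linear_combination y1 i (by omega) (by omega))
    left
    refine ⟨rfl, ?_, ?_⟩
    · apply mul_left_cancel₀ (mul_ne_zero (mul_ne_zero (mul_ne_zero hr (pow_ne_zero 2 hN))
        (mul_ne_zero hs1 hs2)) h0)
      linear_combination -f1
    · apply mul_left_cancel₀ (mul_ne_zero (mul_ne_zero hs1 hs2) (pow_ne_zero 4 h0))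
      linear_combination -f4
  by_cases k2 : ρ' = σ ^ 2
  · subst k2
    have pw : ∀ i : ℤ, (σ ^ 2) ^ i = (σ ^ i) ^ 2 := fun i => by rw [sq, sq, mul_zpow]
    have yy : ∀ r : F, (∀ i : ℤ, 0 ≤ i → i < d →
      σ ^ 3 * (σ ^ i) ^ 2 * (N * x0 * (1 - σ ^ 2) + N * x1 * (σ - σ ^ 2) * σ ^ i
        + (1 + σ) * p' * (σ ^ 2 - σ ^ 2) * (σ ^ i) ^ 2) =
      r * N * (σ ^ 2) ^ i * (σ ^ 3 * a0 * (σ ^ 2 - 1) * (σ ^ i) ^ 2
        + σ ^ 2 * a1 * (σ ^ 2 - σ) * σ ^ i + (1 + σ) * N * p * (σ ^ 2 - σ ^ 2))) →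
        σ * x1 = - r * a1 := by
      intro r y
      obtain ⟨-, -, -, f3, -⟩ := pzs h0 hσ9 0 0 (σ ^ 3 * N * x0 * (1 - σ ^ 2))
        (σ ^ 3 * N * (1 - σ) * (σ * x1 + r * a1)) (-(r * N * (σ ^ 3 * a0 * (σ ^ 2 - 1)))) 0 0 0 0
        (fun i a b => by
          have := y i (by omega) (by omega)
          rw [pw] at this
          linear_combination this)
      apply mul_left_cancel₀ (mul_ne_zero (mul_ne_zero (pow_ne_zero 3 h0) hN) hs1)
      linear_combination f3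
    have z1 := yy r y1
    have z2 := yy r' y2
    obtain ⟨-, -, -, -, -, f5, f6, -⟩ := pzs h0 hσ9 0 0 0 0
      (σ ^ 6 * N * D0 - r * r' * σ ^ 3 * N ^ 3 * p ^ 2)
      (σ ^ 3 * (σ ^ 2 * p' * (N * x1 + (N + 1) * p') - r * r' * N ^ 2 * p * (a1 + (N + 1) * p)))
      (σ ^ 2 * (σ ^ 3 * p' ^ 2 - r * r' * N ^ 2 * C0)) 0 0
      (fun i a b => by
        have := hE i a (by omega)
        rw [pw] at this
        linear_combination this)
    have g5 := (mul_eq_zero.1 f5).resolve_left (pow_ne_zero _ h0)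
    have g6 := (mul_eq_zero.1 f6).resolve_left (pow_ne_zero _ h0)
    right; right
    by_cases hrr : r' = r
    · left
      subst hrr
      obtain ⟨u, hu⟩ : ∃ u, σ * p' = r' * N * u := ⟨σ * p' / (r' * N), by field_simp⟩
      refine ⟨rfl, rfl, z1, u, hu, ?_, ?_⟩
      · apply mul_left_cancel₀ (pow_ne_zero 2 (mul_ne_zero hr hN))
        linear_combination -g6 + σ * (σ * p' + r' * N * u) * hu
      · apply mul_left_cancel₀ (pow_ne_zero 2 (mul_ne_zero hr hN))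
        linear_combination -g5 + σ * p' * N * z1
          + (-r' * N * a1 + (N + 1) * (σ * p' + r' * N * u)) * hu
    · right
      have a10 : a1 = 0 := by
        apply mul_left_cancel₀ (sub_ne_zero.2 hrr)
        linear_combination z2 - z1
      have x10 : x1 = 0 := by
        apply mul_left_cancel₀ h0
        rw [z1, a10]; ring
      subst a10 x10
      have g7 : σ ^ 2 * p' ^ 2 = r * r' * N ^ 2 * p ^ 2 := by
        apply mul_left_cancel₀ hN2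
        linear_combination g5
      have g8 : C0 = σ * p ^ 2 := by
        apply mul_left_cancel₀ (mul_ne_zero (mul_ne_zero hr hr') (pow_ne_zero 2 hN))
        linear_combination -g6 + σ * g7
      have hp : p ≠ 0 := by
        rintro rfl
        exact hE0 ⟨by rw [g8]; ring, rfl⟩
      obtain ⟨ν, hν⟩ : ∃ ν, σ * p' = ν * N * p := ⟨σ * p' / (N * p), by field_simp⟩
      refine ⟨rfl, hrr, rfl, rfl, g8, ν, hν, ?_⟩
      apply mul_left_cancel₀ (pow_ne_zero 2 (mul_ne_zero hN hp))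
      linear_combination g7 - (σ * p' + ν * N * p) * hν
  by_cases k3 : ρ' = σ ^ 3
  · exfalso
    subst k3
    have pw : ∀ i : ℤ, (σ ^ 3) ^ i = (σ ^ i) ^ 3 := fun i => by
      rw [pow_three, pow_three, mul_zpow, mul_zpow]
    obtain ⟨-, -, -, f3, f4, -⟩ := pzs h0 hσ9 0 0 (σ ^ 3 * N * x0 * (1 - σ ^ 3))
      (σ ^ 2 * N * (1 - σ) * (1 + σ) * (σ ^ 2 * x1 + r * N * p))
      (σ ^ 3 * (1 - σ) * (1 + σ) * (σ ^ 2 * p' + r * N * a1))
      (-(r * N * (σ ^ 3 * a0 * (σ ^ 3 - 1)))) 0 0 0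
      (fun i a b => by
        have := y1 i (by omega) (by omega)
        rw [pw] at this
        linear_combination this)
    have g3 := (mul_eq_zero.1 f3).resolve_left
      (mul_ne_zero (mul_ne_zero (mul_ne_zero (pow_ne_zero _ h0) hN) hs1) hs2)
    have g4 := (mul_eq_zero.1 f4).resolve_left
      (mul_ne_zero (mul_ne_zero (pow_ne_zero _ h0) hs1) hs2)
    obtain ⟨-, -, -, -, -, f5, f6, f7, f8⟩ := pzs h0 hσ9 0 0 0 0 (σ ^ 8 * N * D0)
      (σ ^ 7 * (p' * (N * x1 + (N + 1) * p')))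
      (σ ^ 7 * p' ^ 2 - r * r' * σ ^ 3 * N ^ 3 * p ^ 2)
      (-(r * r' * σ ^ 3 * N ^ 2 * (p * (a1 + (N + 1) * p)))) (-(r * r' * σ ^ 2 * N ^ 2 * C0))
      (fun i a b => by
        have := hE i a (by omega)
        rw [pw] at this
        linear_combination this)
    have g8 : C0 = 0 := by simpa [hr, hr', h0, hN] using f8
    have hp : p ≠ 0 := fun e => hE0 ⟨g8, e⟩
    have g7 : a1 + (N + 1) * p = 0 := by simpa [hr, hr', h0, hN, hp] using f7
    have hp' : p' ≠ 0 := by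
      rintro rfl
      simp [hr, hr', h0, hN, hp] at f6
    have g5 : N * x1 + (N + 1) * p' = 0 := by simpa [h0, hp'] using f5
    have g9 : N ^ 2 + N + 1 = 0 := by
      apply mul_left_cancel₀ (mul_ne_zero (mul_ne_zero hr hN) hp)
      linear_combination σ ^ 2 * g5 - N * g3 - (N + 1) * g4 + r * N * (N + 1) * g7
    apply hnr ((d + 1) * 3) (by omega)
    rw [pow_mul, hNe]; linear_combination (N - 1) * g9
  by_cases k4 : ρ' = σ ^ 4
  · exfalso
    subst k4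
    have pw : ∀ i : ℤ, (σ ^ 4) ^ i = (σ ^ i) ^ 4 := fun i => by
      rw [← zpow_natCast, ← zpow_natCast, ← zpow_mul, ← zpow_mul, mul_comm]
    obtain ⟨-, -, -, -, f4, -, f6, -⟩ := pzs h0 hσ9 (σ ^ 10 * N * D0)
      (σ ^ 9 * (p' * (N * x1 + (N + 1) * p'))) (σ ^ 9 * p' ^ 2) 0
      (-(r * r' * σ ^ 3 * N ^ 3 * p ^ 2))
      (-(r * r' * σ ^ 3 * N ^ 2 * (p * (a1 + (N + 1) * p)))) (-(r * r' * σ ^ 2 * N ^ 2 * C0)) 0 0
      (fun i a b => by
        have := hE i a (by omega)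
        rw [pw] at this
        apply mul_left_cancel₀ (pow_ne_zero 4 (hz i))
        linear_combination this)
    exact hE0 ⟨by simpa [hr, hr', h0, hN] using f6, by simpa [hr, hr', h0, hN] using f4⟩
  right; left
  have k0 : ρ' ≠ 1 := by have := hβ.pow_ne hρ0 hρ 1 one_pos; rwa [pow_one] at this
  have := twoExp 3 (τ := ρ') h0 (fun j k a b => hinj j k (by omega) (by omega)) (by
      intro j hj
      have : j < 5 := by omega
      interval_cases j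
      · simpa using k0
      · simpa using k1
      · exact k2
      · exact k3
      · exact k4)
    (fun k => σ ^ 3 * [N * x0 * (1 - ρ'), N * x1 * (σ - ρ'),
      (1 + σ) * p' * (σ ^ 2 - ρ')].getD k 0)
    (fun k => r * N * [σ ^ 3 * a0 * (ρ' - 1), σ ^ 2 * a1 * (ρ' - σ),
      (1 + σ) * N * p * (ρ' - σ ^ 2)].getD k 0) 0 (by
      intro i a b
      have := y1 i (by omega) (by omega)
      simp only [Finset.sum_range_succ, Finset.range_zero, Finset.sum_empty,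
        List.getD_cons_zero, List.getD_cons_succ]
      simp only [zpow_natCast] at this
      have t := pow_ne_zero i h0
      generalize σ ^ i = T at *
      field_simp
      linear_combination this)
  have f0 := this 0 (by omega)
  have f1 := this 1 (by omega)
  have f2 := this 2 (by omega)
  simp only [List.getD_cons_zero, List.getD_cons_succ] at f0 f1 f2
  have m1 := sub_ne_zero.2 k1
  have m2 := sub_ne_zero.2 k2
  have x10 : x1 = 0 := by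
    apply mul_left_cancel₀ (mul_ne_zero (mul_ne_zero (pow_ne_zero 3 h0) hN) m1)
    linear_combination -f1
  have p0' : p' = 0 := by
    apply mul_left_cancel₀ (mul_ne_zero (mul_ne_zero (pow_ne_zero 3 h0) hs2) m2)
    linear_combination -f2
  obtain ⟨g0, g1, -⟩ := pzs h0 hσ9 ((1 + σ) * N * p * (ρ' - σ ^ 2)) (σ ^ 2 * a1 * (ρ' - σ))
    (σ ^ 3 * a0 * (ρ' - 1)) 0 0 0 0 0 0 (fun i a b => by
      apply mul_left_cancel₀ (mul_ne_zero (mul_ne_zero hr hN) (zpow_ne_zero i hρ0))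
      linear_combination (σ ^ i) ^ 2 * (f0 + σ ^ i * f1 + (σ ^ i) ^ 2 * f2)
        - y1 i (by omega) (by omega))
  have a10 : a1 = 0 := by simpa [h0, m1] using g1
  have p0 : p = 0 := by simpa [hs2, hN, m2] using g0
  refine ⟨?_, k1, a10, p0, x10, p0'⟩
  have C00 : C0 ≠ 0 := fun e => hE0 ⟨e, p0⟩
  have e1 := hE 1 (by omega) (by omega)
  have e2 := hE 2 (by omega) (by omega)
  subst a10 p0 x10 p0'
  simp only [zpow_one, zpow_two] at e1 e2
  apply mul_left_cancel₀ (mul_ne_zero (mul_ne_zero (mul_ne_zero (mul_ne_zero hr hr')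
    (pow_ne_zero 6 h0)) (pow_ne_zero 2 (mul_ne_zero hN hρ0))) (mul_ne_zero C00 m1))
  linear_combination σ ^ 4 * e1 - e2

end Pool.Agent.P.MP_2f562c_al
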