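import Mathlib
import Pool.Agent.P.MP_2f562c_al.Sten

namespace Pool.Agent.P.MP_2f562c_al

open Module

variable {F V : Type*} [Field F] [AddCommGroup V] [Module F V] {d : ℕ}
  {b : Basis (Fin (d + 1)) F V} {A K : V →ₗ[F] V} {lo di up : ℤ → F}

lemma Dg.congr {κ κ' : ℤ → F} (h : Dg b K κ) (e : ∀ i : ℤ, 0 ≤ i → i ≤ d → κ i = κ' i) :
    Dg b K κ' := by
  intro v
  by_cases hv : 0 ≤ v ∧ v ≤ d
  · rw [h v, e v hv.1 hv.2]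
  · rw [ee_out b (by omega)]; simp

lemma step_a {σ μ t a a' a0 a1 a2 : F} (hσ : σ ≠ 0) (h1 : σ - 1 ≠ 0) (hμ : μ ≠ 0) (ht : t ≠ 0)
    (ha : a = a0 + a1 * t⁻¹ + a2 * t⁻¹ ^ 2)
    (h : (μ * t + μ * (t * σ)) * (a + a') - (σ + σ⁻¹) * (μ * t * a + μ * (t * σ) * a')
      - a0 * (2 - (σ + σ⁻¹)) * (μ * t + μ * (t * σ)) = a1 * μ * (2 - (σ + σ⁻¹))) :
    a' = a0 + a1 * (t * σ)⁻¹ + a2 * (t * σ)⁻¹ ^ 2 := by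
  subst ha
  field_simp at h
  field_simp
  apply mul_left_cancel₀ h1
  linear_combination -h

lemma step_c {σ μ t a0 a1 p N C0 C1 C2 c c' : F} (hσ : σ ≠ 0) (h1 : σ ^ 2 - 1 ≠ 0) (hμ : μ ≠ 0)
    (ht : t ≠ 0) {a : F} (ha : a = a0 + a1 * t⁻¹ + (1 + σ) * σ⁻¹ * N * p * t⁻¹ ^ 2)
    (hc : c = C0 + C1 * t⁻¹ + C2 * t⁻¹ ^ 2 + σ * N * a1 * p * t⁻¹ ^ 3
      + σ * N ^ 2 * p ^ 2 * t⁻¹ ^ 4)
    (h : 2 * (μ * t) * (c + a ^ 2 + c')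
      - (σ + σ⁻¹) * (c * (μ * (t * σ⁻¹)) + a ^ 2 * (μ * t) + c' * (μ * (t * σ)))
      - 2 * (a0 * (2 - (σ + σ⁻¹))) * a * (μ * t)
      - ((1 - σ ^ 2) * (1 - σ⁻¹ ^ 2) * C0 - (2 - (σ + σ⁻¹)) * a0 ^ 2) * (μ * t) =
      a1 * μ * (2 - (σ + σ⁻¹)) * a
        + μ * ((1 - σ ^ 2) * (σ⁻¹ - σ⁻¹ ^ 2) * C1 - (2 - (σ + σ⁻¹)) * a0 * a1)) :
    c' = C0 + C1 * (t * σ)⁻¹ + C2 * (t * σ)⁻¹ ^ 2 + σ * N * a1 * p * (t * σ)⁻¹ ^ 3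
      + σ * N ^ 2 * p ^ 2 * (t * σ)⁻¹ ^ 4 := by
  subst ha hc
  field_simp at h
  field_simp
  apply mul_left_cancel₀ h1
  linear_combination -h

theorem kshape (hd : 3 ≤ d) {μ σ β γ ϱ g0 g1 g2 : F} (hA : Tri b A lo di up) (hz : NZ d lo up)
    (hK : Dg b K (fun i => μ * σ ^ i)) (hμ : μ ≠ 0) (hσ : σ ≠ 0) (h2 : σ ^ 2 ≠ 1)
    (h : AW A K β γ ϱ g0 g1 g2) :
    ∃ a0 a1 p C0 C1 C2 : F,
      (∀ i : ℤ, 0 ≤ i → i ≤ d →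
        di i = a0 + a1 * (σ ^ i)⁻¹ + (1 + σ) * σ⁻¹ * σ ^ (d + 1) * p * (σ ^ i)⁻¹ ^ 2) ∧
      (∀ i : ℤ, 0 ≤ i → i ≤ d + 1 → lo (i - 1) * up i = C0 + C1 * (σ ^ i)⁻¹ + C2 * (σ ^ i)⁻¹ ^ 2
        + σ * σ ^ (d + 1) * a1 * p * (σ ^ i)⁻¹ ^ 3
        + σ * (σ ^ (d + 1)) ^ 2 * p ^ 2 * (σ ^ i)⁻¹ ^ 4) := by
  have hss : σ * σ⁻¹ = 1 := mul_inv_cancel₀ hσ
  have hm : σ - 1 ≠ 0 := fun e => h2 (by linear_combination (σ + 1) * e)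
  have hp : 1 + σ ≠ 0 := fun e => h2 (by linear_combination (σ - 1) * e)
  have e0 := h.deg2 hA hz hK 0 (by omega) (by omega)
  have e1 := h.deg2 hA hz hK 1 (by omega) (by omega)
  norm_num at e0 e1
  have e2 : 1 - β * σ + σ ^ 2 = 0 := by
    apply mul_left_cancel₀ (mul_ne_zero hμ hm)
    have : σ ^ (3 : ℤ) = σ ^ 3 := by norm_cast
    have : σ ^ (2 : ℤ) = σ ^ 2 := by norm_cast
    linear_combination e1 - e0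
  have hg2 : g2 = 0 := by linear_combination μ * e2 - e0
  have hβ : β = σ + σ⁻¹ := by
    apply mul_left_cancel₀ hσ
    linear_combination -e2 - hss
  subst hg2 hβ
  have h4 : 2 - (σ + σ⁻¹) ≠ 0 := fun e => pow_ne_zero 2 hm (by linear_combination -σ * e - hss)
  obtain ⟨a0, rfl⟩ : ∃ a0, γ = a0 * (2 - (σ + σ⁻¹)) := ⟨γ / _, (div_mul_cancel₀ _ h4).symm⟩
  obtain ⟨a1, rfl⟩ : ∃ a1, g1 = a1 * μ * (2 - (σ + σ⁻¹)) :=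
    ⟨g1 / (μ * (2 - (σ + σ⁻¹))), by rw [mul_assoc, div_mul_cancel₀ _ (mul_ne_zero hμ h4)]⟩
  have hN : σ ^ (d + 1) ≠ 0 := pow_ne_zero _ hσ
  obtain ⟨p, hp⟩ : ∃ p, di 0 - a0 - a1 = (1 + σ) * σ⁻¹ * σ ^ (d + 1) * p :=
    ⟨_ / ((1 + σ) * σ⁻¹ * σ ^ (d + 1)),
      (mul_div_cancel₀ _ (mul_ne_zero (mul_ne_zero hp (inv_ne_zero hσ)) hN)).symm⟩
  have h5 : 1 - σ ^ 2 ≠ 0 := sub_ne_zero.2 h2.symm
  have h6 : 1 - σ⁻¹ ^ 2 ≠ 0 := fun e => h5 (by linear_combination -σ ^ 2 * e - (1 + σ * σ⁻¹) * hss)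
  have h7 : σ⁻¹ - σ⁻¹ ^ 2 ≠ 0 := fun e => hm (by
    linear_combination σ ^ 2 * e + (1 + σ * σ⁻¹ - σ) * hss)
  obtain ⟨C0, rfl⟩ : ∃ C0, ϱ = (1 - σ ^ 2) * (1 - σ⁻¹ ^ 2) * C0 - (2 - (σ + σ⁻¹)) * a0 ^ 2 :=
    ⟨(ϱ + (2 - (σ + σ⁻¹)) * a0 ^ 2) / ((1 - σ ^ 2) * (1 - σ⁻¹ ^ 2)), by
      rw [mul_div_cancel₀ _ (mul_ne_zero h5 h6)]; ring⟩
  obtain ⟨C1, rfl⟩ : ∃ C1, g0 = μ * ((1 - σ ^ 2) * (σ⁻¹ - σ⁻¹ ^ 2) * C1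
      - (2 - (σ + σ⁻¹)) * a0 * a1) :=
    ⟨(g0 / μ + (2 - (σ + σ⁻¹)) * a0 * a1) / ((1 - σ ^ 2) * (σ⁻¹ - σ⁻¹ ^ 2)), by
      rw [mul_div_cancel₀ _ (mul_ne_zero h5 h7), add_sub_cancel_right, mul_div_cancel₀ _ hμ]⟩
  have hA' : ∀ i : ℤ, 0 ≤ i → i ≤ d →
      di i = a0 + a1 * (σ ^ i)⁻¹ + (1 + σ) * σ⁻¹ * σ ^ (d + 1) * p * (σ ^ i)⁻¹ ^ 2 := by
    intro i i0
    induction i, i0 using Int.leInduction with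
    | base => intro _; simp only [zpow_zero, inv_one]; linear_combination hp
    | succ n n0 ih =>
      intro hn
      have := h.deg1 hA hz hK n n0 hn
      simp only [zpow_add_one₀ hσ] at this ⊢
      exact step_a hσ hm hμ (zpow_ne_zero n hσ) (ih (by omega)) (by linear_combination this)
  refine ⟨a0, a1, p, C0, C1, -(C0 + C1 + σ * σ ^ (d + 1) * a1 * p + σ * (σ ^ (d + 1)) ^ 2 * p ^ 2),
    hA', ?_⟩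
  intro i i0
  induction i, i0 using Int.leInduction with
  | base => intro _; rw [hA.up0 0 (by omega)]; simp only [zpow_zero, inv_one]; ring
  | succ n n0 ih =>
    intro hn
    have := h.deg0 hA hK n n0 (by omega)
    simp only [zpow_add_one₀ hσ, zpow_sub_one₀ hσ, add_sub_cancel_right] at this ⊢
    exact step_c hσ (sub_ne_zero.2 h2) hμ (zpow_ne_zero n hσ) (hA' n n0 (by omega)) (ih (by omega))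
      (by linear_combination this)

end Pool.Agent.P.MP_2f562c_al
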