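import Mathlib
import Pool.Agent.P.MP_2f562c_al.Kside
import Pool.Agent.P.MP_2f562c_al.Align

set_option linter.unusedSimpArgs false

namespace Pool.Agent.P.MP_2f562c_al

open Module

variable {F V : Type*} [Field F] [AddCommGroup V] [Module F V] {d : ℕ}
  {b : Basis (Fin (d + 1)) F V} {A K : V →ₗ[F] V} {lo di up : ℤ → F}

theorem shapeAW {μ σ N a0 a1 p e0 : F} (hA : Tri b A lo di up)
    (hK : Dg b K (fun i => μ * σ ^ i)) (hσ : σ ≠ 0)
    (ha : ∀ i : ℤ, 0 ≤ i → i ≤ d →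
      di i = a0 + a1 * (σ ^ i)⁻¹ + (1 + σ) * σ⁻¹ * N * p * (σ ^ i)⁻¹ ^ 2)
    (hc : ∀ i : ℤ, 0 ≤ i → i ≤ d + 1 → lo (i - 1) * up i =
      (1 - (σ ^ i)⁻¹) * (1 - N * (σ ^ i)⁻¹) *
      (e0 + σ * p * (a1 + (N + 1) * p) * (σ ^ i)⁻¹ + σ * N * p ^ 2 * (σ ^ i)⁻¹ ^ 2)) :
    AW A K (σ + σ⁻¹) (a0 * (2 - (σ + σ⁻¹)))
      ((1 - σ ^ 2) * (1 - σ⁻¹ ^ 2) * e0 - (2 - (σ + σ⁻¹)) * a0 ^ 2)
      (μ * ((1 - σ ^ 2) * (σ⁻¹ - σ⁻¹ ^ 2) * (σ * p * (a1 + (N + 1) * p) - (N + 1) * e0)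
        - (2 - (σ + σ⁻¹)) * a0 * a1)) (a1 * μ * (2 - (σ + σ⁻¹))) 0 := by
  apply AW.of_ent hA
  intro u v u0 u1 v0 v1
  simp only [St, Rh]
  by_cases e : u = v + 2
  · subst e
    simp (disch := omega) only [ph_ee_ne, ph_ee_eq, hK.ent_ne, hK.ent_eq]
    rw [show v + 2 - 1 = v + 1 by ring, show v + 2 - 2 = v by ring, ← i11]
    simp only [zpow_add_one₀ hσ]
    field_simp
    ring
  by_cases e : v = u + 2
  · subst e
    simp (disch := omega) only [ph_ee_ne, ph_ee_eq, hK.ent_ne, hK.ent_eq]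
    rw [show u + 2 - 1 = u + 1 by ring, show u + 2 - 2 = u by ring, ← i11]
    simp only [zpow_add_one₀ hσ]
    field_simp
    ring
  by_cases e : u = v + 1
  · subst e
    simp (disch := omega) only [ph_ee_ne, ph_ee_eq, hK.ent_ne, hK.ent_eq]
    rw [show v + 1 - 1 = v by ring, ha v v0 v1, ha (v + 1) u0 u1]
    simp only [zpow_add_one₀ hσ]
    have := zpow_ne_zero v hσ
    field_simp
    ring
  by_cases e : v = u + 1
  · subst e
    simp (disch := omega) only [ph_ee_ne, ph_ee_eq, hK.ent_ne, hK.ent_eq]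
    rw [show u + 1 - 1 = u by ring, ha u u0 u1, ha (u + 1) v0 v1]
    simp only [zpow_add_one₀ hσ]
    have := zpow_ne_zero u hσ
    field_simp
    ring
  by_cases e : u = v
  · subst e
    have e1 : lo (u - 1) * ph b (u - 1) (K (ee b (u - 1))) = lo (u - 1) * (μ * σ ^ (u - 1)) := by
      by_cases hv : u = 0
      · rw [hA.lo0 _ (by omega)]; ring
      · rw [hK.ent_eq rfl (by omega) (by omega)]
    have e2 : lo u * ph b (u + 1) (K (ee b (u + 1))) = lo u * (μ * σ ^ (u + 1)) := by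
      by_cases hv : u = d
      · rw [hA.lo0 _ (by omega)]; ring
      · rw [hK.ent_eq rfl (by omega) (by omega)]
    simp (disch := omega) only [ph_ee_ne, ph_ee_eq, hK.ent_ne]
    rw [hK.ent_eq rfl u0 u1]
    have c0 := hc u u0 (by omega)
    have c1 := hc (u + 1) (by omega) (by omega)
    rw [add_sub_cancel_right] at c1
    have key : 2 * (μ * σ ^ u) * (lo (u - 1) * up u + di u ^ 2 + lo u * up (u + 1))
        - (σ + σ⁻¹) * (lo (u - 1) * up u * (μ * σ ^ (u - 1)) + di u ^ 2 * (μ * σ ^ u)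
          + lo u * up (u + 1) * (μ * σ ^ (u + 1)))
        - 2 * (a0 * (2 - (σ + σ⁻¹))) * di u * (μ * σ ^ u)
        - ((1 - σ ^ 2) * (1 - σ⁻¹ ^ 2) * e0 - (2 - (σ + σ⁻¹)) * a0 ^ 2) * (μ * σ ^ u) =
        a1 * μ * (2 - (σ + σ⁻¹)) * di u
        + μ * ((1 - σ ^ 2) * (σ⁻¹ - σ⁻¹ ^ 2) * (σ * p * (a1 + (N + 1) * p) - (N + 1) * e0)
        - (2 - (σ + σ⁻¹)) * a0 * a1) := by
      rw [c0, c1, ha u u0 u1, zpow_add_one₀ hσ, zpow_sub_one₀ hσ]
      have := zpow_ne_zero u hσ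
      field_simp
      ring
    linear_combination key - (σ + σ⁻¹) * up u * e1 - (σ + σ⁻¹) * up (u + 1) * e2
  · simp (disch := omega) only [ph_ee_ne, hK.ent_ne]
    ring

theorem reorder (hd : 1 ≤ d) {b1 : Basis (Fin (d + 1)) F V} {θ κ : ℤ → F} {σ g ϱ g0 g1 g2 : F}
    (hA : Tri b A lo di up) (hz : NZ d lo up) (hK : Dg b K κ) (hκ : Inj d κ) (h1 : Dg b1 A θ)
    (hσ : σ ≠ 0) (hn : ∀ k : ℕ, 0 < k → σ ^ k ≠ 1)
    (h : AW A K (σ + σ⁻¹) (g * (2 - (σ + σ⁻¹))) ϱ g0 g1 g2) :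
    ∃ b2 : Basis (Fin (d + 1)) F V, DiagTri b2 A K := by
  have hθ := inj_of h1 hA hz
  have hss : σ * σ⁻¹ = 1 := mul_inv_cancel₀ hσ
  have zinj : ∀ i j : ℤ, σ ^ i = σ ^ j → i = j := by
    have key : ∀ i j : ℤ, i < j → σ ^ i ≠ σ ^ j := by
      intro i j a e
      apply hn (j - i).toNat (by omega)
      rw [← zpow_natCast, show (((j - i).toNat : ℕ) : ℤ) = j - i by omega, zpow_sub₀ hσ, e,
        div_self (zpow_ne_zero _ hσ)]
    intro i j e
    rcases lt_trichotomy i j with h | h | h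
    · exact absurd e (key i j h)
    · exact h
    · exact absurd e.symm (key j i h)
  have hcut := cut hK hκ hA hz h1
  obtain ⟨k0, k1, k2, k3, k4⟩ : ∃ k : ℤ, 0 ≤ k ∧ k ≤ d ∧ k ≠ 0 ∧ ph b1 k (K (ee b1 0)) ≠ 0 := by
    by_contra hc
    push Not at hc
    have := hcut (fun u => u = 0) (fun u v u0 u1 _ _ hv hne => by
      by_contra e
      exact hne (hv ▸ hc u u0 u1 e)) 0 1 (by omega) (by omega) (by omega) (by omega) rfl
    omega
  have h3 : σ - σ⁻¹ ≠ 0 := fun e => hn 2 two_pos (by linear_combination σ * e + hss)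
  obtain ⟨h1', hb⟩ : ∃ h1', h1' * (σ - σ⁻¹) = θ k0 - g - (θ 0 - g) * σ⁻¹ :=
    ⟨_ / (σ - σ⁻¹), div_mul_cancel₀ _ h3⟩
  obtain ⟨h2', hb'⟩ : ∃ h2', h2' = θ 0 - g - h1' := ⟨_, rfl⟩
  obtain ⟨t, ht⟩ : ∃ t : ℤ → F, ∀ n, t n = g + h1' * σ ^ n + h2' * (σ ^ n)⁻¹ := ⟨_, fun _ => rfl⟩
  have t0 : t 0 = θ 0 := by rw [ht, hb']; simp
  have t1 : t 1 = θ k0 := by rw [ht, hb', zpow_one]; linear_combination hb
  have hP0 := h.offdiag h1 k3 k4
  have hP : ∀ n z, PP (σ + σ⁻¹) (g * (2 - (σ + σ⁻¹))) ϱ z (t n) =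
      (z - t (n + 1)) * (z - t (n - 1)) := by
    intro n z
    rw [← t0, ← t1, ht, ht] at hP0
    rw [ht, ht, ht, zpow_add_one₀ hσ, zpow_sub_one₀ hσ]
    simp only [zpow_zero, zpow_one] at hP0
    have := zpow_ne_zero n hσ
    unfold PP at hP0 ⊢
    field_simp at hP0
    field_simp
    linear_combination (σ ^ n) ^ 2 * hP0
  have hadj : ∀ u v n : ℤ, u ≠ v → ph b1 u (K (ee b1 v)) ≠ 0 → θ v = t n →
      θ u = t (n + 1) ∨ θ u = t (n - 1) := by
    intro u v n huv hne hv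
    have := h.offdiag h1 huv hne
    rw [hv, hP] at this
    rcases mul_eq_zero.1 this with e | e
    · exact Or.inl (sub_eq_zero.1 e)
    · exact Or.inr (sub_eq_zero.1 e)
  have hall : ∀ u : ℤ, 0 ≤ u → u ≤ d → ∃ n, θ u = t n := by
    intro u u0 u1
    refine hcut (fun u => ∃ n, θ u = t n) ?_ 0 u le_rfl (by omega) u0 u1 ⟨0, t0.symm⟩
    rintro u v _ _ _ _ ⟨n, hv⟩ hne
    by_cases e : u = v
    · exact ⟨n, e ▸ hv⟩
    · rcases hadj u v n e hne hv with e1 | e1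
      · exact ⟨_, e1⟩
      · exact ⟨_, e1⟩
  have hco : ∀ i j : ℤ, t i = t j → i ≠ j → h2' = h1' * σ ^ (i + j) := by
    intro i j e hij
    rw [ht, ht] at e
    have a := zpow_ne_zero i hσ
    have b := zpow_ne_zero j hσ
    have c : σ ^ i - σ ^ j ≠ 0 := sub_ne_zero.2 fun e => hij (zinj i j e)
    rw [zpow_add₀ hσ]
    apply mul_left_cancel₀ c
    field_simp at e
    linear_combination -e
  have hrefl : ∀ i j : ℤ, t i = t j → i ≠ j → ∀ n, t (i + j - n) = t n := by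
    intro i j e hij n
    have := hco i j e hij
    have a := zpow_ne_zero n hσ
    have b := zpow_ne_zero (i + j) hσ
    rw [ht, ht, zpow_sub₀ hσ, this]
    field_simp
    ring
  have hex : ∀ u : ℤ, ∃ n : ℤ, 0 ≤ u → u ≤ d → θ u = t n ∧ ∀ m, θ u = t m → m ≤ n := by
    intro u
    by_cases hu : 0 ≤ u ∧ u ≤ d
    · obtain ⟨n0, hn0⟩ := hall u hu.1 hu.2
      obtain ⟨n, a, c⟩ := Int.exists_greatest_of_bdd (P := fun n => θ u = t n) (by
        by_cases hm : ∃ m, m ≠ n0 ∧ θ u = t m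
        · obtain ⟨m, m1, m2⟩ := hm
          refine ⟨max n0 m, fun z hz => ?_⟩
          by_cases e : z = n0
          · omega
          have a1 := hco m n0 (m2.symm.trans hn0) m1
          have a2 := hco z n0 (hz.symm.trans hn0) e
          have a3 : h1' ≠ 0 := by
            rintro rfl
            apply hθ.ne (i := 0) (j := k0) le_rfl (by omega) k1 k2 k3.symm
            rw [← t0, ← t1, ht, ht, a1]; simp
          have := zinj _ _ (mul_left_cancel₀ a3 (a1.symm.trans a2))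
          omega
        · push Not at hm
          refine ⟨n0, fun z hz => ?_⟩
          by_contra e
          exact hm z (by omega) hz) ⟨n0, hn0⟩
      exact ⟨n, fun _ _ => ⟨a, c⟩⟩
    · exact ⟨0, fun a b => absurd ⟨a, b⟩ hu⟩
  choose ι hι using hex
  have ιinj : ∀ u v : ℤ, 0 ≤ u → u ≤ d → 0 ≤ v → v ≤ d → ι u = ι v → u = v := by
    intro u v a b c e f
    apply hθ u v a b c e
    rw [(hι u a b).1, (hι v c e).1, f]
  have ιadj : ∀ u v : ℤ, 0 ≤ u → u ≤ d → 0 ≤ v → v ≤ d → ph b1 u (K (ee b1 v)) ≠ 0 →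
      ι u ≤ ι v + 1 ∧ ι v - 1 ≤ ι u := by
    intro u v a b c e hne
    by_cases huv : u = v
    · subst huv; omega
    obtain ⟨p1, p2⟩ := hι u a b
    obtain ⟨q1, q2⟩ := hι v c e
    rcases hadj u v _ huv hne q1 with f | f
    · have f1 := p2 _ f
      by_cases f2 : ι u = ι v + 1
      · omega
      have := q2 _ (q1.trans (hrefl _ _ (p1.symm.trans f) f2 (ι v)).symm)
      omega
    · have f1 := p2 _ f
      by_cases f2 : ι u = ι v - 1
      · omega
      have := q2 _ (q1.trans (hrefl _ _ (p1.symm.trans f) f2 (ι v)).symm)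
      omega
  obtain ⟨n0, ⟨u0, a0, a1, rfl⟩, hmin⟩ := Int.exists_least_of_bdd
    (P := fun n => ∃ u : ℤ, 0 ≤ u ∧ u ≤ d ∧ ι u = n) (by
      obtain ⟨m, hm⟩ := ((Finset.Icc (0 : ℤ) d).image ι).finite_toSet.bddBelow
      refine ⟨m, ?_⟩
      rintro z ⟨u, a, b, rfl⟩
      exact hm (by simp only [Finset.coe_image]; exact ⟨u, by simp [a, b], rfl⟩))
    ⟨_, 0, le_rfl, by omega, rfl⟩
  have hle : ∀ u : ℤ, 0 ≤ u → u ≤ d → ι u0 ≤ ι u ∧ ι u ≤ ι u0 + d := by
    intro u a b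
    refine ⟨hmin _ ⟨u, a, b, rfl⟩, ?_⟩
    by_contra hc
    have hsub : Finset.Icc (ι u0) (ι u0 + d + 1) ⊆ (Finset.Icc (0 : ℤ) d).image ι := by
      intro z hz
      rw [Finset.mem_Icc] at hz
      by_contra hz'
      have hno : ∀ w : ℤ, 0 ≤ w → w ≤ d → ι w ≠ z := fun w w0 w1 e =>
        hz' (Finset.mem_image.2 ⟨w, Finset.mem_Icc.2 ⟨w0, w1⟩, e⟩)
      have := hcut (fun w => ι w < z) (fun w v w0 w1 v0 v1 hv hne => by
        have := (ιadj w v w0 w1 v0 v1 hne).1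
        have := hno w w0 w1
        omega) u0 u a0 a1 a b (by have := hno u0 a0 a1; omega)
      omega
    have := (Finset.card_le_card hsub).trans Finset.card_image_le
    simp at this
    omega
  let f : Fin (d + 1) → Fin (d + 1) := fun i => ⟨(ι (i : ℕ) - ι u0).toNat, by
    have := hle (i : ℕ) (by omega) (by have := i.2; omega)
    omega⟩
  have hf : ∀ i : Fin (d + 1), ((f i : ℕ) : ℤ) = ι (i : ℕ) - ι u0 := by
    intro i
    have := hle (i : ℕ) (by omega) (by have := i.2; omega)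
    simp only [f]
    omega
  have finj : Function.Injective f := by
    intro i j e
    have a := hf i
    have b := hf j
    rw [e] at a
    have := ιinj (i : ℕ) (j : ℕ) (by omega) (by have := i.2; omega) (by omega)
      (by have := j.2; omega) (by omega)
    exact Fin.ext (by omega)
  let e : Fin (d + 1) ≃ Fin (d + 1) := Equiv.ofBijective f (Finite.injective_iff_bijective.1 finj)
  have hent : ∀ (T : V →ₗ[F] V) (i j : Fin (d + 1)),
      ph (b1.reindex e) (e i : ℕ) (T (ee (b1.reindex e) (e j : ℕ))) =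
        ph b1 (i : ℕ) (T (ee b1 (j : ℕ))) := by
    intro T i j
    rw [ee_fin, ee_fin, ph_fin, ph_fin]
    simp
  have hD : Dg (b1.reindex e) A _ := dg_of_ent (by
    intro u v a b c g huv
    obtain ⟨i, rfl⟩ := exists_fin a b
    obtain ⟨j, rfl⟩ := exists_fin c g
    obtain ⟨i, rfl⟩ := e.surjective i
    obtain ⟨j, rfl⟩ := e.surjective j
    rw [hent]
    exact h1.ent_ne (by
      intro e'
      have : i = j := Fin.ext (by omega)
      exact huv (by rw [this])))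
  have hT : Tri (b1.reindex e) K _ _ _ := tri_of_ent (by
    intro u v a b c g huv
    obtain ⟨i, rfl⟩ := exists_fin a b
    obtain ⟨j, rfl⟩ := exists_fin c g
    obtain ⟨i, rfl⟩ := e.surjective i
    obtain ⟨j, rfl⟩ := e.surjective j
    rw [hent]
    by_contra hne
    have := ιadj _ _ (by omega) (by have := i.2; omega) (by omega) (by have := j.2; omega) hne
    have a := hf i
    have b := hf j
    change ((f j : ℕ) : ℤ) + 1 < (f i : ℕ) ∨ ((f i : ℕ) : ℤ) + 1 < (f j : ℕ) at huv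
    omega)
  exact ⟨_, diagTri_of hD hT (nz_of_cut hK hκ hA hz hD hT)⟩

end Pool.Agent.P.MP_2f562c_al
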