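import Mathlib
import Pool.Agent.P.MP_2f562c_al.Sten
import Pool.Agent.P.MP_2f562c_al.Seq

set_option linter.unusedSimpArgs false

namespace Pool.Agent.P.MP_2f562c_al

open Module

variable {F V : Type*} [Field F] [AddCommGroup V] [Module F V] {d : ℕ}
  {b : Basis (Fin (d + 1)) F V} {A B : V →ₗ[F] V} {lo a up r x s : ℤ → F} {β γ ϱ g0 g1 g2 : F}

def D32 (d : ℕ) (β γ g2 : F) (lo a r x : ℤ → F) : Prop :=
  (∀ v : ℤ, 0 ≤ v → v + 3 ≤ d → lo (v + 2) * lo (v + 1) * r v - β * (lo (v + 2) * lo v * r (v + 1))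
    + lo v * lo (v + 1) * r (v + 2) = 0) ∧
  (∀ v : ℤ, 0 ≤ v → v + 2 ≤ d → lo (v + 1) * lo v * (x v - β * x (v + 1) + x (v + 2) - g2)
    + lo (v + 1) * r v * (a (v + 1) + a (v + 2) - β * a v - γ)
    + lo v * r (v + 1) * (a v + a (v + 1) - β * a (v + 2) - γ) = 0)

def D1 (d : ℕ) (β γ ϱ g1 g2 : F) (lo a up r x s : ℤ → F) : Prop :=
  ∀ v : ℤ, 0 ≤ v → v + 1 ≤ d →
    lo v * lo (v - 1) * s v + lo v * (a v + a (v + 1)) * x v
      + (lo v * up (v + 1) + a (v + 1) ^ 2 + up (v + 2) * lo (v + 1)) * r v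
    - β * (lo v ^ 2 * s (v + 1) + lo v * a v * x v + lo v * up v * r (v - 1)
      + a (v + 1) * lo v * x (v + 1) + a (v + 1) * a v * r v + up (v + 2) * lo v * r (v + 1))
    + lo v * lo (v + 1) * s (v + 2) + lo v * (a v + a (v + 1)) * x (v + 1)
      + (lo v * up (v + 1) + a v ^ 2 + up v * lo (v - 1)) * r v
    - γ * (lo v * x v + a (v + 1) * r v + lo v * x (v + 1) + a v * r v) - ϱ * r v
    = g2 * (lo v * (a v + a (v + 1))) + g1 * lo v

lemma i21 (z : ℤ) : z + 2 - 1 = z + 1 := by ring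
lemma i31 (z : ℤ) : z + 3 - 1 = z + 2 := by ring
lemma i32 (z : ℤ) : z + 3 - 2 = z + 1 := by ring
lemma i12' (z : ℤ) : z + 1 + 2 = z + 3 := by ring
lemma i21' (z : ℤ) : z + 2 + 1 = z + 3 := by ring
lemma i121 (z : ℤ) : z + 1 - 2 = z - 1 := by ring

lemma AW.plus (h : AW A B β γ ϱ g0 g1 g2) (hA : Tri b A lo a up) (hB : Tri b B r x s) :
    D32 d β γ g2 lo a r x ∧ D1 d β γ ϱ g1 g2 lo a up r x s := by
  refine ⟨⟨fun v h0 h1 => ?_, fun v h0 h1 => ?_⟩, fun v h0 h1 => ?_⟩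
  · have := h.stencil hA (v + 3) v
    simp only [St, Rh] at this
    simp (disch := omega) only [ph_ee_ne, ph_ee_eq, hB.far_ent, hB.lo_ent, hB.di_ent,
      hB.up_ent, i31, i32] at this
    linear_combination this
  · have := h.stencil hA (v + 2) v
    simp only [St, Rh] at this
    simp (disch := omega) only [ph_ee_ne, ph_ee_eq, hB.far_ent, hB.lo_ent, hB.di_ent,
      hB.up_ent, i21, add_sub_cancel_right] at this
    linear_combination this
  · have := h.stencil hA (v + 1) v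
    simp only [St, Rh] at this
    simp (disch := omega) only [ph_ee_ne, ph_ee_eq, hB.far_ent, hB.lo_ent, hB.di_ent,
      hB.up_ent, i11, i121, add_sub_cancel_right] at this
    linear_combination this

lemma AW.minus (h : AW A B β γ ϱ g0 g1 g2) (hA : Tri b A lo a up) (hB : Tri b B r x s) :
    D32 d β γ g2 (fun v => up (v + 1)) a (fun v => s (v + 1)) x ∧
    D1 d β γ ϱ g1 g2 (fun v => up (v + 1)) a (fun v => lo (v - 1)) (fun v => s (v + 1)) x
      (fun v => r (v - 1)) := by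
  refine ⟨⟨fun v h0 h1 => ?_, fun v h0 h1 => ?_⟩, fun v h0 h1 => ?_⟩
  · have := h.stencil hA v (v + 3)
    simp only [St, Rh] at this
    simp (disch := omega) only [ph_ee_ne, ph_ee_eq, hB.far_ent, hB.lo_ent, hB.di_ent,
      hB.up_ent, i31, i32] at this
    simp only [i11, i21']
    linear_combination this
  · have := h.stencil hA v (v + 2)
    simp only [St, Rh] at this
    simp (disch := omega) only [ph_ee_ne, ph_ee_eq, hB.far_ent, hB.lo_ent, hB.di_ent,
      hB.up_ent, i21, add_sub_cancel_right] at this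
    simp only [i11]
    linear_combination this
  · have := h.stencil hA v (v + 1)
    simp only [St, Rh] at this
    simp (disch := omega) only [ph_ee_ne, ph_ee_eq, hB.far_ent, hB.lo_ent, hB.di_ent,
      hB.up_ent, i11, i121, add_sub_cancel_right] at this
    simp only [i11, i21, add_sub_cancel_right, sub_add_cancel]
    linear_combination this

theorem ratio {γ2 α0 ξ0 : F} (hd : 3 ≤ d) (hβ : NR β) (h1 : D32 d β γ γ2 lo a r x)
    (h2 : D32 d β γ2 γ r x lo a) (hl : ∀ v : ℤ, 0 ≤ v → v < d → lo v ≠ 0)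
    (hr : ∀ v : ℤ, 0 ≤ v → v < d → r v ≠ 0) (hα : α0 * (2 - β) = γ) (hξ : ξ0 * (2 - β) = γ2) :
    ∃ r0 ρ : F, r0 ≠ 0 ∧ ρ ≠ 0 ∧ ρ + ρ⁻¹ = β ∧
      (∀ v : ℤ, 0 ≤ v → v < d → r v = r0 * ρ ^ v * lo v) ∧
      ∀ v : ℤ, 0 ≤ v → v < d → x (v + 1) - ξ0 - ρ * (x v - ξ0) =
        r0 * ρ ^ v * (ρ * (a (v + 1) - α0) - (a v - α0)) := by
  obtain ⟨R, hR⟩ : ∃ R : ℤ → F, ∀ v : ℤ, 0 ≤ v → v < d → r v = R v * lo v :=
    ⟨fun v => r v / lo v, fun v h0 h1 => (div_mul_cancel₀ _ (hl v h0 h1)).symm⟩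
  have hR0 : ∀ v : ℤ, 0 ≤ v → v < d → R v ≠ 0 := by
    intro v h0 h1 e
    apply hr v h0 h1
    rw [hR v h0 h1, e, zero_mul]
  have e1 : ∀ v : ℤ, 0 ≤ v → v + 3 ≤ d → R v - β * R (v + 1) + R (v + 2) = 0 := by
    intro v h0 h3
    have := h1.1 v h0 h3
    rw [hR v h0 (by omega), hR (v + 1) (by omega) (by omega), hR (v + 2) (by omega) (by omega)]
      at this
    apply mul_left_cancel₀ (mul_ne_zero (mul_ne_zero (hl v h0 (by omega))
      (hl (v + 1) (by omega) (by omega))) (hl (v + 2) (by omega) (by omega)))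
    linear_combination this
  have e2 : ∀ v : ℤ, 0 ≤ v → v + 3 ≤ d → R (v + 1) ^ 2 = R v * R (v + 2) := by
    intro v h0 h3
    have := h2.1 v h0 h3
    rw [hR v h0 (by omega), hR (v + 1) (by omega) (by omega), hR (v + 2) (by omega) (by omega)]
      at this
    apply mul_left_cancel₀ (mul_ne_zero hβ.ne_zero (mul_ne_zero (mul_ne_zero (hl v h0 (by omega))
      (hl (v + 1) (by omega) (by omega))) (hl (v + 2) (by omega) (by omega))))
    linear_combination this - lo v * lo (v + 1) * lo (v + 2) * R (v + 1) * e1 v h0 h3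
  have n0 := hR0 0 (by omega) (by omega)
  have n1 := hR0 1 (by omega) (by omega)
  obtain ⟨ρ, hρ⟩ : ∃ ρ, R 1 = R 0 * ρ := ⟨R 1 / R 0, by field_simp⟩
  have hρ0 : ρ ≠ 0 := by rintro rfl; exact n1 (by rw [hρ, mul_zero])
  have hg : ∀ v : ℤ, 0 ≤ v → v + 1 < d → R v = R 0 * ρ ^ v ∧ R (v + 1) = R 0 * ρ ^ (v + 1) := by
    intro v v0
    induction v, v0 using Int.leInduction with
    | base => intro _; simp [hρ]
    | succ n n0 ih =>
      intro hn
      obtain ⟨i1, i2⟩ := ih (by omega)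
      refine ⟨i2, ?_⟩
      have := e2 n n0 (by omega)
      rw [i11]
      apply mul_left_cancel₀ (hR0 n n0 (by omega))
      rw [← this, i1, i2, ← i11]
      simp only [zpow_add_one₀ hρ0]
      ring
  have hg' : ∀ v : ℤ, 0 ≤ v → v < d → R v = R 0 * ρ ^ v := by
    intro v h0 h1
    by_cases e : v = 0
    · simp [e]
    · have := (hg (v - 1) (by omega) (by omega)).2
      rwa [sub_add_cancel] at this
  have hρρ : ρ * ρ⁻¹ = 1 := mul_inv_cancel₀ hρ0
  have hb : ρ + ρ⁻¹ = β := by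
    have := e1 0 (by omega) (by omega)
    rw [zero_add, zero_add, hg' 2 (by omega) (by omega), hρ, zpow_two] at this
    apply mul_left_cancel₀ (mul_ne_zero n0 hρ0)
    linear_combination this + R 0 * hρρ
  refine ⟨R 0, ρ, n0, hρ0, hb, fun v h0 h1 => by rw [hR v h0 h1, hg' v h0 h1], ?_⟩
  set y : ℤ → F := fun v => x (v + 1) - ξ0 - ρ * (x v - ξ0) -
        R 0 * ρ ^ v * (ρ * (a (v + 1) - α0) - (a v - α0)) with hy
  have y1 : ∀ v : ℤ, 0 ≤ v → v + 2 ≤ d → ρ * y (v + 1) = y v ∧ y (v + 1) = ρ ^ 2 * y v := by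
    intro v h0 h3
    have t1 := h1.2 v h0 h3
    have t2 := h2.2 v h0 h3
    rw [hR v h0 (by omega), hR (v + 1) (by omega) (by omega), hg' v h0 (by omega),
      hg' (v + 1) (by omega) (by omega), zpow_add_one₀ hρ0, ← hα, ← hξ, ← hb] at t1 t2
    have l0 := hl v h0 (by omega)
    have l1 := hl (v + 1) (by omega) (by omega)
    have l2 := zpow_ne_zero v hρ0
    simp only [hy, i11, zpow_add_one₀ hρ0]
    constructor
    · apply mul_left_cancel₀ (mul_ne_zero l0 l1)
      field_simp at t1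
      linear_combination t1
    · apply mul_left_cancel₀ (mul_ne_zero (mul_ne_zero l0 l1) (mul_ne_zero n0 l2))
      field_simp at t2
      linear_combination -t2
  have h3 := sub_ne_zero.2 (hβ.pow_ne hρ0 hb 3 (by omega))
  have y2 : ∀ v : ℤ, 0 ≤ v → v + 2 ≤ d → y v = 0 := by
    intro v h0 h4
    obtain ⟨t1, t2⟩ := y1 v h0 h4
    apply mul_left_cancel₀ h3
    linear_combination t1 - ρ * t2
  intro v h0 h4
  apply sub_eq_zero.1
  change y v = 0
  by_cases e : v + 2 ≤ d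
  · exact y2 v h0 e
  · have := (y1 (v - 1) (by omega) (by omega)).2
    rwa [sub_add_cancel, y2 (v - 1) (by omega) (by omega), mul_zero] at this

end Pool.Agent.P.MP_2f562c_al
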