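import Mathlib
import Pool.Agent.P.MP_2f562c_al.Suff
import Pool.Agent.P.MP_2f562c_al.TD

set_option linter.unusedSimpArgs false

namespace Pool.Agent.P.MP_2f562c_al

open Module

variable {F V : Type*} [Field F] [AddCommGroup V] [Module F V] {d : ℕ}

lemma sharpE2 (hd : 4 ≤ d) {γ ϱ g1 g2 σ N e α ξ r0 r0' : F} {lo a up r x s : ℤ → F}
    (hz : NZ d lo up) (h0 : σ ≠ 0) (h1 : 1 - σ ≠ 0) (h2 : (2 : F) ≠ 0) (hN : N + 1 ≠ 0) (he : e ≠ 0)
    (hp : D1 d (-σ + (-σ)⁻¹) γ ϱ g1 g2 lo a up r x s)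
    (hm : D1 d (-σ + (-σ)⁻¹) γ ϱ g1 g2 (fun v => up (v + 1)) a (fun v => lo (v - 1))
      (fun v => s (v + 1)) x (fun v => r (v - 1)))
    (ha : ∀ v : ℤ, 0 ≤ v → v ≤ d → a v = α) (hx : ∀ v : ℤ, 0 ≤ v → v ≤ d → x v = ξ)
    (hr : ∀ v : ℤ, 0 ≤ v → v < d → r v = r0 * (-σ) ^ v * lo v)
    (hs : ∀ v : ℤ, 0 ≤ v → v < d → s (v + 1) = r0' * (-σ) ^ v * up (v + 1))
    (hc : ∀ i : ℤ, 0 ≤ i → i ≤ d + 1 → lo (i - 1) * up i =
      (1 - (σ ^ i)⁻¹) * (1 - N * (σ ^ i)⁻¹) * e) : r0' = r0 := by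
  by_contra hne
  have hs0 : -σ ≠ 0 := neg_ne_zero.2 h0
  have key : ∀ v : ℤ, 0 ≤ v → v + 3 ≤ d →
      (σ - 1) * (lo v * up (v + 1)) - σ * (1 - σ) ^ 2 * (lo (v + 1) * up (v + 2))
        - σ ^ 3 * (σ - 1) * (lo (v + 2) * up (v + 3)) =
      σ ^ 2 * ϱ + 2 * σ ^ 2 * γ * α - σ * (1 + σ) ^ 2 * α ^ 2 := by
    intro v v0 v1
    have p := hp (v + 1) (by omega) (by omega)
    have m := hm (v + 1) (by omega) (by omega)
    have s2 := hs (v + 1) (by omega) (by omega)
    have s3 := hs (v + 2) (by omega) (by omega)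
    simp only [i11, i12', i21', i21, i31, add_sub_cancel_right, sub_add_cancel] at p m s2 s3
    rw [ha (v + 1) (by omega) (by omega), ha (v + 2) (by omega) (by omega),
      hx (v + 1) (by omega) (by omega), hx (v + 2) (by omega) (by omega),
      hr v v0 (by omega), hr (v + 1) (by omega) (by omega), hr (v + 2) (by omega) (by omega),
      hs v v0 (by omega), s2, s3] at p m
    have z2 : (-σ) ^ (v + 2) = (-σ) ^ v * -σ * -σ := by
      rw [← i11, zpow_add_one₀ hs0, zpow_add_one₀ hs0]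
    simp only [zpow_add_one₀ hs0, z2] at p m
    have t := zpow_ne_zero v hs0
    generalize (-σ) ^ v = T at *
    apply mul_left_cancel₀ (mul_ne_zero (mul_ne_zero (hz.1 (v + 1) (by omega) (by omega))
      (hz.2 (v + 2) (by omega) (by omega))) (mul_ne_zero t (sub_ne_zero.2 hne)))
    field_simp at p m
    linear_combination up (v + 2) * p - lo (v + 1) * m
  have k0 := key 0 (by omega) (by omega)
  have k1 := key 1 (by omega) (by omega)
  have c1 := hc 1 (by omega) (by omega)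
  have c2 := hc 2 (by omega) (by omega)
  have c3 := hc 3 (by omega) (by omega)
  have c4 := hc 4 (by omega) (by omega)
  norm_num at k0 k1 c1 c2 c3 c4
  rw [c1, c2, c3] at k0
  rw [c2, c3, c4] at k1
  apply mul_ne_zero (mul_ne_zero (pow_ne_zero 3 h1) h2) (mul_ne_zero hN (pow_ne_zero 3 h0))
  have := k0.trans k1.symm
  field_simp at this
  linear_combination -this

theorem sharpE1 (hd : 1 ≤ d) {b b2 bx : Basis (Fin (d + 1)) F V} {A X K : V →ₗ[F] V}
    {lo a up r x s θ k1 k0 k2 ξ l3 a3 u3 : ℤ → F} {μ σ a0 a1 p x0 x1 p' r0 : F}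
    (hA : Tri b A lo a up) (hz : NZ d lo up) (hK : Dg b K (fun i => μ * σ ^ i))
    (hX : Tri b X r x s) (h2 : Dg b2 A θ) (hK2 : Tri b2 K k1 k0 k2) (h3 : Dg bx X ξ)
    (hξ : Inj d ξ) (hA3 : Tri bx A l3 a3 u3) (hz3 : NZ d l3 u3) (hμ : μ ≠ 0) (h0 : σ ≠ 0)
    (h1 : 1 - σ ≠ 0)
    (ha : ∀ i : ℤ, 0 ≤ i → i ≤ d →
      a i = a0 + a1 * (σ ^ i)⁻¹ + (1 + σ) * σ⁻¹ * σ ^ (d + 1) * p * (σ ^ i)⁻¹ ^ 2)
    (hc : ∀ i : ℤ, 0 ≤ i → i ≤ d + 1 → lo (i - 1) * up i =
      (1 - (σ ^ i)⁻¹) * (1 - σ ^ (d + 1) * (σ ^ i)⁻¹) * (σ * p ^ 2 + σ * p *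
      (a1 + (σ ^ (d + 1) + 1) * p) * (σ ^ i)⁻¹ + σ * σ ^ (d + 1) * p ^ 2 * (σ ^ i)⁻¹ ^ 2))
    (hx : ∀ i : ℤ, 0 ≤ i → i ≤ d →
      x i = x0 + x1 * σ ^ i + (1 + σ) * (σ ^ (d + 1))⁻¹ * p' * (σ ^ i) ^ 2)
    (hr : ∀ v : ℤ, 0 ≤ v → v < d → r v = r0 * (σ ^ 2) ^ v * lo v)
    (hs : ∀ v : ℤ, 0 ≤ v → v < d → s (v + 1) = r0 * (σ ^ 2) ^ v * up (v + 1))
    (e1 : σ * x1 = - r0 * a1) (e2 : σ * p' = r0 * σ ^ (d + 1) * (-p)) :
    a1 = (σ ^ (d + 1) + 1) * (-p - p) := by
  have hw := shapeAW hA hK h0 ha hc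
  have hN : σ ^ (d + 1) ≠ 0 := pow_ne_zero _ h0
  have hNz : σ ^ (d : ℤ) * σ = σ ^ (d + 1) := by rw [zpow_natCast, pow_succ]
  generalize σ ^ (d + 1) = N at *
  have pw : ∀ i : ℤ, (σ ^ 2) ^ i = (σ ^ i) ^ 2 := fun i => by rw [sq, sq, mul_zpow]
  have hop : (μ ^ 2 * σ) • X = r0 • (K ∘ₗ A ∘ₗ K - (a0 + p * (1 + σ)) • K ∘ₗ K - (2 * a1 * μ) • K)
      + (μ ^ 2 * (σ * x0 - r0 * ((1 + σ) * σ⁻¹ * N * p))) • LinearMap.id := by
    apply ent_ext b
    intro u v u0 u1 v0 v1
    simp only [LinearMap.add_apply, LinearMap.sub_apply, LinearMap.smul_apply,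
      LinearMap.comp_apply, LinearMap.id_apply, map_add, map_sub, map_smul, smul_eq_mul,
      hK.dual, hK v]
    by_cases c1 : u = v + 1
    · rw [hX.lo_ent c1, hA.lo_ent c1, ph_ee_ne b (by omega), hr v v0 (by omega), c1, pw,
        zpow_add_one₀ h0]; ring
    by_cases c2 : v = u + 1
    · rw [hX.up_ent (by omega), hA.up_ent (by omega), ph_ee_ne b (by omega), c2,
        hs u u0 (by omega), pw, zpow_add_one₀ h0]; ring
    by_cases c3 : u = v
    · subst c3
      rw [hX.di_ent rfl u0 u1, hA.di_ent rfl u0 u1, ph_ee_self b u0 u1, hx u u0 u1, ha u u0 u1]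
      have t := zpow_ne_zero u h0
      generalize σ ^ u = T at *
      field_simp
      linear_combination (σ * N * T) * e1 + (σ * (1 + σ) * T ^ 2) * e2
    · rw [hX.far_ent (by omega), hA.far_ent (by omega), ph_ee_ne b c3]; ring
  obtain ⟨h, h4, h5, h6⟩ : ∃ h : ℤ, 0 ≤ h ∧ h ≤ d ∧ θ h = a0 - (1 + σ) * p := by
    by_contra hcon
    push Not at hcon
    have kk : ∀ h : ℤ, 0 ≤ h → h ≤ d → k0 h * (θ h - a0 - (1 + σ) * p) = μ * a1 := by
      intro h h4 h5
      have := hw.diag h2 h h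
      rw [hK2.di_ent rfl h4 h5, ph_ee_self b2 h4 h5] at this
      unfold PP at this
      apply mul_left_cancel₀ (mul_ne_zero (pow_ne_zero 2 h1) (sub_ne_zero.2 (hcon h h4 h5)))
      field_simp at this
      linear_combination -this
    have := cut h3 hξ hA3 hz3 h2 (fun u => Even u) (fun u v u0 u1 v0 v1 hv hne => by
      by_contra hu
      apply hne
      apply mul_left_cancel₀ (mul_ne_zero (pow_ne_zero 2 hμ) h0)
      have := congrArg (ph b2 u) (LinearMap.congr_fun hop (ee b2 v))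
      simp only [LinearMap.add_apply, LinearMap.sub_apply, LinearMap.smul_apply,
        LinearMap.comp_apply, LinearMap.id_apply, map_add, map_sub, map_smul, smul_eq_mul,
        hK2.dual, h2.dual] at this
      rw [this]
      rw [Int.even_iff] at hu hv
      by_cases c1 : u = v + 1
      · subst c1
        simp (disch := omega) only [ph_ee_ne, ph_ee_eq, add_sub_cancel_right]
        linear_combination r0 * k1 v * (kk v v0 v1 + kk (v + 1) u0 u1)
      by_cases c2 : v = u + 1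
      · subst c2
        simp (disch := omega) only [ph_ee_ne, ph_ee_eq, add_sub_cancel_right]
        linear_combination r0 * k2 (u + 1) * (kk u u0 u1 + kk (u + 1) v0 v1)
      · simp (disch := omega) only [ph_ee_ne]
        ring) 0 1 le_rfl (by omega) (by omega) (by omega) (by simp)
    simp at this
  set y : ℤ → F := fun i => ph b i (ee b2 h) with hy
  have ey : ∀ i : ℤ, lo (i - 1) * y (i - 1) + (a i - a0 + (1 + σ) * p) * y i
      + up (i + 1) * y (i + 1) = 0 := by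
    intro i
    have := hA.dual i (ee b2 h)
    rw [h2 h, map_smul, h6, smul_eq_mul] at this
    simp only [hy]
    linear_combination -this
  obtain ⟨P, hP⟩ : ∃ P : ℤ → F, ∀ i, P i = σ * p + (a1 + (N + 1) * p) * (σ ^ i)⁻¹
      + N * p * σ⁻¹ * (σ ^ i)⁻¹ ^ 2 := ⟨_, fun _ => rfl⟩
  obtain ⟨Q, hQ⟩ : ∃ Q : ℤ → F, ∀ i, Q i = p * (1 - (σ ^ i)⁻¹) * (1 - N * (σ ^ i)⁻¹) :=
    ⟨_, fun _ => rfl⟩
  have hPQ : ∀ i : ℤ, 0 ≤ i → i ≤ d → a i - a0 + (1 + σ) * p = P i + Q i := by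
    intro i i0 i1
    rw [ha i i0 i1, hP, hQ]
    field_simp
    ring
  have hcPQ : ∀ i : ℤ, 0 ≤ i → i < d → lo i * up (i + 1) = P i * Q (i + 1) := by
    intro i i0 i1
    have := hc (i + 1) (by omega) (by omega)
    rw [add_sub_cancel_right] at this
    rw [this, hP, hQ, zpow_add_one₀ h0]
    have t := zpow_ne_zero i h0
    field_simp
  have hz0 : ∀ i : ℤ, 0 ≤ i → i ≤ d → lo (i - 1) * y (i - 1) + Q i * y i = 0 := by
    intro i i0
    induction i, i0 using Int.leInduction with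
    | base => intro _; rw [hA.lo0 _ (by omega), hQ]; simp
    | succ n n0 ih =>
      intro hn
      have e := ey n
      have f := hcPQ n n0 (by omega)
      have g : P n ≠ 0 := by
        intro g
        rw [g, zero_mul] at f
        exact mul_ne_zero (hz.1 n n0 (by omega)) (hz.2 (n + 1) (by omega) hn) f
      rw [hPQ n n0 (by omega)] at e
      rw [add_sub_cancel_right]
      apply mul_left_cancel₀ g
      linear_combination lo n * e - lo n * ih (by omega) - y (n + 1) * f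
  have hyd : y d ≠ 0 := by
    intro e
    have : ∀ n : ℕ, n ≤ d → y (d - n) = 0 := by
      intro n
      induction n with
      | zero => intro _; simpa using e
      | succ n ih =>
        intro hn
        have f := hz0 (d - n) (by omega) (by omega)
        rw [ih (by omega), mul_zero, add_zero] at f
        have := (mul_eq_zero.1 f).resolve_left (hz.1 _ (by omega) (by omega))
        rwa [show (d : ℤ) - ((n + 1 : ℕ) : ℤ) = d - n - 1 by push_cast; ring]
    have z : ee b2 h = 0 := vec_ext b fun u u0 u1 => by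
      have := this (d - u).toNat (by omega)
      rw [show (d : ℤ) - ((d - u).toNat : ℕ) = u by omega] at this
      rw [map_zero]; exact this
    have := ph_ee_self b2 h4 h5
    rw [z, map_zero] at this
    exact zero_ne_one this
  have e := ey d
  rw [hPQ d (by omega) le_rfl, hA.up0 _ (by omega)] at e
  have f : P d = 0 := by
    apply mul_right_cancel₀ hyd
    linear_combination e - hz0 d (by omega) le_rfl
  rw [hP] at f
  have t := zpow_ne_zero (d : ℤ) h0
  generalize σ ^ (d : ℤ) = T at *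
  subst hNz
  field_simp at f
  linear_combination f

end Pool.Agent.P.MP_2f562c_al
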