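import Mathlib
import Pool.Agent.P.MP_2f562c_al.Sharp
import Pool.Agent.P.MP_2f562c_al.Class

set_option linter.unusedSimpArgs false

namespace Pool.Agent.P.MP_2f562c_al

open Module

variable {F V : Type*} [Field F] [AddCommGroup V] [Module F V] {d : ℕ}

lemma tri_of_matrix {b : Basis (Fin (d + 1)) F V} {A : V →ₗ[F] V} {lo di up : ℕ → F}
    (h : LinearMap.toMatrix b b A = tri d lo di up) :
    ∃ lo' di' up' : ℤ → F, Tri b A lo' di' up' ∧ (∀ i : ℕ, i < d → lo' i = lo i) ∧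
      (∀ i : ℕ, i ≤ d → di' i = di i) ∧ (∀ i : ℕ, 0 < i → i ≤ d → up' i = up i) := by
  refine ⟨_, _, _, tri_of_ent ?_, fun i hi => ?_, fun i hi => ?_, fun i h0 hi => ?_⟩
  · intro u v h0 h1 h2 h3 h4
    obtain ⟨i, rfl⟩ := exists_fin h0 h1
    obtain ⟨j, rfl⟩ := exists_fin h2 h3
    rw [ent_fin, h, tri, if_neg (by omega), if_neg (by omega), if_neg (by omega)]
  · have := ent_fin b A ⟨i + 1, by omega⟩ ⟨i, by omega⟩
    rw [h, tri] at this
    simpa using this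
  · have := ent_fin b A ⟨i, by omega⟩ ⟨i, by omega⟩
    rw [h, tri] at this
    simpa using this
  · have := ent_fin b A ⟨i - 1, by omega⟩ ⟨i, by omega⟩
    rw [h, tri, if_neg (by simp only []; omega), if_neg (by simp only []; omega),
      if_pos (by simp only []; omega)] at this
    simp only [] at this ⊢
    rwa [show ((i - 1 : ℕ) : ℤ) = (i : ℤ) - 1 by omega] at this

lemma dg_of_matrix {b : Basis (Fin (d + 1)) F V} {K : V →ₗ[F] V} {μ σ : F}
    (h : LinearMap.toMatrix b b K = Matrix.diagonal fun i : Fin (d + 1) => μ * σ ^ (i : ℕ)) :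
    Dg b K (fun i => μ * σ ^ i) := by
  have := dg_of_ent (b := b) (T := K) (by
    intro u v h0 h1 h2 h3 h4
    obtain ⟨i, rfl⟩ := exists_fin h0 h1
    obtain ⟨j, rfl⟩ := exists_fin h2 h3
    rw [ent_fin, h, Matrix.diagonal_apply_ne _ (by rintro rfl; exact h4 rfl)])
  apply this.congr
  intro i h0 h1
  obtain ⟨i, rfl⟩ := exists_fin h0 h1
  rw [ent_fin, h]; simp

lemma rescale (b : Basis (Fin (d + 1)) F V) (lo : ℤ → F) (hl : ∀ v : ℤ, 0 ≤ v → v < d → lo v ≠ 0) :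
    ∃ v : Basis (Fin (d + 1)) F V,
      (∀ (T : V →ₗ[F] V) (r x s : ℤ → F) (lo' di' up' : ℕ → F), Tri b T r x s →
        (∀ i : ℕ, i < d → r i = lo' i * lo i) → (∀ i : ℕ, i ≤ d → x i = di' i) →
        (∀ i : ℕ, 0 < i → i ≤ d → lo (i - 1) * s i = up' i) →
        LinearMap.toMatrix v v T = tri d lo' di' up') ∧
      (∀ (T : V →ₗ[F] V) (μ σ : F), Dg b T (fun i => μ * σ ^ i) → LinearMap.toMatrix v v T =
        Matrix.diagonal fun i : Fin (d + 1) => μ * σ ^ (i : ℕ)) := by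
  have hP : ∀ i : Fin (d + 1), PU (fun j => lo (j - 1)) (i : ℕ) ≠ 0 := fun i =>
    PU_ne _ _ fun j h0 h1 => hl _ (by omega) (by have := i.2; omega)
  let v := b.unitsSMul (fun i => Units.mk0 _ (hP i))
  have hv : ∀ (T : V →ₗ[F] V) (i j : Fin (d + 1)), LinearMap.toMatrix v v T i j =
      (PU (fun j => lo (j - 1)) (i : ℕ))⁻¹ * (PU (fun j => lo (j - 1)) (j : ℕ) *
        ph b (i : ℕ) (T (ee b (j : ℕ)))) := by
    intro T i j
    rw [ent_fin, LinearMap.toMatrix_apply, LinearMap.toMatrix_apply]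
    simp [v, Basis.repr_unitsSMul, Basis.unitsSMul_apply, Units.smul_def]
    ring
  refine ⟨v, fun T r x s lo' di' up' hT h1 h2 h3 => ?_, fun T μ σ hT => ?_⟩
  · ext i j
    have hi := i.2
    have hj := j.2
    have a := hP i
    have c := hP j
    rw [hv, tri]
    split_ifs with e1 e2 e3
    · rw [hT.lo_ent (by omega), h1 j (by omega)]
      have := PU_succ (fun j => lo (j - 1)) (j : ℕ) (by omega)
      rw [show ((i : ℕ) : ℤ) = (j : ℕ) + 1 by omega] at a ⊢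
      rw [this] at a ⊢
      simp only [add_sub_cancel_right] at a ⊢
      have := hl (j : ℕ) (by omega) (by omega)
      field_simp
    · rw [hT.di_ent (by omega) (by omega) (by omega), h2 j (by omega), e2]
      field_simp
    · rw [hT.up_ent (by omega), ← h3 j (by omega) (by omega)]
      have := PU_succ (fun j => lo (j - 1)) (i : ℕ) (by omega)
      rw [show ((j : ℕ) : ℤ) = (i : ℕ) + 1 by omega, this]
      field_simp
    · rw [hT.far_ent (by omega)]; ring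
  · ext i j
    have hi := i.2
    have a := hP i
    rw [hv]
    by_cases e : i = j
    · subst e
      rw [hT.ent_eq rfl (by omega) (by omega), Matrix.diagonal_apply_eq, zpow_natCast]
      field_simp
    · rw [hT.ent_ne (by simpa [Fin.val_inj] using e), Matrix.diagonal_apply_ne _ e]; ring

variable {A X : V →ₗ[F] V}

lemma twoAW (hd : 3 ≤ d) (hAX : LeonardPair d A X) {b : Basis (Fin (d + 1)) F V}
    (hb : DiagTri b A X) (θ : ℕ → F) (hθ : ∀ i : Fin (d + 1), θ i = LinearMap.toMatrix b b A i i)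
    {β : F} (hβ : θ 0 - θ 3 = (β + 1) * (θ 1 - θ 2)) :
    ∃ γ ϱ g0 g1 γ2 ϱ2 f0 f1 : F, AW A X β γ ϱ g0 g1 γ2 ∧ AW X A β γ2 ϱ2 f0 f1 γ := by
  obtain ⟨-, ⟨b', hb'⟩⟩ := hAX
  obtain ⟨t, r, x, s, hA, hX, hz, ht⟩ := hb.unpack
  obtain ⟨t', lo, a, up, hX', hA', hz', -⟩ := hb'.unpack
  have i1 := inj_of hA hA' hz'
  have i2 := inj_of hX' hX hz
  obtain ⟨β1, γ, ϱ, g0, g1, g2, w1⟩ := halfAW hd hA hX hz hX' hA' hz'
  obtain ⟨β2, γ2, ϱ2, f0, f1, f2, w2⟩ := halfAW hd hX' hA' hz' hA hX hz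
  have e : ∀ i : ℕ, i ≤ d → θ i = t i := fun i hi =>
    (hθ ⟨i, by omega⟩).trans (ht ⟨i, by omega⟩).symm
  rw [e 0 (by omega), e 1 (by omega), e 2 (by omega), e 3 (by omega)] at hβ
  have n12 := sub_ne_zero.2 (i1.ne (i := 1) (j := 2) (by omega) (by omega) (by omega) (by omega)
    (by omega))
  have a0 := w1.recur hA hX hz i1 0 (by omega) (by omega)
  have a1 := w1.recur hA hX hz i1 1 (by omega) (by omega)
  have b0 := w2.deg2 hX hz hA 0 (by omega) (by omega)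
  have b1 := w2.deg2 hX hz hA 1 (by omega) (by omega)
  have c0 := w1.deg2 hA' hz' hX' 0 (by omega) (by omega)
  have c1 := w2.recur hX' hA' hz' i2 0 (by omega) (by omega)
  norm_num at a0 a1 b0 b1 hβ
  have e1 : β1 = β := by
    apply mul_right_cancel₀ n12; linear_combination hβ - a0 + a1
  have e2 : β2 = β := by
    apply mul_right_cancel₀ n12; linear_combination hβ - b0 + b1
  subst e1 e2
  have e3 : f2 = γ := by linear_combination a0 - b0
  have e4 : g2 = γ2 := by linear_combination c1 - c0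
  subst e3 e4
  exact ⟨_, _, _, _, _, _, _, _, w1, w2⟩

theorem necessity (hd : 80 ≤ d) {β γ ϱ g0 g1 γ2 ϱ2 f0 f1 : F} (hAX : LeonardPair d A X)
    (w1 : AW A X β γ ϱ g0 g1 γ2) (w2 : AW X A β γ2 ϱ2 f0 f1 γ) (hβ : NR β) {K Ki : V →ₗ[F] V}
    (hKi : ∀ x, Ki (K x) = x) (hiK : ∀ x, K (Ki x) = x)
    (hAK : LeonardPair d A K) (hXK : LeonardPair d X Ki) :
    ∃ (v : Basis (Fin (d + 1)) F V) (μ σ ρ r r' a₀ a₁ p e x₀ x₁ x₂ : F),
      μ ≠ 0 ∧ σ ≠ 0 ∧ r ≠ 0 ∧ r' ≠ 0 ∧ ρ + ρ⁻¹ = β ∧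
      (∀ i, 1 ≤ i → i ≤ d → supA d σ a₁ p e i ≠ 0) ∧ Family d σ ρ r r' a₁ p e x₁ x₂ ∧
      LinearMap.toMatrix v v K = Matrix.diagonal (fun i : Fin (d + 1) => μ * σ ^ (i : ℕ)) ∧
      LinearMap.toMatrix v v A = tri d (fun _ => 1) (diagA d σ a₀ a₁ p) (supA d σ a₁ p e) ∧
      LinearMap.toMatrix v v X = tri d (fun i => r * ρ ^ i)
        (fun i => x₀ + x₁ * σ ^ i + x₂ * σ ^ (2 * i))
        (fun i => r' * ρ ^ (i - 1) * supA d σ a₁ p e i) := by
  obtain ⟨b, lo, a, up, κ, r, x, s, hA, hz, hK, hκ, hg, hX, hzX⟩ :=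
    align hd w1 w2 hβ hKi hiK hAK hXK
  have kn := hK.ne_zero hKi
  have hμ := kn 0 (by omega) (by omega)
  obtain ⟨σ, hσ1⟩ : ∃ σ, κ 1 = κ 0 * σ := ⟨κ 1 / κ 0, by field_simp⟩
  have h0 : σ ≠ 0 := by rintro rfl; exact kn 1 (by omega) (by omega) (by rw [hσ1, mul_zero])
  have hκf : ∀ i : ℤ, 0 ≤ i → i ≤ d → κ i = κ 0 * σ ^ i := by
    intro i i0
    induction i, i0 using Int.leInduction with
    | base => simp
    | succ n n0 ih =>
      intro hn
      have := hg n n0 (by omega)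
      rw [ih (by omega), hσ1] at this
      rw [zpow_add_one₀ h0]
      apply mul_right_cancel₀ hμ
      linear_combination this
  have hσ : ∀ k : ℕ, 0 < k → k ≤ d → σ ^ k ≠ 1 := by
    intro k k0 k1 e
    apply hκ.ne (i := k) (j := 0) (by omega) (by omega) (by omega) (by omega) (by omega)
    rw [hκf k (by omega) (by omega), zpow_natCast, e, mul_one]
  have hK' := hK.congr hκf
  generalize κ 0 = μ at *
  have hKi' : Dg b Ki (fun i => μ⁻¹ * σ⁻¹ ^ i) :=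
    (hK'.inv hKi).congr fun i _ _ => by simp only [mul_inv, inv_zpow]
  obtain ⟨⟨b2, hb2⟩, -⟩ := hAK
  obtain ⟨θ, k1, k0, k2, h2, hK2, hz2, -⟩ := hb2.unpack
  obtain ⟨⟨b3, hb3⟩, -⟩ := hXK
  obtain ⟨ξ, j1, j0, j2, h3, hK3, hz3, -⟩ := hb3.unpack
  obtain ⟨_, _, _, _, _, _, w3⟩ := halfAW (by omega) h2 hK2 hz2 hK' hA hz
  obtain ⟨_, _, _, _, _, _, w4⟩ := halfAW (by omega) h3 hK3 hz3 hKi' hX hzX
  obtain ⟨a0, a1, p, C0, C1, C2, ha, hc⟩ := kshape (by omega) hA hz hK' hμ h0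
    (hσ 2 (by omega) (by omega)) w3
  obtain ⟨x0, x1, p', D0, D1, D2, hx, hc'⟩ := kshape (by omega) hX hzX hKi' (inv_ne_zero hμ)
    (inv_ne_zero h0) (by rw [inv_pow]; exact fun e => hσ 2 (by omega) (by omega) (inv_eq_one.1 e))
    w4
  simp only [inv_zpow, inv_inv, inv_pow] at hx hc'
  have hx' : ∀ i : ℤ, 0 ≤ i → i ≤ d →
      x i = x0 + x1 * σ ^ i + (1 + σ) * (σ ^ (d + 1))⁻¹ * p' * (σ ^ i) ^ 2 := by
    intro i i0 i1
    rw [hx i i0 i1, show (1 + σ⁻¹) * σ = 1 + σ by field_simp; ring]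
  have h2β : 2 - β ≠ 0 := sub_ne_zero.2 hβ.1.symm
  obtain ⟨α0, hα⟩ : ∃ α0, α0 * (2 - β) = γ := ⟨γ / _, div_mul_cancel₀ _ h2β⟩
  obtain ⟨ξ0, hξ⟩ : ∃ ξ0, ξ0 * (2 - β) = γ2 := ⟨γ2 / _, div_mul_cancel₀ _ h2β⟩
  obtain ⟨r0, ρ, n1, n2, n3, n4, n5⟩ := ratio (by omega) hβ (w1.plus hA hX).1 (w2.plus hX hA).1
    hz.1 hzX.1 hα hξ
  obtain ⟨r0', ρ', m1, m2, m3, m4, m5⟩ := ratio (by omega) hβ (w1.minus hA hX).1
    (w2.minus hX hA).1 hz.tr.1 hzX.tr.1 hα hξ
  obtain ⟨rfl, hnr, hcf, hfam⟩ := classify (d := d) (by omega) (a0 := a0 - α0) (x0 := x0 - ξ0)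
    (a1 := a1) (p := p) (C0 := C0) (C1 := C1) (C2 := C2) (x1 := x1) (p' := p') (D0 := D0)
    (D1 := D1) (D2 := D2) (a := fun i => a i - α0) (x := fun i => x i - ξ0)
    (c := fun i => lo (i - 1) * up i) (c' := fun i => r (i - 1) * s i) hβ h0 hσ n2 n3 m2 m3 n1 m1
    (fun i i0 i1 => by rw [ha i i0 i1]; ring) hc (fun i i0 i1 => by rw [hx' i i0 i1]; ring)
    (fun i i0 i1 => by rw [hc' i i0 i1, inv_pow])
    (by rw [hA.up0 _ (by omega), mul_zero])
    (by rw [hA.up0 _ (by omega), mul_zero])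
    (by rw [hX.up0 _ (by omega), mul_zero])
    (by rw [hX.up0 _ (by omega), mul_zero])
    (fun i i0 i1 => mul_ne_zero (hz.1 _ (by omega) (by omega)) (hz.2 _ (by omega) i1))
    (fun i i0 i1 => by
      have e1 := n4 (i - 1) (by omega) (by omega)
      have e2 := m4 (i - 1) (by omega) (by omega)
      simp only [sub_add_cancel] at e2
      rw [e1, e2, mul_zpow, zpow_sub_one₀ n2, zpow_sub_one₀ m2]
      field_simp) n5 m5
  have hN : σ ^ (d + 1) ≠ 0 := pow_ne_zero _ h0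
  have hsup : ∀ i : ℕ, i ≤ d + 1 → lo ((i : ℤ) - 1) * up i = supA d σ a1 p C0 i := by
    intro i hi
    have := hcf i (by omega) (by omega)
    simp only [zpow_natCast] at this
    rw [this, supA, pow_mul', inv_pow]; ring
  obtain ⟨v, hv1, hv2⟩ := rescale b lo hz.1
  refine ⟨v, μ, σ, ρ', r0, r0', a0, a1, p, C0, x0, x1, (1 + σ) * (σ ^ (d + 1))⁻¹ * p', hμ, h0, n1,
    m1, n3, fun i i0 i1 => ?_, ?_, hv2 K μ σ hK', hv1 A _ _ _ _ _ _ hA (fun i _ => by ring)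
    (fun i hi => ?_) (fun i _ hi => hsup i (by omega)), hv1 X _ _ _ _ _ _ hX (fun i hi => ?_)
    (fun i hi => ?_) (fun i i0 hi => ?_)⟩
  · rw [← hsup i (by omega)]
    exact mul_ne_zero (hz.1 _ (by omega) (by omega)) (hz.2 _ (by omega) (by omega))
  · have hs1 : 1 - σ ≠ 0 := fun e => hnr 1 one_pos (by linear_combination -e)
    rcases hfam with ⟨e1, e2, e3⟩ | ⟨e1, e2, e3, e4, e5, e6⟩ | ⟨e1, e2, e3, u, e4, e5, e6⟩ |
      ⟨e1, e2, e3, e4, e5, ν, e6, e7⟩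
    · exact Or.inl ⟨e1, e2, by rw [e3, mul_zero]⟩
    · refine Or.inr (Or.inl ⟨e1, ?_, e3, e4, e5, by rw [e6, mul_zero]⟩)
      subst e1 e3 e4 e5 e6 n3
      apply sharpE2 (N := σ ^ (d + 1)) (e := C0) (α := a0) (ξ := x0) (by omega) hz h0 hs1
        (fun e => e2 (by linear_combination -σ * e)) ?_ ?_ (w1.plus hA hX).2 (w1.minus hA hX).2
        (fun i i0 i1 => by rw [ha i i0 i1]; ring) (fun i i0 i1 => by rw [hx' i i0 i1]; ring) n4 m4
        (fun i i0 i1 => by rw [hcf i i0 i1]; ring)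
      · intro e
        apply hnr ((d + 1) * 2) (by omega)
        rw [pow_mul]; linear_combination (σ ^ (d + 1) - 1) * e
      · rintro rfl
        have := hcf 1 (by omega) (by omega)
        apply mul_ne_zero (hz.1 (1 - 1) (by omega) (by omega)) (hz.2 1 (by omega) (by omega))
        rw [this]; ring
    · refine Or.inr (Or.inr (Or.inl ⟨e1, e2, u, ?_, e5, e3, ?_⟩))
      · rcases mul_eq_zero.1 e6 with e7 | e7
        · have e8 : u = -p := by linear_combination e7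
          subst e8 e1 e2
          obtain ⟨-, ⟨bx, hbx⟩⟩ := hAX
          obtain ⟨ξ', l3, a3, u3, h4, hA4, hz4, -⟩ := hbx.unpack
          exact sharpE1 (by omega) hA hz hK' hX h2 hK2 h4 (inj_of h4 hX hzX) hA4 hz4 hμ h0 hs1 ha
            (fun i i0 i1 => by rw [hcf i i0 i1, e5, neg_sq])
            hx' n4 m4 e3 e4
        · exact sub_eq_zero.1 e7
      · field_simp
        linear_combination (1 + σ) * e4
    · refine Or.inr (Or.inr (Or.inr ⟨e1, e2, e3, e4, e5, ν, e7, ?_⟩))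
      field_simp
      linear_combination (1 + σ) * e6
  · rw [ha i (by omega) (by omega), diagA, zpow_natCast, pow_mul', inv_pow σ i, pow_succ σ d]
    field_simp
  · rw [n4 i (by omega) (by omega), zpow_natCast]
  · rw [hx' i (by omega) (by omega), zpow_natCast, pow_mul']
  · have e2 := m4 ((i : ℤ) - 1) (by omega) (by omega)
    simp only [sub_add_cancel] at e2
    rw [e2, ← hsup i (by omega), ← zpow_natCast, show ((i - 1 : ℕ) : ℤ) = (i : ℤ) - 1 by omega]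
    ring

theorem sufficiency (hd : 1 ≤ d) {β : F} (hAX : LeonardPair d A X) (hβ : NR β)
    {K Ki : V →ₗ[F] V} (hKi : ∀ x, Ki (K x) = x) {v : Basis (Fin (d + 1)) F V}
    {μ σ ρ r r' a₀ a₁ p e x₀ x₁ x₂ : F} (hμ : μ ≠ 0) (h0 : σ ≠ 0) (hr : r ≠ 0) (hr' : r' ≠ 0)
    (hρ : ρ + ρ⁻¹ = β) (hc : ∀ i, 1 ≤ i → i ≤ d → supA d σ a₁ p e i ≠ 0)
    (hF : Family d σ ρ r r' a₁ p e x₁ x₂)
    (mK : LinearMap.toMatrix v v K = Matrix.diagonal (fun i : Fin (d + 1) => μ * σ ^ (i : ℕ)))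
    (mA : LinearMap.toMatrix v v A = tri d (fun _ => 1) (diagA d σ a₀ a₁ p) (supA d σ a₁ p e))
    (mX : LinearMap.toMatrix v v X = tri d (fun i => r * ρ ^ i)
        (fun i => x₀ + x₁ * σ ^ i + x₂ * σ ^ (2 * i))
        (fun i => r' * ρ ^ (i - 1) * supA d σ a₁ p e i)) :
    LeonardPair d A K ∧ LeonardPair d X Ki := by
  have hρ0 : ρ ≠ 0 := by
    rintro rfl
    exact hβ.ne_zero (by rw [← hρ]; simp)
  have hnr : ∀ k : ℕ, 0 < k → σ ^ k ≠ 1 := by
    intro k hk e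
    apply hβ.pow_ne hρ0 hρ (k * 2) (by omega)
    rcases hF with ⟨e1, -⟩ | ⟨e1, -⟩ | ⟨e1, -⟩ | ⟨e1, -⟩
    · rw [e1, pow_mul, e, one_pow]
    · rw [e1, mul_comm, pow_mul, neg_sq, ← pow_mul, mul_comm, pow_mul, e, one_pow]
    · rw [e1, ← pow_mul, mul_comm, mul_assoc, pow_mul, e, one_pow]
    · rw [e1, ← pow_mul, mul_comm, mul_assoc, pow_mul, e, one_pow]
  have hnr' : ∀ k : ℕ, 0 < k → σ⁻¹ ^ k ≠ 1 := fun k hk e =>
    hnr k hk (by rw [inv_pow] at e; exact inv_eq_one.1 e)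
  have hinj : ∀ μ σ : F, μ ≠ 0 → σ ≠ 0 → (∀ k : ℕ, 0 < k → σ ^ k ≠ 1) →
      Inj d (fun i => μ * σ ^ i) := by
    intro μ σ hμ h0 hnr
    have key : ∀ i j : ℤ, i < j → σ ^ i ≠ σ ^ j := by
      intro i j a e
      apply hnr (j - i).toNat (by omega)
      rw [← zpow_natCast, show (((j - i).toNat : ℕ) : ℤ) = j - i by omega, zpow_sub₀ h0, e,
        div_self (zpow_ne_zero _ h0)]
    intro i j _ _ _ _ e
    have e := mul_left_cancel₀ hμ e
    rcases lt_trichotomy i j with h | h | h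
    · exact absurd e (key i j h)
    · exact h
    · exact absurd e.symm (key j i h)
  have hK := dg_of_matrix mK
  have hKi' : Dg v Ki (fun i => μ⁻¹ * σ⁻¹ ^ i) :=
    (hK.inv hKi).congr fun i _ _ => by simp only [mul_inv, inv_zpow]
  obtain ⟨lo, a, up, hA, a1, a2, a3⟩ := tri_of_matrix mA
  obtain ⟨lx, x, ux, hX, x1, x2, x3⟩ := tri_of_matrix mX
  have hz : NZ d lo up := by
    constructor
    · intro i i0 i1
      obtain ⟨n, rfl⟩ := Int.eq_ofNat_of_zero_le i0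
      rw [a1 n (by omega)]; exact one_ne_zero
    · intro i i0 i1
      obtain ⟨n, rfl⟩ := Int.eq_ofNat_of_zero_le i0.le
      rw [a3 n (by omega) (by omega)]; exact hc n (by omega) (by omega)
  have hzX : NZ d lx ux := by
    constructor
    · intro i i0 i1
      obtain ⟨n, rfl⟩ := Int.eq_ofNat_of_zero_le i0
      rw [x1 n (by omega)]; exact mul_ne_zero hr (pow_ne_zero _ hρ0)
    · intro i i0 i1
      obtain ⟨n, rfl⟩ := Int.eq_ofNat_of_zero_le i0.le
      rw [x3 n (by omega) (by omega)]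
      exact mul_ne_zero (mul_ne_zero hr' (pow_ne_zero _ hρ0)) (hc n (by omega) (by omega))
  obtain ⟨⟨b1, hb1⟩, ⟨b2, hb2⟩⟩ := hAX
  obtain ⟨θ, _, _, _, h1, -⟩ := hb1.unpack
  obtain ⟨ξ, _, _, _, h2, -⟩ := hb2.unpack
  have hN : σ ^ (d + 1) ≠ 0 := pow_ne_zero _ h0
  have hs2 : 1 + σ ≠ 0 := fun e => hnr 2 two_pos (by linear_combination (σ - 1) * e)
  constructor
  · refine ⟨reorder hd hA hz hK (hinj μ σ hμ h0 hnr) h1 h0 hnr
      (shapeAW (N := σ ^ (d + 1)) (a0 := a₀) (a1 := a₁) (p := p) (e0 := e) hA hK h0 ?_ ?_),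
      v, diagTri_of hK hA hz⟩
    · intro i i0 i1
      obtain ⟨n, rfl⟩ := Int.eq_ofNat_of_zero_le i0
      rw [a2 n (by omega), diagA, zpow_natCast, pow_mul', inv_pow σ n, pow_succ σ d]
      field_simp
    · intro i i0 i1
      obtain ⟨n, rfl⟩ := Int.eq_ofNat_of_zero_le i0
      by_cases e0 : n = 0
      · subst e0; rw [hA.up0 _ (by omega)]; simp
      by_cases e1 : n = d + 1
      · subst e1; rw [hA.up0 _ (by omega), zpow_natCast, mul_inv_cancel₀ hN]; simp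
      rw [a3 n (by omega) (by omega), show (n : ℤ) - 1 = (n - 1 : ℕ) by omega,
        a1 _ (by omega), supA, zpow_natCast, pow_mul', inv_pow]
      ring
  · obtain ⟨p', hp'⟩ : ∃ p', x₂ = (1 + σ) * (σ ^ (d + 1))⁻¹ * p' :=
      ⟨x₂ / ((1 + σ) * (σ ^ (d + 1))⁻¹),
        (mul_div_cancel₀ _ (mul_ne_zero hs2 (inv_ne_zero hN))).symm⟩
    obtain ⟨e', he'⟩ : ∃ e', ∀ T U : F, T ≠ 0 → (ρ = σ ∨ ρ = -σ → U ^ 2 = T ^ 2) →
        (ρ = σ ^ 2 → U = T ^ 2) → r * r' * (U * ρ⁻¹) ^ 2 * ((1 - T⁻¹) * (1 - σ ^ (d + 1) * T⁻¹) *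
        (e + σ * p * (a₁ + (σ ^ (d + 1) + 1) * p) * T⁻¹ + σ * σ ^ (d + 1) * p ^ 2 * T⁻¹ ^ 2)) =
        (1 - T) * (1 - (σ ^ (d + 1))⁻¹ * T) * (e' + σ⁻¹ * p' * (x₁ + ((σ ^ (d + 1))⁻¹ + 1) * p') * T
          + σ⁻¹ * (σ ^ (d + 1))⁻¹ * p' ^ 2 * T ^ 2) := by
      unfold Family at hF
      generalize σ ^ (d + 1) = N at *
      rcases hF with ⟨e1, e2, e3⟩ | ⟨e1, -, -, e2, -, e3⟩ | ⟨e1, e2, u, e3, e4, e5, e6⟩ |
        ⟨e1, -, e2, e3, e4, ν, e5, e6⟩
      · have : p' = 0 := by simpa [e3, hs2, hN] using hp'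
        subst this e2
        refine ⟨r * r' * e * N * σ⁻¹ ^ 2, fun T U hT h1 _ => ?_⟩
        rw [mul_pow, h1 (Or.inl e1), e1]
        field_simp
        ring
      · have : p' = 0 := by simpa [e3, hs2, hN] using hp'
        subst this e2
        refine ⟨r * r' * e * N * σ⁻¹ ^ 2, fun T U hT h1 _ => ?_⟩
        rw [mul_pow, h1 (Or.inr e1), e1]
        field_simp
        ring
      · have f1 : p' = r * N * u * σ⁻¹ := by
          rw [hp'] at e6
          field_simp at e6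
          field_simp
          linear_combination e6
        have f2 : x₁ = -r * a₁ * σ⁻¹ := by field_simp; linear_combination e5
        refine ⟨r * r' * N ^ 2 * p ^ 2 * σ⁻¹ ^ 3, fun T U hT _ h1 => ?_⟩
        rw [h1 e1, e1, f1, f2, e2, e3, e4]
        field_simp
        ring
      · have f1 : p' = ν * N * p * σ⁻¹ := by
          rw [hp'] at e6
          field_simp at e6
          field_simp
          linear_combination e6
        refine ⟨r * r' * N ^ 2 * p ^ 2 * σ⁻¹ ^ 3, fun T U hT _ h1 => ?_⟩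
        rw [h1 e1, e1, f1, e2, e3, e4, ← e5]
        field_simp
        ring
    refine ⟨reorder hd hX hzX hKi' (hinj _ _ (inv_ne_zero hμ) (inv_ne_zero h0) hnr') h2
      (inv_ne_zero h0) hnr' (shapeAW (N := (σ ^ (d + 1))⁻¹) (a0 := x₀) (a1 := x₁) (p := p')
      (e0 := e') hX hKi' (inv_ne_zero h0) ?_ ?_), v, diagTri_of hKi' hX hzX⟩
    · intro i i0 i1
      obtain ⟨n, rfl⟩ := Int.eq_ofNat_of_zero_le i0
      rw [x2 n (by omega), zpow_natCast, pow_mul', inv_pow σ n, inv_inv, inv_inv, hp']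
      field_simp
      ring
    · intro i i0 i1
      obtain ⟨n, rfl⟩ := Int.eq_ofNat_of_zero_le i0
      rw [zpow_natCast, inv_pow σ n, inv_inv]
      by_cases e0 : n = 0
      · subst e0; rw [hX.up0 _ (by omega)]; simp
      by_cases e1 : n = d + 1
      · subst e1; rw [hX.up0 _ (by omega), inv_mul_cancel₀ hN]; simp
      rw [← he' (σ ^ n) (ρ ^ n) (pow_ne_zero _ h0), x3 n (by omega) (by omega),
        show (n : ℤ) - 1 = (n - 1 : ℕ) by omega, x1 _ (by omega), supA, pow_mul', inv_pow σ n,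
        pow_sub₀ ρ hρ0 (by omega : 1 ≤ n)]
      · ring
      · rintro (e | e)
        · rw [e]
        · rw [e, ← pow_mul, ← pow_mul, mul_comm, pow_mul, pow_mul, neg_sq]
      · intro e
        rw [e, ← pow_mul, ← pow_mul, mul_comm]

end Pool.Agent.P.MP_2f562c_al
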